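import Pool.Agent.Lib.MP_ff4e96_coG.Irr1

/-!
# MP_ff4e96_co: restriction of a polynomial to a conic

`conic_repr`: on the conic `N = ν` a polynomial is `A(x) + y B(x)`; `conic_growth`: such a function grows at least
linearly along an irrational direction unless it is constant.
-/

namespace Pool.Agent.Lib.MP_ff4e96_coG

open Filter Topology Polynomial Pool.Agent.Lib.MP_ff4e96_co

theorem conic_repr (F' : MvPolynomial (Fin 2) ℚ) (b a n₁ n₂ ν : ℚ) : ∃ A B : ℚ[X], ∀ x y : ℝ,
    NN b a n₁ n₂ 0 x y = ν → MvPolynomial.eval ![x, y] (MvPolynomial.map (algebraMap ℚ ℝ) F') =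
      aeval x A + y * aeval x B := by
  induction F' using MvPolynomial.induction_on with
  | C q =>
    refine ⟨C q, 0, fun x y _ => ?_⟩
    rw [MvPolynomial.map_C, MvPolynomial.eval_C, aeval_C, map_zero, mul_zero, add_zero]
  | add p q hp hq =>
    obtain ⟨A, B, hAB⟩ := hp
    obtain ⟨A', B', hAB'⟩ := hq
    refine ⟨A + A', B + B', fun x y h => ?_⟩
    rw [map_add, map_add, hAB x y h, hAB' x y h, map_add, map_add]
    ring
  | mul_X p i hp =>
    obtain ⟨A, B, hAB⟩ := hp
    fin_cases i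
    · refine ⟨A * X, B * X, fun x y h => ?_⟩
      rw [map_mul, map_mul, hAB x y h, MvPolynomial.map_X, MvPolynomial.eval_X, map_mul, map_mul,
        aeval_X]
      simp only [Fin.zero_eta, Matrix.cons_val_zero]
      ring
    · refine ⟨(C ν - C a * X ^ 2 - C n₁ * X) * B, A - (C b * X + C n₂) * B, fun x y h => ?_⟩
      rw [map_mul, map_mul, hAB x y h, MvPolynomial.map_X, MvPolynomial.eval_X]
      simp only [Fin.mk_one, Matrix.cons_val_one, Matrix.cons_val_fin_one, map_mul, map_sub, map_add, map_pow, aeval_X,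
        aeval_C, eq_ratCast]
      unfold NN at h
      rw [Rat.cast_zero, add_zero] at h
      have h2 : y ^ 2 = ν - (b * x * y + a * x ^ 2 + n₁ * x + n₂ * y) := by linear_combination h
      linear_combination aeval x B * h2

theorem conic_growth {θ : ℝ} (hθ : Irrational θ) (A B : ℚ[X]) (hAB : ¬ (B = 0 ∧ A.natDegree = 0))
    (W : ℝ) : ∃ c X₀ : ℝ, 0 < c ∧ ∀ x y : ℝ, X₀ ≤ x → |y - θ * x| ≤ W →
      c * x ≤ |aeval x A + y * aeval x B| := by
  set A' : ℝ[X] := A.map (algebraMap ℚ ℝ) with hA'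
  set B' : ℝ[X] := B.map (algebraMap ℚ ℝ) with hB'
  set G : ℝ[X] := A' + C θ * (X * B') with hG
  have hco : ∀ k, G.coeff (k + 1) = A.coeff (k + 1) + B.coeff k * θ := by
    intro k
    rw [hG, coeff_add, coeff_C_mul, coeff_X_mul, hA', hB', coeff_map, coeff_map]
    simp only [eq_ratCast]
    ring
  have hdeg : 1 ≤ G.natDegree ∧ B'.degree < G.degree := by
    by_cases hB : B = 0
    · have hA : 1 ≤ A.natDegree := by
        by_contra h
        exact hAB ⟨hB, by omega⟩
      have hGA : G = A' := by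
        rw [hG, hB', hB, Polynomial.map_zero, mul_zero, mul_zero, add_zero]
      have hn : 1 ≤ G.natDegree := by
        rw [hGA, hA', natDegree_map]
        exact hA
      refine ⟨hn, ?_⟩
      rw [hB', hB, Polynomial.map_zero, degree_zero]
      refine bot_lt_iff_ne_bot.2 fun h => ?_
      rw [degree_eq_bot] at h
      rw [h, natDegree_zero] at hn
      omega
    · have hne : G.coeff (B.natDegree + 1) ≠ 0 := by
        intro h
        rw [hco] at h
        obtain ⟨-, h2⟩ := irr_lin hθ h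
        exact hB (leadingCoeff_eq_zero.1 h2)
      have hn : B.natDegree + 1 ≤ G.natDegree := le_natDegree_of_ne_zero hne
      refine ⟨by omega, ?_⟩
      have hB0 : B' ≠ 0 := by
        rw [hB', Ne, Polynomial.map_eq_zero]
        exact hB
      have hG0 : G ≠ 0 := by
        intro h
        rw [h, coeff_zero] at hne
        exact hne rfl
      rw [degree_eq_natDegree hB0, degree_eq_natDegree hG0, hB', natDegree_map]
      exact_mod_cast hn
  have hX : (X : ℝ[X]).degree ≤ G.degree := by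
    have hG0 : G ≠ 0 := by
      intro h
      rw [h, natDegree_zero] at hdeg
      omega
    rw [degree_X, degree_eq_natDegree hG0]
    exact_mod_cast hdeg.1
  obtain ⟨K, hK0, hK⟩ := (Polynomial.isBigO_atTop_of_degree_le X G hX).exists_pos
  have hK' := hK.bound
  have hWB : (C (|W| + 1) * B' : ℝ[X]).degree < G.degree :=
    (degree_C_mul (by positivity)).trans_lt hdeg.2
  have hT := Polynomial.div_tendsto_atTop_zero_of_degree_lt (C (|W| + 1) * B') G hWB
  have hT' : ∀ᶠ x : ℝ in atTop, |eval x (C (|W| + 1) * B') / eval x G| < 1 / 2 := by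
    have := (tendsto_order.1 hT.abs).2 (1 / 2) (by simp)
    simpa using this
  obtain ⟨X₀, hX₀⟩ := eventually_atTop.1 ((hK'.and hT').and (eventually_ge_atTop (1 : ℝ)))
  refine ⟨1 / (2 * K), X₀, by positivity, fun x y hx hy => ?_⟩
  obtain ⟨⟨h1, h2⟩, h3⟩ := hX₀ x hx
  rw [eval_X, Real.norm_eq_abs, Real.norm_eq_abs, abs_of_nonneg (by linarith : (0 : ℝ) ≤ x)] at h1
  have hG0 : 0 < |eval x G| := by
    by_contra h
    have h4 : |eval x G| = 0 := le_antisymm (not_lt.1 h) (abs_nonneg _)
    rw [h4, mul_zero] at h1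
    linarith
  have heB : aeval x B = eval x B' := by
    rw [hB', eval_map_algebraMap]
  have heA : aeval x A = eval x A' := by
    rw [hA', eval_map_algebraMap]
  have heG : eval x G = eval x A' + θ * (x * eval x B') := by
    rw [hG, eval_add, eval_mul, eval_C, eval_mul, eval_X]
  have h5 : |(y - θ * x) * eval x B'| ≤ 1 / 2 * |eval x G| := by
    rw [abs_div, div_lt_iff₀ hG0, eval_mul, eval_C, abs_mul, abs_of_pos (by positivity)] at h2
    rw [abs_mul]
    calc |y - θ * x| * |eval x B'| ≤ (|W| + 1) * |eval x B'| :=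
          mul_le_mul_of_nonneg_right (hy.trans ((le_abs_self W).trans (by linarith)))
            (abs_nonneg _)
      _ ≤ 1 / 2 * |eval x G| := h2.le
  have h6 : aeval x A + y * aeval x B = eval x G + (y - θ * x) * eval x B' := by
    rw [heA, heB, heG]
    ring
  rw [h6]
  have h7 : |eval x G| - |(y - θ * x) * eval x B'| ≤ |eval x G + (y - θ * x) * eval x B'| := by
    have := abs_sub_abs_le_abs_sub (eval x G) (-((y - θ * x) * eval x B'))
    rw [abs_neg, sub_neg_eq_add] at this
    exact this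
  have h8 : 1 / (2 * K) * x ≤ 1 / 2 * |eval x G| := by
    rw [div_mul_eq_mul_div, div_le_iff₀ (by positivity)]
    linarith
  linarith

/-- the values of `N` at the lattice points have a common denominator -/
theorem NN_den (b a n₁ n₂ : ℚ) : ∃ E : ℕ, 0 < E ∧ ∀ x y : ℤ, ∃ j : ℤ,
    NN b a n₁ n₂ 0 (x : ℝ) (y : ℝ) = (((j : ℚ) / (E : ℚ) : ℚ) : ℝ) := by
  refine ⟨b.den * a.den * n₁.den * n₂.den, Nat.mul_pos (Nat.mul_pos (Nat.mul_pos b.den_pos
    a.den_pos) n₁.den_pos) n₂.den_pos, fun x y => ?_⟩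
  refine ⟨b.den * a.den * n₁.den * n₂.den * y ^ 2 + b.num * a.den * n₁.den * n₂.den * x * y +
    b.den * a.num * n₁.den * n₂.den * x ^ 2 + b.den * a.den * n₁.num * n₂.den * x +
    b.den * a.den * n₁.den * n₂.num * y, ?_⟩
  have hb : (b.den : ℚ) ≠ 0 := by exact_mod_cast b.den_nz
  have ha : (a.den : ℚ) ≠ 0 := by exact_mod_cast a.den_nz
  have h1 : (n₁.den : ℚ) ≠ 0 := by exact_mod_cast n₁.den_nz
  have h2 : (n₂.den : ℚ) ≠ 0 := by exact_mod_cast n₂.den_nz
  have h3 : NN b a n₁ n₂ 0 (x : ℝ) (y : ℝ) =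
      (((y : ℚ) ^ 2 + b * x * y + a * x ^ 2 + n₁ * x + n₂ * y : ℚ) : ℝ) := by
    unfold NN
    push_cast
    ring
  rw [h3]
  congr 1
  have eb : b = b.num / b.den := (Rat.num_div_den b).symm
  have ea : a = a.num / a.den := (Rat.num_div_den a).symm
  have e1 : n₁ = n₁.num / n₁.den := (Rat.num_div_den n₁).symm
  have e2 : n₂ = n₂.num / n₂.den := (Rat.num_div_den n₂).symm
  rw [eq_div_iff (by push_cast; positivity)]
  push_cast
  have fb : b * b.den = b.num := Rat.mul_den_eq_num b
  have fa : a * a.den = a.num := Rat.mul_den_eq_num a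
  have f1 : n₁ * n₁.den = n₁.num := Rat.mul_den_eq_num n₁
  have f2 : n₂ * n₂.den = n₂.num := Rat.mul_den_eq_num n₂
  linear_combination (a.den * n₁.den * n₂.den * x * y : ℚ) * fb +
    (b.den * n₁.den * n₂.den * x ^ 2 : ℚ) * fa + (b.den * a.den * n₂.den * x : ℚ) * f1 +
    (b.den * a.den * n₁.den * y : ℚ) * f2

end Pool.Agent.Lib.MP_ff4e96_coG
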