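import Pool.Agent.Lib.MP_ff4e96_coG.Loc
import Pool.Agent.Lib.MP_ff4e96_co.Final

/-!
# MP_ff4e96_co: the global argument, all degrees

`main_of_loc`: the finitely many zeros of the leading form in the sector have disjoint tame neighbourhoods; the rest
of the sector has infinitely many values, of density zero; contradiction by `final_density`.
-/

namespace Pool.Agent.Lib.MP_ff4e96_coG

open Filter Topology Pool.Agent.Lib.MP_ff4e96_co

/-- a rational number in `(0, α)` with a positive distance from a finite set -/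
private theorem glob_choose {α : ℚ} (hα : 0 < α) (Z : Finset ℝ) :
    ∃ t₁ : ℚ, 0 < t₁ ∧ t₁ < α ∧ ∃ η : ℝ, 0 < η ∧ ∀ t ∈ Z, η < |(t₁ : ℝ) - t| := by
  classical
  have hinf : (Set.Ioo (0 : ℚ) α).Infinite := Set.Ioo_infinite hα
  have hinj : Set.InjOn (fun q : ℚ => (q : ℝ)) (Set.Ioo (0 : ℚ) α) :=
    fun a _ b _ h => Rat.cast_injective h
  have hinf2 : ((fun q : ℚ => (q : ℝ)) '' Set.Ioo (0 : ℚ) α).Infinite := hinf.image hinj
  obtain ⟨x, ⟨q, hq, rfl⟩, hx⟩ := (hinf2.diff Z.finite_toSet).nonempty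
  have hopen : IsOpen ((Z : Set ℝ)ᶜ) := Z.finite_toSet.isClosed.isOpen_compl
  obtain ⟨e, he, hball⟩ := Metric.isOpen_iff.1 hopen (q : ℝ) hx
  refine ⟨q, hq.1, hq.2, e / 2, by positivity, fun t ht => ?_⟩
  by_contra hcon
  push Not at hcon
  have : t ∈ Metric.ball (q : ℝ) e := by
    rw [Metric.mem_ball, dist_comm, Real.dist_eq]
    linarith
  exact hball this ht

/-- the global argument: if all zeros of the leading form in the sector have tame neighbourhoods then `F` is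
not a bijection -/
theorem main_of_loc {F : MvPolynomial (Fin 2) ℝ} {α : ℚ} (hα : 0 < α) (hd3 : 3 ≤ F.totalDegree)
    (hsur : ∀ m : ℕ, ∃ P ∈ Cone α, FF F P = m) (hNI : NI (FF F) (Cone α))
    (hlocal : ∀ t : ℝ, 0 ≤ t → t ≤ α → (dh F F.totalDegree).eval t = 0 → ∀ η : ℝ, 0 < η →
      ∃ S : Set (ℤ × ℤ), S ⊆ Cone α ∧ S ⊆ Near t η 1 ∧ Tame (vals (FF F) S) ∧
        ∃ ε : ℝ, 0 < ε ∧ ∃ X₀ : ℤ, Cone α ∩ Near t ε X₀ ⊆ S) : False := by
  classical
  have hF0 : F ≠ 0 := by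
    rintro rfl
    simp at hd3
  have hdh0 := dh_ne_zero F hF0
  have hαR : (0 : ℝ) < (α : ℝ) := by exact_mod_cast hα
  obtain ⟨Z₀, hZ₀⟩ : ∃ Z₀ : Finset ℝ, ∀ t : ℝ, (dh F F.totalDegree).eval t = 0 → t ∈ Z₀ :=
    ⟨(dh F F.totalDegree).roots.toFinset, fun t ht => by
      rw [Multiset.mem_toFinset, Polynomial.mem_roots hdh0]
      exact ht⟩
  set Z : Finset ℝ := Z₀.filter (fun t => (0 ≤ t ∧ t ≤ (α : ℝ)) ∧ (dh F F.totalDegree).eval t = 0) with hZdef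
  have hZmem : ∀ t : ℝ, t ∈ Z ↔ (0 ≤ t ∧ t ≤ (α : ℝ)) ∧ (dh F F.totalDegree).eval t = 0 := by
    intro t
    rw [hZdef, Finset.mem_filter]
    exact ⟨fun h => h.2, fun h => ⟨hZ₀ t h.2, h⟩⟩
  obtain ⟨t₁, ht₁0, ht₁α, η, hη, hηZ⟩ := glob_choose hα Z
  -- the local sets
  have hloc : ∀ t : ℝ, ∃ (S : Set (ℤ × ℤ)) (ε : ℝ) (X : ℤ), t ∈ Z →
      S ⊆ Cone α ∧ S ⊆ Near t η 1 ∧ Tame (vals (FF F) S) ∧ 0 < ε ∧
        Cone α ∩ Near t ε X ⊆ S := by
    intro t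
    by_cases ht : t ∈ Z
    · obtain ⟨⟨h0, h1⟩, h2⟩ := (hZmem t).1 ht
      obtain ⟨S, hS1, hS2, hS3, ε, hε, X, hX⟩ :=
        hlocal t h0 h1 h2 η hη
      exact ⟨S, ε, X, fun _ => ⟨hS1, hS2, hS3, hε, hX⟩⟩
    · exact ⟨∅, 0, 0, fun h => absurd h ht⟩
  choose S ε X hSall using hloc
  set U : Set (ℤ × ℤ) := ⋃ t ∈ Z, S t with hU
  have hUcone : U ⊆ Cone α := by
    intro P hP
    rw [hU] at hP
    simp only [Set.mem_iUnion] at hP
    obtain ⟨t, ht, hP⟩ := hP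
    exact (hSall t ht).1 hP
  have hvU : vals (FF F) U = ⋃ t ∈ Z, vals (FF F) (S t) := by
    ext v
    constructor
    · rintro ⟨P, hP, hv⟩
      rw [hU] at hP
      simp only [Set.mem_iUnion] at hP ⊢
      obtain ⟨t, ht, hP⟩ := hP
      exact ⟨t, ht, P, hP, hv⟩
    · intro hv
      simp only [Set.mem_iUnion] at hv
      obtain ⟨t, ht, P, hP, hv⟩ := hv
      refine ⟨P, ?_, hv⟩
      rw [hU]
      simp only [Set.mem_iUnion]
      exact ⟨t, ht, hP⟩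
  have htame : Tame (vals (FF F) U) := by
    rw [hvU]
    exact tame_iUnion Z _ (fun t ht => (hSall t ht).2.2.1)
  obtain ⟨V₁, V₂, hV, hV₁, hV₂⟩ := htame
  have hJ : Null (vals (FF F) (Cone α \ U)) := by
    refine rest_nullG hα hd3 hNI Z
      (fun t h0 h1 h2 => (hZmem t).2 ⟨⟨h0, h1⟩, h2⟩) ε (fun t ht => (hSall t ht).2.2.2.1) X U ?_
    intro t ht P hP
    rw [hU]
    simp only [Set.mem_iUnion]
    exact ⟨t, ht, (hSall t ht).2.2.2.2 hP⟩
  have hfin : (vals (FF F) (Cone α \ U)).Finite := by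
    refine final_density hV₁ hV₂ hJ ?_ ?_
    · ext v
      simp only [Set.mem_univ, iff_true]
      obtain ⟨P, hP, hv⟩ := hsur v
      by_cases hPU : P ∈ U
      · left
        rw [← hV]
        exact ⟨P, hPU, hv⟩
      · right
        exact ⟨P, ⟨hP, hPU⟩, hv⟩
    · rw [Set.disjoint_left]
      intro v hv hv1
      obtain ⟨P, ⟨hP, hPU⟩, hPv⟩ := hv
      have hvU' : v ∈ vals (FF F) U := by
        rw [hV]
        exact Or.inl hv1
      obtain ⟨Q, hQ, hQv⟩ := hvU'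
      have hPQ : P = Q := hNI.2 hP (hUcone hQ) (by rw [hPv, hQv])
      exact hPU (hPQ ▸ hQ)
  -- the points on the ray
  have hden : (0 : ℤ) < (t₁.den : ℤ) := by exact_mod_cast t₁.den_pos
  have hnum : (0 : ℤ) < t₁.num := Rat.num_pos.2 ht₁0
  have hq : (t₁ : ℚ) * (t₁.den : ℚ) = (t₁.num : ℚ) := Rat.mul_den_eq_num t₁
  have hqR : (t₁ : ℝ) * (t₁.den : ℝ) = (t₁.num : ℝ) := by exact_mod_cast hq
  let Pt : ℕ → ℤ × ℤ := fun k => (((k : ℤ) + 1) * (t₁.den : ℤ), ((k : ℤ) + 1) * t₁.num)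
  have hPtc : ∀ k, Pt k ∈ Cone α := by
    intro k
    refine ⟨?_, ?_⟩
    · have : (0 : ℤ) < (k : ℤ) + 1 := by positivity
      exact (mul_pos this hnum).le
    · have hk : (0 : ℚ) < (k : ℚ) + 1 := by positivity
      have hd0 : (0 : ℚ) < (t₁.den : ℚ) := by exact_mod_cast t₁.den_pos
      show ((((k : ℤ) + 1) * t₁.num : ℤ) : ℚ) ≤ α * ((((k : ℤ) + 1) * (t₁.den : ℤ) : ℤ) : ℚ)
      push_cast
      rw [← hq]
      have h1 : t₁ * (t₁.den : ℚ) ≤ α * (t₁.den : ℚ) :=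
        mul_le_mul_of_nonneg_right ht₁α.le hd0.le
      calc ((k : ℚ) + 1) * (t₁ * (t₁.den : ℚ)) ≤ ((k : ℚ) + 1) * (α * (t₁.den : ℚ)) :=
            mul_le_mul_of_nonneg_left h1 hk.le
        _ = α * (((k : ℚ) + 1) * (t₁.den : ℚ)) := by ring
  have hPtU : ∀ k, Pt k ∉ U := by
    intro k hk
    rw [hU] at hk
    simp only [Set.mem_iUnion] at hk
    obtain ⟨t, ht, hk⟩ := hk
    obtain ⟨-, h2⟩ := (hSall t ht).2.1 hk
    have hk1 : (0 : ℝ) < (k : ℝ) + 1 := by positivity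
    have hd0 : (0 : ℝ) < (t₁.den : ℝ) := by exact_mod_cast t₁.den_pos
    have hpos : (0 : ℝ) < ((k : ℝ) + 1) * (t₁.den : ℝ) := mul_pos hk1 hd0
    have h3 : |((((k : ℤ) + 1) * t₁.num : ℤ) : ℝ) -
        t * ((((k : ℤ) + 1) * (t₁.den : ℤ) : ℤ) : ℝ)| ≤
        η * ((((k : ℤ) + 1) * (t₁.den : ℤ) : ℤ) : ℝ) := h2
    push_cast at h3
    rw [← hqR] at h3
    have h4 : ((k : ℝ) + 1) * ((t₁ : ℝ) * (t₁.den : ℝ)) - t * (((k : ℝ) + 1) * (t₁.den : ℝ)) =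
        ((t₁ : ℝ) - t) * (((k : ℝ) + 1) * (t₁.den : ℝ)) := by ring
    rw [h4, abs_mul, abs_of_pos hpos] at h3
    have h5 : |(t₁ : ℝ) - t| ≤ η := le_of_mul_le_mul_right h3 hpos
    exact absurd h5 (not_le.2 (hηZ t ht))
  have hval : ∀ k, ∃ v : ℕ, FF F (Pt k) = v := fun k => hNI.1 _ (hPtc k)
  choose g hg using hval
  have hginj : Function.Injective g := by
    intro k l hkl
    have h1 : Pt k = Pt l := hNI.2 (hPtc k) (hPtc l) (by rw [hg, hg, hkl])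
    have h2 : ((k : ℤ) + 1) * (t₁.den : ℤ) = ((l : ℤ) + 1) * (t₁.den : ℤ) := congrArg Prod.fst h1
    have h3 : (k : ℤ) + 1 = (l : ℤ) + 1 := mul_right_cancel₀ hden.ne' h2
    have h4 : (k : ℤ) = (l : ℤ) := by linarith
    exact_mod_cast h4
  exact (Set.infinite_of_injective_forall_mem hginj
    (fun k => (⟨Pt k, ⟨hPtc k, hPtU k⟩, hg k⟩ : g k ∈ vals (FF F) (Cone α \ U)))) hfin

end Pool.Agent.Lib.MP_ff4e96_coG
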