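import Pool.Agent.Lib.MP_ff4e96_coG.Lead
import Pool.Agent.Lib.MP_ff4e96_co.QF1

/-!
# MP_ff4e96_co: quadratic irrational directions, basic lemmas

`quadcase`: the comparison lemma for `F = x^n (α N² + β N + x^j e(y/x) + γ)` near a quadratic irrational direction.
-/

namespace Pool.Agent.Lib.MP_ff4e96_coG

open Filter Topology Polynomial Pool.Agent.Lib.MP_ff4e96_co

theorem qbound (f : ℚ[X]) (θ : ℝ) : ∃ C : ℝ, 0 ≤ C ∧ ∀ t : ℝ, |t - θ| ≤ 1 →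
    |aeval t f| ≤ C := by
  obtain ⟨C, hC⟩ := (isCompact_closedBall θ 1).exists_bound_of_continuousOn
    (f := fun t : ℝ => aeval t f) (Polynomial.continuous_aeval f).continuousOn
  refine ⟨max C 0, le_max_right _ _, fun t ht => ?_⟩
  have := hC t (by rw [Metric.mem_closedBall, Real.dist_eq]; exact ht)
  rw [Real.norm_eq_abs] at this
  exact this.trans (le_max_left _ _)

theorem qnear (f : ℚ[X]) {θ v : ℝ} (h : v < aeval θ f) : ∃ ε : ℝ, 0 < ε ∧ ε ≤ 1 ∧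
    ∀ t : ℝ, |t - θ| ≤ ε → v ≤ aeval t f := by
  have h1 : ∀ᶠ t in 𝓝 θ, v < aeval t f :=
    (Polynomial.continuous_aeval f).continuousAt.eventually (lt_mem_nhds h)
  obtain ⟨ε, hε, h2⟩ := Metric.eventually_nhds_iff.1 h1
  refine ⟨min (ε / 2) 1, lt_min (by positivity) one_pos, min_le_right _ _, fun t ht => ?_⟩
  refine (h2 ?_).le
  rw [Real.dist_eq]
  have := min_le_left (ε / 2) 1
  linarith

theorem near_t {θ ε : ℝ} {X : ℤ} (hX : 1 ≤ X) {P : ℤ × ℤ} (hP : P ∈ Near θ ε X) :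
    (1 : ℝ) ≤ P.1 ∧ |(P.2 : ℝ) / P.1 - θ| ≤ ε := by
  obtain ⟨h1, h2⟩ := hP
  have h3 : (1 : ℝ) ≤ P.1 := by exact_mod_cast hX.trans h1
  have h4 : (0 : ℝ) < P.1 := by linarith
  refine ⟨h3, ?_⟩
  have h5 : (P.2 : ℝ) / P.1 - θ = ((P.2 : ℝ) - θ * P.1) / P.1 := by
    field_simp
  rw [h5, abs_div, abs_of_pos h4, div_le_iff₀ h4]
  exact h2

theorem near_sub' {θ ε ε' : ℝ} {X X' : ℤ} (h : ε' ≤ ε) (hX : X ≤ X') (h0 : 0 ≤ X') :
    Near θ ε' X' ⊆ Near θ ε X := by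
  rintro P ⟨h1, h2⟩
  refine ⟨hX.trans h1, h2.trans ?_⟩
  have : (0 : ℝ) ≤ P.1 := by exact_mod_cast h0.trans h1
  exact mul_le_mul_of_nonneg_right h this

/-- a value of `N` which is attained arbitrarily far out near the line `y = θ x` -/
theorem attained' {θ : ℝ} (hθ : Irrational θ) {b a : ℚ} (hg : θ ^ 2 + b * θ + a = 0)
    (n₁ n₂ n₃ : ℚ) {ε : ℝ} (hε : 0 < ε) : ∃ ν : ℝ, ∀ X : ℤ, ∃ P ∈ Near θ ε X,
      NN b a n₁ n₂ n₃ P.1 P.2 = ν := by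
  obtain ⟨ε₀, hε₀, hp⟩ := pell hθ hg n₁ n₂ n₃
  set δ : ℝ := min ε ε₀ with hδ
  have hδ0 : 0 < δ := lt_min hε hε₀
  obtain ⟨X₁, hX₁⟩ := hp δ hδ0 (min_le_right _ _)
  obtain ⟨x, hx1, hx2⟩ : ∃ x : ℤ, X₁ ≤ x ∧ 1 / δ ≤ (x : ℝ) :=
    ⟨max X₁ ⌈1 / δ⌉, le_max_left _ _, (Int.le_ceil _).trans (by exact_mod_cast le_max_right _ _)⟩
  have hP : ((x, ⌊θ * x⌋) : ℤ × ℤ) ∈ Near θ δ X₁ := by
    refine ⟨hx1, ?_⟩
    have h1 : (⌊θ * x⌋ : ℝ) ≤ θ * x := Int.floor_le _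
    have h2 : θ * x < ⌊θ * x⌋ + 1 := Int.lt_floor_add_one _
    have h3 : 1 ≤ δ * x := by
      rw [div_le_iff₀ hδ0] at hx2
      linarith
    show |((⌊θ * x⌋ : ℤ) : ℝ) - θ * (x : ℝ)| ≤ δ * (x : ℝ)
    rw [abs_le]
    constructor <;> linarith
  refine ⟨NN b a n₁ n₂ n₃ (x : ℝ) (⌊θ * x⌋ : ℤ), fun X => ?_⟩
  obtain ⟨P', hP', hN⟩ := hX₁ _ hP (max X 0)
  exact ⟨P', near_sub' (min_le_left _ _) (le_max_left _ _) (le_max_right _ _) hP', hN⟩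

private theorem qc_low {c C N : ℝ} (hc : 0 < c) :
    -(C ^ 2 / (4 * c)) ≤ c * N ^ 2 - C * |N| := by
  have h1 : 0 ≤ (2 * c * |N| - C) ^ 2 := sq_nonneg _
  have h2 : |N| ^ 2 = N ^ 2 := sq_abs N
  rw [neg_le_iff_add_nonneg, ← mul_nonneg_iff_of_pos_left (show (0 : ℝ) < 4 * c by positivity)]
  have h3 : 4 * c * (c * N ^ 2 - C * |N| + C ^ 2 / (4 * c)) = (2 * c * |N| - C) ^ 2 := by
    rw [← h2]
    field_simp
    ring
  rw [h3]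
  exact h1

theorem quadcase {θ : ℝ} (hθ : Irrational θ) {b a : ℚ} (hg : θ ^ 2 + b * θ + a = 0)
    (n₁ n₂ : ℚ) {n j : ℕ} (hnj : 3 ≤ n + (j + 1)) (F : ℤ × ℤ → ℝ)
    (α β γ : ℤ × ℤ → ℝ) (e : ℚ[X]) (he : aeval θ e ≠ 0) {c C ε₁ : ℝ} (hc : 0 < c)
    (hε₁ : 0 < ε₁) {X₁ : ℤ} (hX₁ : 1 ≤ X₁)
    (hF : ∀ P ∈ Near θ ε₁ X₁, F P = (P.1 : ℝ) ^ n * (α P * NN b a n₁ n₂ 0 P.1 P.2 ^ 2 +
      β P * NN b a n₁ n₂ 0 P.1 P.2 + (P.1 : ℝ) ^ (j + 1) * aeval ((P.2 : ℝ) / P.1) e + γ P) ∧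
      c ≤ α P ∧ α P ≤ C ∧ |β P| ≤ C ∧ |γ P| ≤ C * (P.1 : ℝ) ^ j)
    (hpos : ∀ P ∈ Near θ ε₁ X₁, 0 ≤ F P) : LowC F θ := by
  rcases lt_or_gt_of_ne he with hneg | hpos'
  · -- contradiction
    exfalso
    obtain ⟨ε₂, hε₂, -, h2⟩ := qnear (-e) (θ := θ) (v := -(aeval θ e) / 2) (by
      rw [map_neg]
      linarith)
    obtain ⟨ν, hν⟩ := attained' hθ hg n₁ n₂ 0 (ε := min ε₁ ε₂) (lt_min hε₁ hε₂)
    set K : ℝ := 2 * (C * ν ^ 2 + C * |ν| + C) / (-(aeval θ e)) with hK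
    obtain ⟨P, hP, hPν⟩ := hν (max X₁ (⌊K⌋ + 1))
    have hX1 : 1 ≤ max X₁ (⌊K⌋ + 1) := hX₁.trans (le_max_left _ _)
    have hP1 : P ∈ Near θ ε₁ X₁ := near_sub' (min_le_left _ _) (le_max_left _ _) (by omega) hP
    have hP2 := (near_t hX1 hP).2.trans (min_le_right ε₁ ε₂)
    have hx1 := (near_t hX1 hP).1
    have hxK : K < P.1 := by
      have h3 : ⌊K⌋ + 1 ≤ P.1 := (le_max_right _ _).trans hP.1
      have h4 : ((⌊K⌋ + 1 : ℤ) : ℝ) ≤ P.1 := by exact_mod_cast h3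
      push_cast at h4
      exact (Int.lt_floor_add_one K).trans_le h4
    obtain ⟨hFP, hα1, hα2, hβ, hγ⟩ := hF P hP1
    have h3 := hpos P hP1
    rw [hFP, hPν] at h3
    have hx0 : (0 : ℝ) < P.1 := by linarith
    have hxn : (0 : ℝ) < (P.1 : ℝ) ^ n := pow_pos hx0 n
    have h4 : 0 ≤ α P * ν ^ 2 + β P * ν + (P.1 : ℝ) ^ (j + 1) * aeval ((P.2 : ℝ) / P.1) e + γ P :=
      nonneg_of_mul_nonneg_right (by linarith) hxn
    have h5 : aeval ((P.2 : ℝ) / P.1) e ≤ aeval θ e / 2 := by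
      have := h2 _ hP2
      rw [map_neg] at this
      linarith
    have hC0 : 0 ≤ C := hc.le.trans (hα1.trans hα2)
    have h6 : α P * ν ^ 2 ≤ C * ν ^ 2 := mul_le_mul_of_nonneg_right hα2 (sq_nonneg _)
    have h7 : β P * ν ≤ C * |ν| := by
      calc β P * ν ≤ |β P * ν| := le_abs_self _
        _ = |β P| * |ν| := abs_mul _ _
        _ ≤ C * |ν| := mul_le_mul_of_nonneg_right hβ (abs_nonneg _)
    have hxj : (1 : ℝ) ≤ (P.1 : ℝ) ^ j := one_le_pow₀ hx1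
    have h8 : (P.1 : ℝ) ^ (j + 1) * aeval ((P.2 : ℝ) / P.1) e ≤
        (P.1 : ℝ) ^ j * (P.1 * (aeval θ e / 2)) := by
      rw [pow_succ, mul_assoc]
      exact mul_le_mul_of_nonneg_left (mul_le_mul_of_nonneg_left h5 hx0.le) (by linarith)
    have h9 : C * ν ^ 2 + C * |ν| ≤ (C * ν ^ 2 + C * |ν|) * (P.1 : ℝ) ^ j :=
      le_mul_of_one_le_right (by positivity) hxj
    have h10 : 0 ≤ (P.1 : ℝ) ^ j * (C * ν ^ 2 + C * |ν| + C + P.1 * (aeval θ e / 2)) := by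
      have := le_abs_self (γ P)
      nlinarith
    have h11 : 0 ≤ C * ν ^ 2 + C * |ν| + C + P.1 * (aeval θ e / 2) :=
      nonneg_of_mul_nonneg_right h10 (by linarith)
    rw [hK, div_lt_iff₀ (by linarith)] at hxK
    linarith
  · -- lower bound
    obtain ⟨ε₂, hε₂, -, h2⟩ := qnear e (θ := θ) (v := (aeval θ e) / 2) (by linarith)
    set K : ℝ := 4 * (C + C ^ 2 / (4 * c)) / (aeval θ e) with hK
    refine ⟨aeval θ e / 4, min ε₁ ε₂, by linarith, lt_min hε₁ hε₂, max X₁ ⌈K⌉, fun P hP => ?_⟩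
    have hX1 : 1 ≤ max X₁ ⌈K⌉ := hX₁.trans (le_max_left _ _)
    have hP1 : P ∈ Near θ ε₁ X₁ := near_sub' (min_le_left _ _) (le_max_left _ _) (by omega) hP
    have hP2 := (near_t hX1 hP).2.trans (min_le_right ε₁ ε₂)
    have hx1 := (near_t hX1 hP).1
    have hxK : K ≤ P.1 := by
      have h3 : ⌈K⌉ ≤ P.1 := (le_max_right _ _).trans hP.1
      have h4 : ((⌈K⌉ : ℤ) : ℝ) ≤ P.1 := by exact_mod_cast h3
      exact (Int.le_ceil K).trans h4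
    obtain ⟨hFP, hα1, hα2, hβ, hγ⟩ := hF P hP1
    rw [hFP]
    set N := NN b a n₁ n₂ 0 (P.1 : ℝ) (P.2 : ℝ) with hN
    have hx0 : (0 : ℝ) < P.1 := by linarith
    have hxn : (0 : ℝ) < (P.1 : ℝ) ^ n := pow_pos hx0 n
    have hxj : (1 : ℝ) ≤ (P.1 : ℝ) ^ j := one_le_pow₀ hx1
    have hC0 : 0 ≤ C := hc.le.trans (hα1.trans hα2)
    have h5 := h2 _ hP2
    have h6 : c * N ^ 2 ≤ α P * N ^ 2 := mul_le_mul_of_nonneg_right hα1 (sq_nonneg _)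
    have h7 : -(C * |N|) ≤ β P * N := by
      have : |β P * N| ≤ C * |N| := by
        rw [abs_mul]
        exact mul_le_mul_of_nonneg_right hβ (abs_nonneg _)
      exact (abs_le.1 this).1
    have h8 : (P.1 : ℝ) ^ j * (P.1 * (aeval θ e / 2)) ≤
        (P.1 : ℝ) ^ (j + 1) * aeval ((P.2 : ℝ) / P.1) e := by
      rw [pow_succ, mul_assoc]
      exact mul_le_mul_of_nonneg_left (mul_le_mul_of_nonneg_left h5 hx0.le) (by linarith)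
    have h9 : C ^ 2 / (4 * c) ≤ C ^ 2 / (4 * c) * (P.1 : ℝ) ^ j :=
      le_mul_of_one_le_right (by positivity) hxj
    have h10 := qc_low (C := C) (N := N) hc
    have h11 : (P.1 : ℝ) ^ j * (P.1 * (aeval θ e / 4)) ≤ α P * N ^ 2 + β P * N +
        (P.1 : ℝ) ^ (j + 1) * aeval ((P.2 : ℝ) / P.1) e + γ P := by
      have h12 := (abs_le.1 hγ).1
      have h13 : 4 * (C + C ^ 2 / (4 * c)) ≤ P.1 * aeval θ e := by
        rw [hK, div_le_iff₀ hpos'] at hxK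
        exact hxK
      have h14 : (P.1 : ℝ) ^ j * (C + C ^ 2 / (4 * c)) ≤ (P.1 : ℝ) ^ j * (P.1 * aeval θ e / 4) :=
        mul_le_mul_of_nonneg_left (by linarith) (by linarith)
      nlinarith
    calc aeval θ e / 4 * (P.1 : ℝ) ^ 3 ≤ aeval θ e / 4 * (P.1 : ℝ) ^ (n + (j + 1)) :=
          mul_le_mul_of_nonneg_left (pow_le_pow_right₀ hx1 hnj) (by linarith)
      _ = (P.1 : ℝ) ^ n * ((P.1 : ℝ) ^ j * (P.1 * (aeval θ e / 4))) := by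
          rw [pow_add, pow_succ]
          ring
      _ ≤ _ := mul_le_mul_of_nonneg_left h11 hxn.le

end Pool.Agent.Lib.MP_ff4e96_coG
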