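import Pool.Agent.Lib.MP_ff4e96_coG.Irr1

/-!
# MP_ff4e96_co: quadratic irrational directions, double zero of the leading form

`irr_low`: near a quadratic irrational double zero of the leading form either `F ≥ c x^3` or
`F ≥ x^n (c N^2 - C)` with a quadratic polynomial `N`.
-/

namespace Pool.Agent.Lib.MP_ff4e96_coG

open Filter Topology Polynomial Pool.Agent.Lib.MP_ff4e96_co

theorem red_quad (b a : ℚ) (f : ℚ[X]) : ∃ (q : ℚ[X]) (u v : ℚ),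
    f = (X ^ 2 + C b * X + C a) * q + (C u + C v * X) := by
  have hp : (X ^ 2 + C b * X + C a : ℚ[X]).Monic := by monicity!
  have hd : (X ^ 2 + C b * X + C a : ℚ[X]).natDegree = 2 := by compute_degree!
  have h1 := modByMonic_add_div f (X ^ 2 + C b * X + C a : ℚ[X])
  have h2 : (f %ₘ (X ^ 2 + C b * X + C a : ℚ[X])).natDegree ≤ 1 := by
    have h3 := natDegree_modByMonic_lt f hp (by
      intro h
      rw [h, natDegree_one] at hd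
      omega)
    omega
  obtain ⟨v, u, huv⟩ := exists_eq_X_add_C_of_natDegree_le_one h2
  refine ⟨f /ₘ (X ^ 2 + C b * X + C a : ℚ[X]), u, v, ?_⟩
  rw [huv] at h1
  linear_combination -h1

theorem aeval_quad (b a : ℚ) (t : ℝ) :
    aeval t (X ^ 2 + C b * X + C a : ℚ[X]) = t ^ 2 + b * t + a := by
  simp

theorem dvd_root {θ : ℝ} (hθ : Irrational θ) {b a : ℚ} (hg : θ ^ 2 + b * θ + a = 0) {f : ℚ[X]}
    (hf : aeval θ f = 0) : ∃ q : ℚ[X], f = (X ^ 2 + C b * X + C a) * q := by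
  obtain ⟨q, u, v, h⟩ := red_quad b a f
  have h1 : (u : ℝ) + v * θ = 0 := by
    have h2 : aeval θ f = aeval θ ((X ^ 2 + C b * X + C a) * q + (C u + C v * X)) :=
      congrArg (fun g : ℚ[X] => (aeval θ g : ℝ)) h
    rw [hf, map_add, map_mul, aeval_quad, hg, map_add, map_mul, aeval_C, aeval_C, aeval_X,
      eq_ratCast, eq_ratCast] at h2
    linarith
  obtain ⟨hu, hv⟩ := irr_lin hθ h1
  refine ⟨q, ?_⟩
  rw [h, hu, hv]
  simp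

theorem NN_t (b a n₁ n₂ : ℚ) {x : ℝ} (hx : x ≠ 0) (y : ℝ) : NN b a n₁ n₂ 0 x y =
    x ^ 2 * ((y / x) ^ 2 + b * (y / x) + a) + x * (n₁ + n₂ * (y / x)) := by
  unfold NN
  push_cast
  field_simp
  ring

private theorem q_id1 {x p ℓ h f₃ f₂ f₁ ρ N : ℝ} (hN : N = x ^ 2 * p + x * ℓ) (hℓ : ℓ = 0) :
    x ^ 4 * (p ^ 2 * h) + x ^ 3 * f₃ + x ^ 2 * f₂ + x * f₁ + ρ =
      h * N ^ 2 + 0 * N + x ^ 3 * f₃ + (x ^ 2 * f₂ + x * f₁ + ρ) := by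
  subst hN
  subst hℓ
  ring

private theorem q_id2 {x p ℓ h h₁ h₂ f₃ f₂ f₁ e ρ N : ℝ} (hx : x ≠ 0)
    (hN : N = x ^ 2 * p + x * ℓ)
    (h3 : f₃ = p * h₁) (hh : h₁ - 2 * h * ℓ = p * h₂) (he : e = f₂ - h * ℓ ^ 2) :
    x ^ 4 * (p ^ 2 * h) + x ^ 3 * f₃ + x ^ 2 * f₂ + x * f₁ + ρ =
      (h + h₂ / x) * N ^ 2 + (-2 * ℓ * h₂) * N + x ^ 2 * e + (x * (f₁ + ℓ ^ 2 * h₂) + ρ) := by
  have h1 : h₁ = 2 * h * ℓ + p * h₂ := by linear_combination hh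
  subst hN
  subst h3
  subst he
  subst h1
  field_simp
  ring

private theorem q_id3 {x p ℓ h h₁ h₂ h₃ f₃ f₂ f₁ e b₀ ρ N : ℝ} (hx : x ≠ 0)
    (hN : N = x ^ 2 * p + x * ℓ)
    (h3 : f₃ = p * h₁) (hh : h₁ - 2 * h * ℓ = p * h₂) (he : e = f₂ - h * ℓ ^ 2)
    (he' : e = p * h₃) (hb : b₀ = f₁ + ℓ ^ 2 * h₂ - ℓ * h₃) :
    x ^ 4 * (p ^ 2 * h) + x ^ 3 * f₃ + x ^ 2 * f₂ + x * f₁ + ρ =
      (h + h₂ / x) * N ^ 2 + (h₃ - 2 * ℓ * h₂) * N + x ^ 1 * b₀ + ρ := by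
  rw [q_id2 (f₁ := f₁) (ρ := ρ) hx hN h3 hh he, he']
  subst hN
  subst hb
  ring

private theorem q_low {c C N : ℝ} (hc : 0 < c) :
    c / 2 * N ^ 2 - C ^ 2 / (2 * c) ≤ c * N ^ 2 - C * |N| := by
  have h1 : 0 ≤ (c * |N| - C) ^ 2 := sq_nonneg _
  have h2 : |N| ^ 2 = N ^ 2 := sq_abs N
  have h3 : c * N ^ 2 - C * |N| - (c / 2 * N ^ 2 - C ^ 2 / (2 * c)) =
      (c * |N| - C) ^ 2 / (2 * c) := by
    rw [← h2]
    field_simp
    ring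
  have h4 : 0 ≤ (c * |N| - C) ^ 2 / (2 * c) := by positivity
  linarith

theorem irr_low {θ : ℝ} (hθ : Irrational θ) {b a : ℚ} (hg : θ ^ 2 + b * θ + a = 0)
    {h f₃ f₂ f₁ : ℚ[X]} (hh : 0 < aeval θ h) {n : ℕ} (hn : 2 ≤ n) (F ρ : ℤ × ℤ → ℝ)
    {ε₀ B : ℝ} (hε₀ : 0 < ε₀) {X₀ : ℤ} (hX₀ : 1 ≤ X₀)
    (hF : ∀ P ∈ Near θ ε₀ X₀, F P = (P.1 : ℝ) ^ n * ((P.1 : ℝ) ^ 4 *
      aeval ((P.2 : ℝ) / P.1) ((X ^ 2 + C b * X + C a) ^ 2 * h) +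
      (P.1 : ℝ) ^ 3 * aeval ((P.2 : ℝ) / P.1) f₃ + (P.1 : ℝ) ^ 2 * aeval ((P.2 : ℝ) / P.1) f₂ +
      (P.1 : ℝ) * aeval ((P.2 : ℝ) / P.1) f₁ + ρ P) ∧ |ρ P| ≤ B)
    (hpos : ∀ P ∈ Near θ ε₀ X₀, 0 ≤ F P) : LowC F θ ∨ ∃ n₁ n₂ : ℚ, ∃ c C' ε : ℝ, 0 < c ∧
      0 ≤ C' ∧ 0 < ε ∧ ∃ X : ℤ, 1 ≤ X ∧ ∀ P ∈ Near θ ε X,
        (P.1 : ℝ) ^ n * (c * NN b a n₁ n₂ 0 P.1 P.2 ^ 2 - C') ≤ F P := by
  obtain ⟨εh, hεh, hεh1, hh2⟩ := qnear h (θ := θ) (v := aeval θ h / 2) (by linarith)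
  set c : ℝ := aeval θ h / 4 with hc
  have hc0 : 0 < c := by positivity
  obtain ⟨Ch, hCh0, hCh⟩ := qbound h θ
  obtain ⟨C2, hC20, hC2⟩ := qbound f₂ θ
  obtain ⟨C1, hC10, hC1⟩ := qbound f₁ θ
  have hδ0 : 0 < min ε₀ εh := lt_min hε₀ hεh
  by_cases hf₃ : aeval θ f₃ = 0
  swap
  · -- case A
    left
    refine quadcase hθ hg 0 0 (n := n) (j := 2) (by omega) F
      (fun P => aeval ((P.2 : ℝ) / P.1) h) (fun _ => 0)
      (fun P => (P.1 : ℝ) ^ 2 * aeval ((P.2 : ℝ) / P.1) f₂ +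
        (P.1 : ℝ) * aeval ((P.2 : ℝ) / P.1) f₁ + ρ P) f₃ hf₃ (c := c) (C := Ch + C2 + C1 + |B|)
        (ε₁ := min ε₀ εh) hc0 hδ0 hX₀ ?_ ?_
    · intro P hP
      have hP0 : P ∈ Near θ ε₀ X₀ := near_sub' (min_le_left _ _) le_rfl (by omega) hP
      obtain ⟨hx1, ht⟩ := near_t hX₀ hP
      have ht1 : |(P.2 : ℝ) / P.1 - θ| ≤ 1 := (ht.trans (min_le_right _ _)).trans hεh1
      obtain ⟨hFP, hρ⟩ := hF P hP0
      have hx0 : (0 : ℝ) < P.1 := by linarith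
      have hN := NN_t b a 0 0 hx0.ne' (P.2 : ℝ)
      have hB := hρ.trans (le_abs_self B)
      refine ⟨?_, ?_, ?_, ?_, ?_⟩
      · rw [hFP, map_mul, map_pow, aeval_quad]
        congr 1
        exact q_id1 hN (by simp)
      · have := hh2 _ (ht.trans (min_le_right _ _))
        rw [hc]
        linarith
      · have := le_abs_self (aeval ((P.2 : ℝ) / P.1) h)
        have := hCh _ ht1
        have := abs_nonneg B
        linarith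
      · rw [abs_zero]
        positivity
      · have hx2 : (1 : ℝ) ≤ (P.1 : ℝ) ^ 2 := one_le_pow₀ hx1
        have h1 : |(P.1 : ℝ) ^ 2 * aeval ((P.2 : ℝ) / P.1) f₂| ≤ C2 * (P.1 : ℝ) ^ 2 := by
          rw [abs_mul, abs_of_nonneg (by positivity : (0 : ℝ) ≤ (P.1 : ℝ) ^ 2), mul_comm]
          exact mul_le_mul_of_nonneg_right (hC2 _ ht1) (by positivity)
        have h2 : |(P.1 : ℝ) * aeval ((P.2 : ℝ) / P.1) f₁| ≤ C1 * (P.1 : ℝ) ^ 2 := by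
          rw [abs_mul, abs_of_pos hx0, mul_comm]
          calc |aeval ((P.2 : ℝ) / P.1) f₁| * (P.1 : ℝ) ≤ C1 * P.1 :=
                mul_le_mul_of_nonneg_right (hC1 _ ht1) hx0.le
            _ ≤ C1 * (P.1 : ℝ) ^ 2 := mul_le_mul_of_nonneg_left (by nlinarith) hC10
        have h3 : |ρ P| ≤ |B| * (P.1 : ℝ) ^ 2 :=
          hB.trans (le_mul_of_one_le_right (abs_nonneg _) hx2)
        have h4 := abs_add_le ((P.1 : ℝ) ^ 2 * aeval ((P.2 : ℝ) / P.1) f₂ +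
          (P.1 : ℝ) * aeval ((P.2 : ℝ) / P.1) f₁) (ρ P)
        have h5 := abs_add_le ((P.1 : ℝ) ^ 2 * aeval ((P.2 : ℝ) / P.1) f₂)
          ((P.1 : ℝ) * aeval ((P.2 : ℝ) / P.1) f₁)
        have h6 : 0 ≤ Ch * (P.1 : ℝ) ^ 2 := by positivity
        linarith
    · intro P hP
      exact hpos P (near_sub' (min_le_left _ _) le_rfl (by omega) hP)
  -- `f₃ = p h₁`
  obtain ⟨h₁, hh₁⟩ := dvd_root hθ hg hf₃
  obtain ⟨q₁, u₁, v₁, hr₁⟩ := red_quad b a h₁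
  obtain ⟨q₀, u₀, v₀, hr₀⟩ := red_quad b a h
  have e1 : aeval θ h₁ = u₁ + v₁ * θ := by
    rw [hr₁, map_add, map_mul, aeval_quad, hg, map_add, map_mul, aeval_C, aeval_C, aeval_X,
      eq_ratCast, eq_ratCast]
    ring
  have e0 : aeval θ h = u₀ + v₀ * θ := by
    rw [hr₀, map_add, map_mul, aeval_quad, hg, map_add, map_mul, aeval_C, aeval_C, aeval_X,
      eq_ratCast, eq_ratCast]
    ring
  obtain ⟨m₁, m₂, hm⟩ := quot_mem hθ hg u₁ v₁ u₀ v₀ (by rw [← e0]; exact hh.ne')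
  obtain ⟨n₁, hn₁⟩ : ∃ n₁ : ℚ, n₁ = m₁ / 2 := ⟨_, rfl⟩
  obtain ⟨n₂, hn₂⟩ : ∃ n₂ : ℚ, n₂ = m₂ / 2 := ⟨_, rfl⟩
  have hℓθ : aeval θ h₁ = 2 * aeval θ h * (n₁ + n₂ * θ) := by
    rw [← e1, ← e0, div_eq_iff hh.ne'] at hm
    rw [hm, hn₁, hn₂]
    push_cast
    ring
  set ℓ : ℚ[X] := C n₁ + C n₂ * X with hℓ
  have hℓt : ∀ t : ℝ, aeval t ℓ = n₁ + n₂ * t := by
    intro t
    rw [hℓ]
    simp
  obtain ⟨h₂, hh₂⟩ := dvd_root hθ hg (f := h₁ - 2 * h * ℓ) (by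
    rw [map_sub, map_mul, map_mul, hℓt, hℓθ, map_ofNat]
    ring)
  obtain ⟨D2, hD20, hD2⟩ := qbound h₂ θ
  obtain ⟨Dℓ, hDℓ0, hDℓ⟩ := qbound (2 * ℓ * h₂) θ
  obtain ⟨Dq, hDq0, hDq⟩ := qbound (f₁ + ℓ ^ 2 * h₂) θ
  -- the common part: `α`
  set X₁ : ℤ := max X₀ ⌈D2 / c⌉ with hX₁
  have hX₁1 : 1 ≤ X₁ := hX₀.trans (le_max_left _ _)
  have hα : ∀ P ∈ Near θ (min ε₀ εh) X₁, c ≤ aeval ((P.2 : ℝ) / P.1) h +
      aeval ((P.2 : ℝ) / P.1) h₂ / P.1 ∧ aeval ((P.2 : ℝ) / P.1) h +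
      aeval ((P.2 : ℝ) / P.1) h₂ / P.1 ≤ Ch + c := by
    intro P hP
    obtain ⟨hx1, ht⟩ := near_t hX₁1 hP
    have ht1 : |(P.2 : ℝ) / P.1 - θ| ≤ 1 := (ht.trans (min_le_right _ _)).trans hεh1
    have hx0 : (0 : ℝ) < P.1 := by linarith
    have hxD : D2 / c ≤ P.1 := by
      have h3 : ⌈D2 / c⌉ ≤ P.1 := (le_max_right _ _).trans hP.1
      have h4 : ((⌈D2 / c⌉ : ℤ) : ℝ) ≤ P.1 := by exact_mod_cast h3
      exact (Int.le_ceil _).trans h4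
    have h5 : |aeval ((P.2 : ℝ) / P.1) h₂ / P.1| ≤ c := by
      rw [abs_div, abs_of_pos hx0, div_le_iff₀ hx0]
      rw [div_le_iff₀ hc0] at hxD
      linarith [hD2 _ ht1]
    have h6 := hh2 _ (ht.trans (min_le_right _ _))
    have h7 := abs_le.1 h5
    have h8 := hCh _ ht1
    have h9 := le_abs_self (aeval ((P.2 : ℝ) / P.1) h)
    constructor
    · rw [hc] at h7 ⊢
      linarith [h7.1]
    · linarith [h7.2]
  have hfact : ∀ P ∈ Near θ (min ε₀ εh) X₁, P ∈ Near θ ε₀ X₀ ∧ (1 : ℝ) ≤ P.1 ∧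
      |(P.2 : ℝ) / P.1 - θ| ≤ 1 := by
    intro P hP
    obtain ⟨hx1, ht⟩ := near_t hX₁1 hP
    exact ⟨near_sub' (min_le_left _ _) (le_max_left _ _) (by omega) hP, hx1,
      (ht.trans (min_le_right _ _)).trans hεh1⟩
  have r1 : ∀ t : ℝ, aeval t f₃ = (t ^ 2 + b * t + a) * aeval t h₁ := by
    intro t
    rw [hh₁, map_mul, aeval_quad]
  have r2 : ∀ t : ℝ, aeval t h₁ - 2 * aeval t h * aeval t ℓ = (t ^ 2 + b * t + a) * aeval t h₂ := by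
    intro t
    have h1 : aeval t (h₁ - 2 * h * ℓ) = aeval t ((X ^ 2 + C b * X + C a) * h₂) :=
      congrArg (fun g : ℚ[X] => (aeval t g : ℝ)) hh₂
    rw [map_sub, map_mul, map_mul, map_mul, aeval_quad, map_ofNat] at h1
    exact h1
  set e : ℚ[X] := f₂ - h * ℓ ^ 2 with he
  have r3 : ∀ t : ℝ, aeval t e = aeval t f₂ - aeval t h * aeval t ℓ ^ 2 := by
    intro t
    rw [he, map_sub, map_mul, map_pow]
  have hNt : ∀ P ∈ Near θ (min ε₀ εh) X₁, NN b a n₁ n₂ 0 (P.1 : ℝ) (P.2 : ℝ) =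
      (P.1 : ℝ) ^ 2 * (((P.2 : ℝ) / P.1) ^ 2 + b * ((P.2 : ℝ) / P.1) + a) +
        (P.1 : ℝ) * aeval ((P.2 : ℝ) / P.1) ℓ := by
    intro P hP
    obtain ⟨-, hx1, -⟩ := hfact P hP
    rw [NN_t b a n₁ n₂ (by linarith) (P.2 : ℝ), hℓt]
  by_cases heθ : aeval θ e = 0
  swap
  · -- case B
    left
    refine quadcase hθ hg n₁ n₂ (n := n) (j := 1) (by omega) F
      (fun P => aeval ((P.2 : ℝ) / P.1) h + aeval ((P.2 : ℝ) / P.1) h₂ / P.1)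
      (fun P => -2 * aeval ((P.2 : ℝ) / P.1) ℓ * aeval ((P.2 : ℝ) / P.1) h₂)
      (fun P => (P.1 : ℝ) * (aeval ((P.2 : ℝ) / P.1) f₁ + aeval ((P.2 : ℝ) / P.1) ℓ ^ 2 *
        aeval ((P.2 : ℝ) / P.1) h₂) + ρ P) e heθ (c := c) (C := Ch + c + Dℓ + Dq + |B|)
        (ε₁ := min ε₀ εh) hc0 hδ0 hX₁1 ?_ ?_
    · intro P hP
      obtain ⟨hP0, hx1, ht1⟩ := hfact P hP
      obtain ⟨hFP, hρ⟩ := hF P hP0
      obtain ⟨hα1, hα2⟩ := hα P hP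
      have hx0 : (0 : ℝ) < P.1 := by linarith
      have hB := hρ.trans (le_abs_self B)
      have hB0 := abs_nonneg B
      refine ⟨?_, hα1, ?_, ?_, ?_⟩
      · rw [hFP, map_mul, map_pow, aeval_quad]
        congr 1
        exact q_id2 hx0.ne' (hNt P hP) (r1 _) (r2 _) (r3 _)
      · linarith
      · have h1 := hDℓ _ ht1
        rw [map_mul, map_mul, map_ofNat] at h1
        have h2 : -2 * aeval ((P.2 : ℝ) / P.1) ℓ * aeval ((P.2 : ℝ) / P.1) h₂ =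
            -(2 * aeval ((P.2 : ℝ) / P.1) ℓ * aeval ((P.2 : ℝ) / P.1) h₂) := by ring
        rw [h2, abs_neg]
        linarith
      · have h1 := hDq _ ht1
        rw [map_add, map_mul, map_pow] at h1
        rw [pow_one]
        have h2 : |(P.1 : ℝ) * (aeval ((P.2 : ℝ) / P.1) f₁ + aeval ((P.2 : ℝ) / P.1) ℓ ^ 2 *
            aeval ((P.2 : ℝ) / P.1) h₂)| ≤ Dq * P.1 := by
          rw [abs_mul, abs_of_pos hx0, mul_comm]
          exact mul_le_mul_of_nonneg_right h1 hx0.le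
        have h3 : |ρ P| ≤ |B| * (P.1 : ℝ) := hB.trans (le_mul_of_one_le_right hB0 hx1)
        refine (abs_add_le _ _).trans ?_
        have h6 : 0 ≤ (Ch + c + Dℓ) * (P.1 : ℝ) := by positivity
        linarith
    · intro P hP
      exact hpos P (hfact P hP).1
  obtain ⟨h₃, hh₃⟩ := dvd_root hθ hg heθ
  have r4 : ∀ t : ℝ, aeval t e = (t ^ 2 + b * t + a) * aeval t h₃ := by
    intro t
    rw [hh₃, map_mul, aeval_quad]
  set b₀ : ℚ[X] := f₁ + ℓ ^ 2 * h₂ - ℓ * h₃ with hb₀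
  have r5 : ∀ t : ℝ, aeval t b₀ = aeval t f₁ + aeval t ℓ ^ 2 * aeval t h₂ -
      aeval t ℓ * aeval t h₃ := by
    intro t
    rw [hb₀, map_sub, map_add, map_mul, map_mul, map_pow]
  obtain ⟨Dm, hDm0, hDm⟩ := qbound (h₃ - 2 * ℓ * h₂) θ
  have hDm' : ∀ t : ℝ, |t - θ| ≤ 1 → |aeval t h₃ - 2 * aeval t ℓ * aeval t h₂| ≤ Dm := by
    intro t ht
    have h1 := hDm t ht
    rw [map_sub, map_mul, map_mul, map_ofNat] at h1
    exact h1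
  by_cases hbθ : aeval θ b₀ = 0
  swap
  · -- case C
    left
    refine quadcase hθ hg n₁ n₂ (n := n) (j := 0) (by omega) F
      (fun P => aeval ((P.2 : ℝ) / P.1) h + aeval ((P.2 : ℝ) / P.1) h₂ / P.1)
      (fun P => aeval ((P.2 : ℝ) / P.1) h₃ -
        2 * aeval ((P.2 : ℝ) / P.1) ℓ * aeval ((P.2 : ℝ) / P.1) h₂)
      ρ b₀ hbθ (c := c) (C := Ch + c + Dm + |B|)
        (ε₁ := min ε₀ εh) hc0 hδ0 hX₁1 ?_ ?_
    · intro P hP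
      obtain ⟨hP0, hx1, ht1⟩ := hfact P hP
      obtain ⟨hFP, hρ⟩ := hF P hP0
      obtain ⟨hα1, hα2⟩ := hα P hP
      have hx0 : (0 : ℝ) < P.1 := by linarith
      have hB := hρ.trans (le_abs_self B)
      have hB0 := abs_nonneg B
      refine ⟨?_, hα1, ?_, ?_, ?_⟩
      · rw [hFP, map_mul, map_pow, aeval_quad]
        congr 1
        exact q_id3 hx0.ne' (hNt P hP) (r1 _) (r2 _) (r3 _) (r4 _) (r5 _)
      · linarith
      · linarith [hDm' _ ht1]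
      · rw [pow_zero, mul_one]
        linarith
    · intro P hP
      exact hpos P (hfact P hP).1
  -- case D
  right
  obtain ⟨b₁, hb₁⟩ := dvd_root hθ hg hbθ
  have r6 : ∀ t : ℝ, aeval t b₀ = (t ^ 2 + b * t + a) * aeval t b₁ := by
    intro t
    rw [hb₁, map_mul, aeval_quad]
  obtain ⟨Db, hDb0, hDb⟩ := qbound b₁ θ
  obtain ⟨Dk, hDk0, hDk⟩ := qbound (ℓ * b₁) θ
  refine ⟨n₁, n₂, c / 2, (Dm + Db) ^ 2 / (2 * c) + (Dk + |B|), min ε₀ εh, by positivity,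
    by positivity, hδ0, X₁, hX₁1, fun P hP => ?_⟩
  obtain ⟨hP0, hx1, ht1⟩ := hfact P hP
  obtain ⟨hFP, hρ⟩ := hF P hP0
  obtain ⟨hα1, hα2⟩ := hα P hP
  have hx0 : (0 : ℝ) < P.1 := by linarith
  have hB := hρ.trans (le_abs_self B)
  have hxn : (0 : ℝ) < (P.1 : ℝ) ^ n := pow_pos hx0 n
  rw [hFP, map_mul, map_pow, aeval_quad,
    q_id3 hx0.ne' (hNt P hP) (r1 _) (r2 _) (r3 _) (r4 _) (r5 _)]
  refine mul_le_mul_of_nonneg_left ?_ hxn.le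
  set N := NN b a n₁ n₂ 0 (P.1 : ℝ) (P.2 : ℝ) with hN
  set t := (P.2 : ℝ) / P.1 with ht
  have h1 : (P.1 : ℝ) ^ 1 * aeval t b₀ = aeval t b₁ / P.1 * N - aeval t (ℓ * b₁) := by
    have h0 : N = (P.1 : ℝ) ^ 2 * (t ^ 2 + b * t + a) + (P.1 : ℝ) * aeval t ℓ := hNt P hP
    rw [r6, h0, map_mul]
    field_simp
    ring
  rw [h1]
  have h2 : |aeval t b₁ / P.1| ≤ Db := by
    rw [abs_div, abs_of_pos hx0, div_le_iff₀ hx0]
    exact (hDb _ ht1).trans (le_mul_of_one_le_right hDb0 hx1)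
  have h3 : |(aeval t h₃ - 2 * aeval t ℓ * aeval t h₂ + aeval t b₁ / P.1) * N| ≤
      (Dm + Db) * |N| := by
    rw [abs_mul]
    exact mul_le_mul_of_nonneg_right ((abs_add_le _ _).trans (add_le_add (hDm' _ ht1) h2))
      (abs_nonneg _)
  have h4 := (abs_le.1 h3).1
  have h5 := q_low (c := c) (C := Dm + Db) (N := N) hc0
  have h6 := (abs_le.1 (hDk _ ht1)).2
  have h7 := (abs_le.1 hB).1
  have h8 : c * N ^ 2 ≤ (aeval t h + aeval t h₂ / P.1) * N ^ 2 :=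
    mul_le_mul_of_nonneg_right hα1 (sq_nonneg _)
  nlinarith

end Pool.Agent.Lib.MP_ff4e96_coG
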