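import Pool.Agent.Lib.MP_ff4e96_coG.Irr2
import Pool.Agent.Lib.MP_ff4e96_coG.Conic
import Pool.Agent.Lib.MP_ff4e96_co.Pat6l

/-!
# MP_ff4e96_co: quadratic irrational directions, density zero

`irr_comb`: if `F ≥ x^n (c N^2 - C)` near a quadratic irrational direction then the values near this direction have
density zero.
-/

namespace Pool.Agent.Lib.MP_ff4e96_coG

open Filter Topology Polynomial Pool.Agent.Lib.MP_ff4e96_co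

theorem FF_map (F' : MvPolynomial (Fin 2) ℚ) (P : ℤ × ℤ) :
    FF (MvPolynomial.map (algebraMap ℚ ℝ) F') P =
      MvPolynomial.eval ![(P.1 : ℝ), (P.2 : ℝ)] (MvPolynomial.map (algebraMap ℚ ℝ) F') := rfl

theorem conic_low (F' : MvPolynomial (Fin 2) ℚ) {θ : ℝ} (hθ : Irrational θ) {b a : ℚ}
    (n₁ n₂ ν : ℚ) {ε W : ℝ} {X₁ : ℤ} (hX₁ : 1 ≤ X₁)
    (hW : ∀ P ∈ Near θ ε X₁, NN b a n₁ n₂ 0 (P.1 : ℝ) (P.2 : ℝ) = ν →
      |(P.2 : ℝ) - θ * P.1| ≤ W)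
    (hinj : Set.InjOn (FF (MvPolynomial.map (algebraMap ℚ ℝ) F')) (Near θ ε X₁))
    (hpos : ∀ P ∈ Near θ ε X₁, 0 ≤ FF (MvPolynomial.map (algebraMap ℚ ℝ) F') P) :
    ∃ c : ℝ, 0 < c ∧ ∃ X : ℤ, ∀ P ∈ Near θ ε X, NN b a n₁ n₂ 0 (P.1 : ℝ) (P.2 : ℝ) = ν →
      c * P.1 ≤ FF (MvPolynomial.map (algebraMap ℚ ℝ) F') P := by
  obtain ⟨A, B, hAB⟩ := conic_repr F' b a n₁ n₂ ν
  by_cases hc : B = 0 ∧ A.natDegree = 0
  · obtain ⟨hB, hA⟩ := hc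
    obtain ⟨κ, hκ⟩ := natDegree_eq_zero.1 hA
    by_cases hex : ∃ P ∈ Near θ ε X₁, NN b a n₁ n₂ 0 (P.1 : ℝ) (P.2 : ℝ) = ν
    · obtain ⟨P₀, hP₀, hν₀⟩ := hex
      refine ⟨1, one_pos, max X₁ (P₀.1 + 1), fun P hP hν => ?_⟩
      exfalso
      have hP1 : P ∈ Near θ ε X₁ := near_sub' le_rfl (le_max_left _ _)
        ((by omega : (0 : ℤ) ≤ X₁).trans (le_max_left _ _)) hP
      have h1 := hAB (P.1 : ℝ) (P.2 : ℝ) hν
      have h2 := hAB (P₀.1 : ℝ) (P₀.2 : ℝ) hν₀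
      rw [hB, ← hκ, map_zero, mul_zero, add_zero, aeval_C] at h1 h2
      have h3 : P = P₀ := hinj hP1 hP₀ (by rw [FF_map, FF_map, h1, h2])
      have h4 : P₀.1 + 1 ≤ P.1 := (le_max_right _ _).trans hP.1
      rw [h3] at h4
      omega
    · exact ⟨1, one_pos, X₁, fun P hP hν => absurd ⟨P, hP, hν⟩ hex⟩
  · obtain ⟨c, x₀, hc0, h1⟩ := conic_growth hθ A B hc W
    refine ⟨c, hc0, max X₁ ⌈x₀⌉, fun P hP hν => ?_⟩
    have hP1 : P ∈ Near θ ε X₁ := near_sub' le_rfl (le_max_left _ _)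
        ((by omega : (0 : ℤ) ≤ X₁).trans (le_max_left _ _)) hP
    have h2 : x₀ ≤ P.1 := by
      have h3 : ⌈x₀⌉ ≤ P.1 := (le_max_right _ _).trans hP.1
      exact (Int.le_ceil _).trans (by exact_mod_cast h3)
    have h3 := h1 _ _ h2 (hW P hP1 hν)
    rw [← hAB _ _ hν, ← FF_map F' P, abs_of_nonneg (hpos P hP1)] at h3
    exact h3

theorem min_pos_finset (s : Finset ℤ) (c : ℤ → ℝ) (hc : ∀ j, 0 < c j) :
    ∃ c₀ : ℝ, 0 < c₀ ∧ ∀ j ∈ s, c₀ ≤ c j := by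
  classical
  induction s using Finset.induction_on with
  | empty => exact ⟨1, one_pos, fun j hj => absurd hj (Finset.notMem_empty _)⟩
  | insert i s _ ih =>
    obtain ⟨c₀, h0, h1⟩ := ih
    refine ⟨min c₀ (c i), lt_min h0 (hc i), fun j hj => ?_⟩
    rcases Finset.mem_insert.1 hj with h | h
    · rw [h]
      exact min_le_right _ _
    · exact (min_le_left _ _).trans (h1 j h)

theorem irr_comb (F' : MvPolynomial (Fin 2) ℚ) {θ : ℝ} (hθ : Irrational θ) {b a : ℚ}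
    (hg : θ ^ 2 + b * θ + a = 0) (n₁ n₂ : ℚ) {n : ℕ} (hn : 2 ≤ n) {c C' ε : ℝ} (hc : 0 < c)
    (hC' : 0 ≤ C') (hε : 0 < ε) {X : ℤ} (hX : 1 ≤ X)
    (hlow : ∀ P ∈ Near θ ε X, (P.1 : ℝ) ^ n * (c * NN b a n₁ n₂ 0 P.1 P.2 ^ 2 - C') ≤
      FF (MvPolynomial.map (algebraMap ℚ ℝ) F') P)
    (hinj : Set.InjOn (FF (MvPolynomial.map (algebraMap ℚ ℝ) F')) (Near θ ε X))
    (hpos : ∀ P ∈ Near θ ε X, 0 ≤ FF (MvPolynomial.map (algebraMap ℚ ℝ) F') P) :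
    ∃ ε' : ℝ, 0 < ε' ∧ ∃ X' : ℤ,
      Null (vals (FF (MvPolynomial.map (algebraMap ℚ ℝ) F')) (Near θ ε' X')) := by
  classical
  obtain ⟨ε₁, c₁, C₁, σ, hε₁, hc₁, X₁, hX₁, hNl⟩ := NN_lower hθ hg n₁ n₂ 0
  obtain ⟨E, hE, hEd⟩ := NN_den b a n₁ n₂
  set ε₂ : ℝ := min ε ε₁ with hε₂
  have hε₂0 : 0 < ε₂ := lt_min hε hε₁
  set X₂ : ℤ := max X X₁ with hX₂
  have hX₂1 : 1 ≤ X₂ := hX.trans (le_max_left _ _)
  have hs1 : Near θ ε₂ X₂ ⊆ Near θ ε X := near_sub' (min_le_left _ _) (le_max_left _ _) (by omega)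
  have hs2 : Near θ ε₂ X₂ ⊆ Near θ ε₁ X₁ := near_sub' (min_le_right _ _) (le_max_right _ _) (by omega)
  have hconic : ∀ j : ℤ, ∃ cj : ℝ, 0 < cj ∧ ∃ Xj : ℤ, ∀ P ∈ Near θ ε₂ Xj,
      NN b a n₁ n₂ 0 (P.1 : ℝ) (P.2 : ℝ) = (((j : ℚ) / (E : ℚ) : ℚ) : ℝ) →
        cj * P.1 ≤ FF (MvPolynomial.map (algebraMap ℚ ℝ) F') P := by
    intro j
    set ν : ℚ := (j : ℚ) / (E : ℚ) with hν
    refine conic_low F' hθ n₁ n₂ ν (W := |σ| + (|(ν : ℝ)| + |C₁|) / c₁) hX₂1 ?_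
      (hinj.mono hs1) (fun P hP => hpos P (hs1 hP))
    intro P hP hPν
    obtain ⟨hx1, -⟩ := near_t hX₂1 hP
    have h4 := hNl P (hs2 hP)
    rw [hPν] at h4
    have h5 : |(P.2 : ℝ) - θ * P.1 - σ| ≤ (|(ν : ℝ)| + |C₁|) / c₁ := by
      rw [le_div_iff₀ hc₁]
      have h7 : |(P.2 : ℝ) - θ * P.1 - σ| * c₁ ≤ c₁ * P.1 * |(P.2 : ℝ) - θ * P.1 - σ| := by
        have : 0 ≤ c₁ * |(P.2 : ℝ) - θ * P.1 - σ| := by positivity
        nlinarith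
      have h8 := le_abs_self C₁
      linarith
    calc |(P.2 : ℝ) - θ * P.1| = |σ + ((P.2 : ℝ) - θ * P.1 - σ)| := by ring_nf
      _ ≤ |σ| + |(P.2 : ℝ) - θ * P.1 - σ| := abs_add_le _ _
      _ ≤ _ := by linarith
  choose cj hcj0 Xj hXj using hconic
  -- the bound `R`
  set R : ℝ := max 1 (2 * C' / c) with hR
  have hR1 : 1 ≤ R := le_max_left _ _
  have hRC : C' ≤ c / 2 * R := by
    have h1 : 2 * C' / c ≤ R := le_max_right _ _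
    rw [div_le_iff₀ hc] at h1
    linarith
  set M : ℤ := ⌈(E : ℝ) * R⌉ with hM
  obtain ⟨c₀, hc₀, hmin⟩ := min_pos_finset (Finset.Icc (-M) M) cj hcj0
  obtain ⟨X₃, hX₃⟩ := ((Finset.Icc (-M) M).image Xj).exists_le
  set X₄ : ℤ := max X₂ X₃ with hX₄
  have hX₄1 : 1 ≤ X₄ := hX₂1.trans (le_max_left _ _)
  refine gap_null hθ hg n₁ n₂ 0 (FF (MvPolynomial.map (algebraMap ℚ ℝ) F'))
    (c₀ := min (c / 4) (c₀ / (R ^ 2 + 1))) (lt_min (by positivity) (by positivity)) hε₂0 (X := X₄) ?_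
  intro P hP
  obtain ⟨hx1, -⟩ := near_t hX₄1 hP
  have hP2 : P ∈ Near θ ε₂ X₂ := near_sub' le_rfl (le_max_left _ _) (by omega) hP
  have hx0 : (0 : ℝ) < P.1 := by linarith
  obtain ⟨j, hj⟩ := hEd P.1 P.2
  rcases le_or_gt |NN b a n₁ n₂ 0 (P.1 : ℝ) (P.2 : ℝ)| R with h1 | h1
  · -- on the conic
    have hE' : (0 : ℝ) < E := by exact_mod_cast hE
    have hjM : j ∈ Finset.Icc (-M) M := by
      rw [hj] at h1
      push_cast at h1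
      rw [abs_div, abs_of_pos hE', div_le_iff₀ hE'] at h1
      have h2 : |(j : ℝ)| ≤ M := by
        rw [hM]
        refine le_trans ?_ (Int.le_ceil _)
        linarith
      have h3 : |j| ≤ M := by exact_mod_cast h2
      exact Finset.mem_Icc.2 (abs_le.1 h3)
    have hPj : P ∈ Near θ ε₂ (Xj j) := by
      refine near_sub' le_rfl ?_ (by omega : (0 : ℤ) ≤ X₄) hP
      exact (hX₃ _ (Finset.mem_image_of_mem Xj hjM)).trans (le_max_right _ _)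
    have h2 := hXj j P hPj hj
    have h3 : c₀ * P.1 ≤ FF (MvPolynomial.map (algebraMap ℚ ℝ) F') P :=
      (mul_le_mul_of_nonneg_right (hmin j hjM) hx0.le).trans h2
    have h4 : NN b a n₁ n₂ 0 (P.1 : ℝ) (P.2 : ℝ) ^ 2 ≤ R ^ 2 := by
      rw [← sq_abs]
      exact pow_le_pow_left₀ (abs_nonneg _) h1 2
    have h5 : NN b a n₁ n₂ 0 (P.1 : ℝ) (P.2 : ℝ) ^ 2 + P.1 ≤ (R ^ 2 + 1) * P.1 := by
      have : R ^ 2 ≤ R ^ 2 * P.1 := le_mul_of_one_le_right (sq_nonneg _) hx1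
      linarith
    have h6 : 0 ≤ NN b a n₁ n₂ 0 (P.1 : ℝ) (P.2 : ℝ) ^ 2 + P.1 := by positivity
    calc min (c / 4) (c₀ / (R ^ 2 + 1)) * (NN b a n₁ n₂ 0 (P.1 : ℝ) (P.2 : ℝ) ^ 2 + P.1)
        ≤ c₀ / (R ^ 2 + 1) * (NN b a n₁ n₂ 0 (P.1 : ℝ) (P.2 : ℝ) ^ 2 + P.1) :=
          mul_le_mul_of_nonneg_right (min_le_right _ _) h6
      _ ≤ c₀ / (R ^ 2 + 1) * ((R ^ 2 + 1) * P.1) := mul_le_mul_of_nonneg_left h5 (by positivity)
      _ = c₀ * P.1 := by field_simp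
      _ ≤ _ := h3
  · -- far from the conics
    set N := NN b a n₁ n₂ 0 (P.1 : ℝ) (P.2 : ℝ) with hN
    have h2 := hlow P (hs1 hP2)
    have h3 : R ≤ N ^ 2 := by
      have h4 : R ^ 2 ≤ |N| ^ 2 := pow_le_pow_left₀ (by linarith) h1.le 2
      rw [sq_abs] at h4
      have h5 : R ≤ R ^ 2 := by nlinarith
      linarith
    have h4 : c / 2 * N ^ 2 ≤ c * N ^ 2 - C' := by
      have : c / 2 * R ≤ c / 2 * N ^ 2 := mul_le_mul_of_nonneg_left h3 (by positivity)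
      linarith
    have hN1 : 1 ≤ N ^ 2 := hR1.trans h3
    have h5 : (P.1 : ℝ) * N ^ 2 ≤ (P.1 : ℝ) ^ n * N ^ 2 := by
      refine mul_le_mul_of_nonneg_right ?_ (sq_nonneg _)
      calc (P.1 : ℝ) = (P.1 : ℝ) ^ 1 := (pow_one _).symm
        _ ≤ (P.1 : ℝ) ^ n := pow_le_pow_right₀ hx1 (by omega)
    have h6 : N ^ 2 + P.1 ≤ 2 * ((P.1 : ℝ) * N ^ 2) := by nlinarith
    have hxn : (0 : ℝ) < (P.1 : ℝ) ^ n := pow_pos hx0 n
    calc min (c / 4) (c₀ / (R ^ 2 + 1)) * (N ^ 2 + P.1) ≤ c / 4 * (N ^ 2 + P.1) :=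
          mul_le_mul_of_nonneg_right (min_le_left _ _) (by positivity)
      _ ≤ c / 4 * (2 * ((P.1 : ℝ) * N ^ 2)) := mul_le_mul_of_nonneg_left h6 (by positivity)
      _ ≤ c / 4 * (2 * ((P.1 : ℝ) ^ n * N ^ 2)) := by
          refine mul_le_mul_of_nonneg_left ?_ (by positivity)
          linarith
      _ = (P.1 : ℝ) ^ n * (c / 2 * N ^ 2) := by ring
      _ ≤ (P.1 : ℝ) ^ n * (c * N ^ 2 - C') := mul_le_mul_of_nonneg_left h4 hxn.le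
      _ ≤ _ := h2

end Pool.Agent.Lib.MP_ff4e96_coG
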