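import Pool.Agent.Lib.MP_ff4e96_coG.Lead

/-!
# MP_ff4e96_co: rational coefficients, all degrees

`rat_all`: a polynomial with natural values at the lattice points of the sector has rational coefficients. Let
`π : ℝ → ℚ` be a `ℚ`-linear map with `π 1 = 1`; applying `π` to the coefficients does not change the values at the
lattice points of the sector, and a polynomial is determined by these values (`zero_of_coneG`).
-/

namespace Pool.Agent.Lib.MP_ff4e96_coG

open Filter Topology Polynomial Pool.Agent.Lib.MP_ff4e96_co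

theorem zero_of_coneG {G : MvPolynomial (Fin 2) ℝ} {α : ℚ} (hα : 0 < α)
    (h : ∀ P ∈ Cone α, FF G P = 0) : G = 0 := by
  by_contra hG
  rcases Nat.eq_zero_or_pos G.totalDegree with h0 | h1
  · rw [MvPolynomial.totalDegree_eq_zero_iff_eq_C] at h0
    apply hG
    have h2 := h (0, 0) ⟨le_rfl, by simp⟩
    rw [FF, h0, MvPolynomial.eval_C] at h2
    rw [h0, h2, map_zero]
  · apply dh_ne_zero G hG
    apply Polynomial.eq_zero_of_infinite_isRoot
    have hinf : (Set.Ioo (0 : ℚ) α).Infinite := Set.Ioo_infinite hα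
    have hinj : Set.InjOn (fun q : ℚ => (q : ℝ)) (Set.Ioo (0 : ℚ) α) :=
      fun a _ b _ h => Rat.cast_injective h
    refine (hinf.image hinj).mono ?_
    rintro _ ⟨q, hq, rfl⟩
    show (dh G G.totalDegree).eval (q : ℝ) = 0
    have h2 := lead_nonneg_rat h1 (fun P hP => (h P hP).ge) q hq.1.le hq.2.le
    have hneg : (-G).totalDegree = G.totalDegree := MvPolynomial.totalDegree_neg G
    have h3 := lead_nonneg_rat (F := -G) (α := α) (by rw [hneg]; exact h1) (fun P hP => by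
      have h4 := h P hP
      rw [FF] at h4 ⊢
      rw [map_neg, h4, neg_zero]) q hq.1.le hq.2.le
    rw [hneg] at h3
    have h4 : (dh (-G) G.totalDegree).eval (q : ℝ) = -(dh G G.totalDegree).eval (q : ℝ) := by
      rw [eval_dh, eval_dh, map_neg, map_neg]
    rw [h4] at h3
    linarith

theorem rat_all {F : MvPolynomial (Fin 2) ℝ} {α : ℚ} (hα : 0 < α)
    (hN : ∀ P ∈ Cone α, ∃ v : ℕ, FF F P = v) :
    ∃ F' : MvPolynomial (Fin 2) ℚ, MvPolynomial.map (algebraMap ℚ ℝ) F' = F := by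
  obtain ⟨π, hπ⟩ := (Algebra.linearMap ℚ ℝ).exists_leftInverse_of_injective
    (LinearMap.ker_eq_bot.2 (algebraMap ℚ ℝ).injective)
  have hπ1 : ∀ q : ℚ, π (q : ℝ) = q := fun q => by
    have := LinearMap.congr_fun hπ q
    simpa using this
  have hπm : ∀ (r : ℝ) (q : ℚ), π (r * q) = π r * q := by
    intro r q
    have h1 : r * (q : ℝ) = q • r := by
      rw [Rat.smul_def, mul_comm]
    rw [h1, map_smul, smul_eq_mul, mul_comm]
  refine ⟨∑ m ∈ F.support, MvPolynomial.monomial m (π (F.coeff m)), ?_⟩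
  set F' : MvPolynomial (Fin 2) ℚ := ∑ m ∈ F.support, MvPolynomial.monomial m (π (F.coeff m))
    with hF'
  refine sub_eq_zero.1 (zero_of_coneG hα fun P hP => ?_)
  obtain ⟨v, hv⟩ := hN P hP
  have h1 : MvPolynomial.eval ![(P.1 : ℝ), (P.2 : ℝ)] (MvPolynomial.map (algebraMap ℚ ℝ) F') =
      ((MvPolynomial.eval ![(P.1 : ℚ), (P.2 : ℚ)] F' : ℚ) : ℝ) := by
    rw [MvPolynomial.eval_map]
    have h2 : (![(P.1 : ℝ), (P.2 : ℝ)] : Fin 2 → ℝ) =
        fun i => algebraMap ℚ ℝ ((![(P.1 : ℚ), (P.2 : ℚ)] : Fin 2 → ℚ) i) := by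
      funext i
      fin_cases i <;> simp
    rw [h2]
    exact (MvPolynomial.eval₂_comp (algebraMap ℚ ℝ) _ F').symm ▸ rfl
  have h3 : MvPolynomial.eval ![(P.1 : ℚ), (P.2 : ℚ)] F' = π (FF F P) := by
    rw [hF', map_sum, FF, MvPolynomial.eval_eq', map_sum]
    refine Finset.sum_congr rfl fun m _ => ?_
    rw [MvPolynomial.eval_monomial, Fin.prod_univ_two]
    have h4 : (F.coeff m * ((![(P.1 : ℝ), (P.2 : ℝ)] : Fin 2 → ℝ) 0 ^ m 0 *
        (![(P.1 : ℝ), (P.2 : ℝ)] : Fin 2 → ℝ) 1 ^ m 1)) =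
        F.coeff m * (((P.1 : ℚ) ^ m 0 * (P.2 : ℚ) ^ m 1 : ℚ) : ℝ) := by
      push_cast
      simp
    rw [h4, hπm]
    congr 1
    rw [Finsupp.prod_fintype _ _ (fun _ => pow_zero _), Fin.prod_univ_two]
    simp
  rw [FF, map_sub, h1, h3]
  have h5 : π (FF F P) = v := by
    rw [hv]
    have := hπ1 (v : ℚ)
    push_cast at this
    exact this
  rw [h5]
  rw [FF] at hv
  rw [hv]
  push_cast
  ring

end Pool.Agent.Lib.MP_ff4e96_coG
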