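import Pool.Agent.Lib.MP_ff4e96_coG.Irr3
import Pool.Agent.Lib.MP_ff4e96_coG.RatC

/-!
# MP_ff4e96_co: neighbourhood of a quadratic irrational zero of multiplicity at most 3

`loc_irrG`: the values near a quadratic irrational zero of multiplicity at most 3 of the leading form have density
zero (all degrees at least 6).
-/

namespace Pool.Agent.Lib.MP_ff4e96_coG

open Filter Topology Polynomial Pool.Agent.Lib.MP_ff4e96_co

/-- the dehomogenized homogeneous component over the rationals -/
noncomputable def dhQ (F' : MvPolynomial (Fin 2) ℚ) (k : ℕ) : ℚ[X] :=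
  MvPolynomial.aeval ![(1 : ℚ[X]), X] (MvPolynomial.homogeneousComponent k F')

theorem dh_map (F' : MvPolynomial (Fin 2) ℚ) (k : ℕ) :
    dh (MvPolynomial.map (algebraMap ℚ ℝ) F') k = (dhQ F' k).map (algebraMap ℚ ℝ) := by
  have h1 : MvPolynomial.homogeneousComponent k (MvPolynomial.map (algebraMap ℚ ℝ) F') =
      MvPolynomial.map (algebraMap ℚ ℝ) (MvPolynomial.homogeneousComponent k F') := by
    ext d
    rw [MvPolynomial.coeff_homogeneousComponent, MvPolynomial.coeff_map, MvPolynomial.coeff_map,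
      MvPolynomial.coeff_homogeneousComponent]
    split_ifs
    · rfl
    · rw [map_zero]
  rw [dh, dhQ, h1]
  generalize MvPolynomial.homogeneousComponent k F' = G
  induction G using MvPolynomial.induction_on with
  | C q =>
    rw [MvPolynomial.map_C, MvPolynomial.aeval_C, MvPolynomial.aeval_C,
      Polynomial.algebraMap_apply, Polynomial.algebraMap_apply, Polynomial.map_C]
    rfl
  | add p q hp hq => rw [map_add, map_add, map_add, hp, hq, Polynomial.map_add]
  | mul_X p i hp =>
    rw [map_mul, map_mul, map_mul, hp, MvPolynomial.map_X, MvPolynomial.aeval_X,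
      MvPolynomial.aeval_X, Polynomial.map_mul]
    fin_cases i
    · simp
    · simp

theorem eval_dh_map (F' : MvPolynomial (Fin 2) ℚ) (k : ℕ) (t : ℝ) :
    (dh (MvPolynomial.map (algebraMap ℚ ℝ) F') k).eval t = aeval t (dhQ F' k) := by
  rw [dh_map, eval_map_algebraMap]

private theorem no_odd {θ : ℝ} (hθ : Irrational θ) {b a : ℚ} (hg : θ ^ 2 + b * θ + a = 0)
    {k : ℕ} (hk : Odd k) {u : ℚ[X]} (hu : aeval θ u ≠ 0) {δ : ℝ} (hδ : 0 < δ)
    (hnn : ∀ t : ℝ, |t - θ| < δ → 0 ≤ aeval t ((X ^ 2 + C b * X + C a) ^ k * u)) : False := by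
  set w : ℝ → ℝ := fun t => (t + θ + b) ^ k * aeval t u with hw
  have hcont : Continuous w := by
    have := Polynomial.continuous_aeval (R := ℚ) (A := ℝ) u
    fun_prop
  have hne : θ + θ + b ≠ 0 := by
    intro h
    obtain ⟨-, h2⟩ := irr_lin hθ (u := b) (v := 2) (by push_cast; linarith)
    norm_num at h2
  have hwθ : w θ ≠ 0 := mul_ne_zero (pow_ne_zero k hne) hu
  have hval : ∀ t : ℝ, aeval t ((X ^ 2 + C b * X + C a) ^ k * u) = (t - θ) ^ k * w t := by
    intro t
    rw [map_mul, map_pow, aeval_quad, hw]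
    have h1 : t ^ 2 + b * t + a = (t - θ) * (t + θ + b) := by linear_combination hg
    rw [h1, mul_pow]
    ring
  rcases lt_or_gt_of_ne hwθ with h | h
  · have h1 : ∀ᶠ t in 𝓝 θ, w t < 0 := hcont.continuousAt.eventually (gt_mem_nhds h)
    obtain ⟨ε, hε, h2⟩ := Metric.eventually_nhds_iff.1 h1
    set s := min ε δ / 2 with hs
    have hs0 : 0 < s := by have := lt_min hε hδ; positivity
    have h3 := h2 (y := θ + s) (by
      rw [Real.dist_eq, add_sub_cancel_left, abs_of_pos hs0]
      have := min_le_left ε δ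
      linarith)
    have h4 := hnn (θ + s) (by
      rw [add_sub_cancel_left, abs_of_pos hs0]
      have := min_le_right ε δ
      linarith)
    rw [hval, add_sub_cancel_left] at h4
    have h5 : s ^ k * w (θ + s) < 0 := mul_neg_of_pos_of_neg (pow_pos hs0 k) h3
    linarith
  · have h1 : ∀ᶠ t in 𝓝 θ, 0 < w t := hcont.continuousAt.eventually (lt_mem_nhds h)
    obtain ⟨ε, hε, h2⟩ := Metric.eventually_nhds_iff.1 h1
    set s := min ε δ / 2 with hs
    have hs0 : 0 < s := by have := lt_min hε hδ; positivity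
    have h3 := h2 (y := θ - s) (by
      rw [Real.dist_eq, sub_sub_cancel_left, abs_neg, abs_of_pos hs0]
      have := min_le_left ε δ
      linarith)
    have h4 := hnn (θ - s) (by
      rw [sub_sub_cancel_left, abs_neg, abs_of_pos hs0]
      have := min_le_right ε δ
      linarith)
    rw [hval, sub_sub_cancel_left] at h4
    have h5 : (-s) ^ k * w (θ - s) < 0 :=
      mul_neg_of_neg_of_pos (hk.pow_neg (by linarith)) h3
    linarith

theorem mult_two {g : ℚ[X]} (h0 : g ≠ 0) {θ : ℝ} (hθ : Irrational θ) {b a : ℚ}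
    (hg : θ ^ 2 + b * θ + a = 0) (hroot : aeval θ g = 0)
    (hm : (g.map (algebraMap ℚ ℝ)).rootMultiplicity θ ≤ 3) {δ : ℝ} (hδ : 0 < δ)
    (hnn : ∀ t : ℝ, |t - θ| < δ → 0 ≤ aeval t g) :
    ∃ h : ℚ[X], g = (X ^ 2 + C b * X + C a) ^ 2 * h ∧ 0 < aeval θ h := by
  obtain ⟨g₁, hg₁⟩ := dvd_root hθ hg hroot
  by_cases h1 : aeval θ g₁ = 0
  swap
  · exfalso
    refine no_odd hθ hg (k := 1) odd_one h1 hδ fun t ht => ?_
    rw [pow_one, ← hg₁]
    exact hnn t ht
  obtain ⟨g₂, hg₂⟩ := dvd_root hθ hg h1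
  have e2 : g = (X ^ 2 + C b * X + C a) ^ 2 * g₂ := by
    rw [hg₁, hg₂]
    ring
  by_cases h2 : aeval θ g₂ = 0
  · exfalso
    obtain ⟨g₃, hg₃⟩ := dvd_root hθ hg h2
    have e3 : g = (X ^ 2 + C b * X + C a) ^ 3 * g₃ := by
      rw [e2, hg₃]
      ring
    by_cases h3 : aeval θ g₃ = 0
    · obtain ⟨g₄, hg₄⟩ := dvd_root hθ hg h3
      have e4 : g = (X ^ 2 + C b * X + C a) ^ 4 * g₄ := by
        rw [e3, hg₄]
        ring
      have h5 : (X - C θ) ^ 4 ∣ g.map (algebraMap ℚ ℝ) := by
        rw [e4, Polynomial.map_mul, Polynomial.map_pow]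
        refine Dvd.dvd.mul_right (pow_dvd_pow_of_dvd ?_ 4) _
        rw [dvd_iff_isRoot, IsRoot.def, eval_map_algebraMap, aeval_quad, hg]
      have h6 : g.map (algebraMap ℚ ℝ) ≠ 0 := by
        rw [Ne, Polynomial.map_eq_zero]
        exact h0
      have h7 := (le_rootMultiplicity_iff h6).2 h5
      omega
    · refine no_odd hθ hg (k := 3) (by decide) h3 hδ fun t ht => ?_
      rw [← e3]
      exact hnn t ht
  · refine ⟨g₂, e2, ?_⟩
    by_contra h3
    have h4 : aeval θ g₂ < 0 := lt_of_le_of_ne (not_lt.1 h3) h2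
    obtain ⟨ε, hε, -, h5⟩ := qnear (-g₂) (θ := θ) (v := 0) (by
      rw [map_neg]
      linarith)
    -- a point near `θ` where `g` is negative
    have h6 : ∀ᶠ t in 𝓝 θ, aeval t g₂ < 0 :=
      (Polynomial.continuous_aeval g₂).continuousAt.eventually (gt_mem_nhds h4)
    obtain ⟨ε₂, hε₂, h7⟩ := Metric.eventually_nhds_iff.1 h6
    have hsne : θ + θ + b ≠ 0 := by
      intro h
      obtain ⟨-, h2⟩ := irr_lin hθ (u := b) (v := 2) (by push_cast; linarith)
      norm_num at h2
    set s := min (min ε₂ δ) (|θ + θ + b|) / 2 with hs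
    have hab : 0 < |θ + θ + b| := abs_pos.2 hsne
    have hs0 : 0 < s := by have := lt_min (lt_min hε₂ hδ) hab; positivity
    have hs1 : s < ε₂ := by
      have := (min_le_left (min ε₂ δ) (|θ + θ + b|)).trans (min_le_left _ _)
      linarith
    have hs2 : s < δ := by
      have := (min_le_left (min ε₂ δ) (|θ + θ + b|)).trans (min_le_right _ _)
      linarith
    have hs3 : s < |θ + θ + b| := by
      have := min_le_right (min ε₂ δ) (|θ + θ + b|)
      linarith
    have h8 := h7 (y := θ + s) (by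
      rw [Real.dist_eq, add_sub_cancel_left, abs_of_pos hs0]
      exact hs1)
    have h9 := hnn (θ + s) (by
      rw [add_sub_cancel_left, abs_of_pos hs0]
      exact hs2)
    rw [e2, map_mul, map_pow, aeval_quad] at h9
    have h10 : (θ + s) ^ 2 + b * (θ + s) + a = s * (θ + θ + b + s) := by linear_combination hg
    have h11 : θ + θ + b + s ≠ 0 := by
      intro h
      have h12 : |θ + θ + b| = s := by
        have : θ + θ + b = -s := by linarith
        rw [this, abs_neg, abs_of_pos hs0]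
      linarith
    rw [h10] at h9
    have h12 : 0 < (s * (θ + θ + b + s)) ^ 2 := by
      have := mul_ne_zero hs0.ne' h11
      positivity
    have h13 : (s * (θ + θ + b + s)) ^ 2 * aeval (θ + s) g₂ < 0 := mul_neg_of_pos_of_neg h12 h8
    linarith

end Pool.Agent.Lib.MP_ff4e96_coG
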