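import Pool.Agent.Lib.MP_ff4e96_coG.Irr4

/-!
# MP_ff4e96_co: neighbourhood of a quadratic irrational zero of multiplicity at most 3

`loc_irrG`: the values near a quadratic irrational zero of multiplicity at most 3 of the leading form have density
zero (all degrees at least 6).
-/

namespace Pool.Agent.Lib.MP_ff4e96_coG

open Filter Topology Polynomial Pool.Agent.Lib.MP_ff4e96_co

theorem near_cone {α : ℚ} {t ε : ℝ} (h1 : ε ≤ t) (h2 : ε ≤ α - t) {X : ℤ} (hX : 1 ≤ X) :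
    Near t ε X ⊆ Cone α := by
  rintro P ⟨hP1, hP2⟩
  have hx1 : (1 : ℝ) ≤ P.1 := by exact_mod_cast hX.trans hP1
  have h3 := abs_le.1 hP2
  constructor
  · have h4 : (0 : ℝ) ≤ P.2 := by nlinarith [h3.1]
    exact_mod_cast h4
  · have h4 : (P.2 : ℝ) ≤ α * P.1 := by nlinarith [h3.2]
    exact_mod_cast h4

theorem irr_nullG (F' : MvPolynomial (Fin 2) ℚ) {α : ℚ} (hα : 0 < α)
    (hD : 6 ≤ (MvPolynomial.map (algebraMap ℚ ℝ) F').totalDegree)
    (hNI : NI (FF (MvPolynomial.map (algebraMap ℚ ℝ) F')) (Cone α)) {t : ℝ} (h0 : 0 < t)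
    (h1 : t < α) (ht : Irrational t) {b a : ℚ} (hg : t ^ 2 + b * t + a = 0)
    (hroot : (dh (MvPolynomial.map (algebraMap ℚ ℝ) F')
      (MvPolynomial.map (algebraMap ℚ ℝ) F').totalDegree).eval t = 0)
    (hm3 : (dh (MvPolynomial.map (algebraMap ℚ ℝ) F')
      (MvPolynomial.map (algebraMap ℚ ℝ) F').totalDegree).rootMultiplicity t ≤ 3) :
    ∃ ε' : ℝ, 0 < ε' ∧ ∃ X' : ℤ,
      Null (vals (FF (MvPolynomial.map (algebraMap ℚ ℝ) F')) (Near t ε' X')) := by
  set F : MvPolynomial (Fin 2) ℝ := MvPolynomial.map (algebraMap ℚ ℝ) F' with hF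
  obtain ⟨n, hn⟩ : ∃ n, F.totalDegree = n + 4 := ⟨F.totalDegree - 4, by omega⟩
  have hF0 : F ≠ 0 := by
    intro h
    rw [h] at hD
    simp at hD
  have hdh0 := dh_ne_zero F hF0
  set εc : ℝ := min t (α - t) with hεc
  have hεc0 : 0 < εc := lt_min h0 (by linarith)
  have hcone : ∀ X : ℤ, 1 ≤ X → Near t εc X ⊆ Cone α := fun X hX =>
    near_cone (min_le_left _ _) (min_le_right _ _) hX
  have hgQ : dhQ F' F.totalDegree ≠ 0 := by
    intro h
    apply hdh0
    rw [hF, dh_map, ← hF, h, Polynomial.map_zero]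
  have hev : ∀ (k : ℕ) (s : ℝ), (dh F k).eval s = aeval s (dhQ F' k) := fun k s => by
    rw [hF]
    exact eval_dh_map F' k s
  obtain ⟨h, hh, hh0⟩ := mult_two hgQ ht hg (by rw [← hev]; exact hroot)
    (by rw [← dh_map]; exact hm3) hεc0 (fun s hs => by
      rw [← hev]
      have hs' := abs_lt.1 hs
      have e1 : εc ≤ t := min_le_left _ _
      have e2 : εc ≤ α - t := min_le_right _ _
      exact lead_nonneg hα (by omega) hNI s (by linarith [hs'.1]) (by linarith [hs'.2]))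
  obtain ⟨B, hB0, hB⟩ := lead_rest (dh F) n (α : ℝ)
  have key := irr_low ht hg (h := h) (f₃ := dhQ F' (n + 3)) (f₂ := dhQ F' (n + 2))
    (f₁ := dhQ F' (n + 1)) hh0 (n := n) (by omega) (FF F)
    (fun P => (∑ k ∈ Finset.range (n + 1), (P.1 : ℝ) ^ k * (dh F k).eval ((P.2 : ℝ) / P.1)) /
      (P.1 : ℝ) ^ n) (ε₀ := εc) (B := B) hεc0 (X₀ := 1) le_rfl (by
      intro P hP
      obtain ⟨hx1, htt⟩ := near_t le_rfl hP
      have hx0 : (0 : ℝ) < P.1 := by linarith
      have hxn : (0 : ℝ) < (P.1 : ℝ) ^ n := pow_pos hx0 n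
      have hPc := hcone 1 le_rfl hP
      have hr0 : 0 ≤ (P.2 : ℝ) / P.1 := by
        have : (0 : ℝ) ≤ P.2 := by exact_mod_cast hPc.1
        positivity
      have hrα : (P.2 : ℝ) / P.1 ≤ α := by
        rw [div_le_iff₀ hx0]
        exact_mod_cast hPc.2
      constructor
      · show MvPolynomial.eval ![(P.1 : ℝ), (P.2 : ℝ)] F = _
        rw [rep F hx0.ne', hn, Finset.sum_range_succ, Finset.sum_range_succ,
          Finset.sum_range_succ, Finset.sum_range_succ, ← hh, ← hev, ← hev, ← hev, ← hev, hn]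
        generalize (∑ k ∈ Finset.range (n + 1), (P.1 : ℝ) ^ k *
          (dh F k).eval ((P.2 : ℝ) / P.1)) = s₀
        generalize (dh F (n + 4)).eval ((P.2 : ℝ) / P.1) = e₄
        generalize (dh F (n + 3)).eval ((P.2 : ℝ) / P.1) = e₃
        generalize (dh F (n + 2)).eval ((P.2 : ℝ) / P.1) = e₂
        generalize (dh F (n + 1)).eval ((P.2 : ℝ) / P.1) = e₁
        rw [mul_add, mul_div_cancel₀ _ hxn.ne']
        ring
      · rw [abs_div, abs_of_pos hxn, div_le_iff₀ hxn]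
        exact hB _ _ hx1 hr0 hrα)
    (fun P hP => hNI.nonneg (hcone 1 le_rfl hP))
  rcases key with ⟨c₀, ε, hc₀, hε, X, hX⟩ | ⟨n₁, n₂, c, C', ε, hc, hC', hε, X, hX1, hX⟩
  · refine ⟨ε, hε, max X 1, ?_⟩
    refine null_C t (ε := ε) hc₀ fun P hP => ?_
    have hP1 : P ∈ Near t ε X := near_sub' le_rfl (le_max_left _ _) (by omega) hP
    exact ⟨(le_max_right X 1).trans hP.1, hP.2, hX P hP1⟩
  · have hs : Near t (min ε εc) X ⊆ Near t ε X := near_sub' (min_le_left _ _) le_rfl (by omega)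
    have hs2 : Near t (min ε εc) X ⊆ Cone α :=
      (near_sub' (min_le_right _ _) le_rfl (by omega)).trans (hcone X hX1)
    exact irr_comb F' ht hg n₁ n₂ (n := n) (by omega) hc hC' (lt_min hε hεc0) hX1
      (fun P hP => hX P (hs hP)) (hNI.2.mono hs2) (fun P hP => hNI.nonneg (hs2 hP))

theorem loc_irrG {F : MvPolynomial (Fin 2) ℝ} {α : ℚ} (hα : 0 < α) (hD : 6 ≤ F.totalDegree)
    (hNI : NI (FF F) (Cone α)) {t : ℝ} (h0 : 0 ≤ t) (h1 : t ≤ α) (ht : Irrational t) {b a : ℚ}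
    (hg : t ^ 2 + b * t + a = 0) (hroot : (dh F F.totalDegree).eval t = 0)
    (hm3 : (dh F F.totalDegree).rootMultiplicity t ≤ 3) {η : ℝ} (hη : 0 < η) :
    ∃ S : Set (ℤ × ℤ), S ⊆ Cone α ∧ S ⊆ Near t η 1 ∧ Tame (vals (FF F) S) ∧
      ∃ ε : ℝ, 0 < ε ∧ ∃ X₀ : ℤ, Cone α ∩ Near t ε X₀ ⊆ S := by
  obtain ⟨F', rfl⟩ := rat_all hα hNI.1
  have h0' : 0 < t := lt_of_le_of_ne h0 fun h => ht ⟨0, by rw [Rat.cast_zero]; exact h⟩
  have h1' : t < α := lt_of_le_of_ne h1 fun h => ht ⟨α, h.symm⟩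
  obtain ⟨ε', hε', X', hnull⟩ := irr_nullG F' hα hD hNI h0' h1' ht hg hroot hm3
  refine ⟨Cone α ∩ Near t (min ε' η) (max X' 1), Set.inter_subset_left, ?_, ?_, min ε' η,
    lt_min hε' hη, max X' 1, le_rfl⟩
  · exact Set.inter_subset_right.trans (near_sub' (min_le_right _ _) (le_max_right _ _) (by omega))
  · refine tame_of_null (null_mono (vals_mono ?_) hnull)
    exact Set.inter_subset_right.trans (near_sub' (min_le_left _ _) (le_max_left _ _) (by omega))

end Pool.Agent.Lib.MP_ff4e96_coG
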