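import Mathlib

/-!
# MP_ff4e96_co: the lower bound near a rational zero of multiplicity at most 3 of the leading form

`S(x, r) = ∑ x^k φ_k(r)`, `φ_D = r^m h(r)`, `h(0) > 0`, `1 ≤ m ≤ 3`, `D ≥ 6`. If `S(x, u / x) ≥ 0` for arbitrarily large
`x`, for all `u` in an unbounded set, then `S(x, r) ≥ c x³` for `x ≥ X₀`, `x r ≥ K`, `r ≤ ε`.
-/

namespace Pool.Agent.Lib.MP_ff4e96_coG

open Filter Topology Polynomial

theorem poly_bound (φ : ℝ[X]) : ∃ C : ℝ, 0 ≤ C ∧ ∀ r : ℝ, 0 ≤ r → r ≤ 1 → |φ.eval r| ≤ C := by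
  obtain ⟨C, hC⟩ := (isCompact_Icc (a := (0 : ℝ)) (b := 1)).exists_bound_of_continuousOn
    (f := fun r => φ.eval r) φ.continuous.continuousOn
  refine ⟨C, (abs_nonneg _).trans (hC 0 ⟨le_rfl, zero_le_one⟩), fun r h0 h1 => hC r ⟨h0, h1⟩⟩

theorem poly_pos_near (h : ℝ[X]) (h0 : 0 < h.eval 0) :
    ∃ ε : ℝ, 0 < ε ∧ ε ≤ 1 ∧ ∀ r : ℝ, 0 ≤ r → r ≤ ε → h.eval 0 / 2 ≤ h.eval r := by
  have hc : ContinuousAt (fun r => h.eval r) 0 := h.continuous.continuousAt
  have h1 : ∀ᶠ r in 𝓝 (0 : ℝ), h.eval 0 / 2 < h.eval r :=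
    hc.eventually (lt_mem_nhds (by linarith))
  obtain ⟨δ, hδ, hb⟩ := Metric.eventually_nhds_iff.1 h1
  refine ⟨min (δ / 2) 1, lt_min (by linarith) one_pos, min_le_right _ _, fun r hr hrε => ?_⟩
  refine (hb ?_).le
  rw [Real.dist_eq, sub_zero, abs_of_nonneg hr]
  have := min_le_left (δ / 2) (1 : ℝ)
  linarith

theorem low_rest (φ : ℕ → ℝ[X]) (n : ℕ) : ∃ B : ℝ, 0 ≤ B ∧ ∀ x r : ℝ, 1 ≤ x → 0 ≤ r → r ≤ 1 →
    |∑ k ∈ Finset.range (n + 1), x ^ k * (φ k).eval r| ≤ B * x ^ n := by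
  choose C hC0 hC using fun k => poly_bound (φ k)
  refine ⟨∑ k ∈ Finset.range (n + 1), C k, Finset.sum_nonneg fun k _ => hC0 k,
    fun x r hx h0 h1 => ?_⟩
  rw [Finset.sum_mul]
  refine (Finset.abs_sum_le_sum_abs _ _).trans (Finset.sum_le_sum fun k hk => ?_)
  have hk' : k ≤ n := by
    have := Finset.mem_range.1 hk
    omega
  have hx0 : 0 ≤ x := by linarith
  rw [abs_mul, abs_of_nonneg (pow_nonneg hx0 k), mul_comm]
  exact mul_le_mul (hC k r h0 h1) (pow_le_pow_right₀ hx hk') (pow_nonneg hx0 k) (hC0 k)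

/-- a leading coefficient of a function which is nonnegative for arbitrarily large `x` -/
theorem low_coeff {p C : ℝ} {j : ℕ} {S : ℝ → ℝ} {x₁ : ℝ}
    (hS : ∀ x, x₁ ≤ x → S x ≤ p * x ^ (j + 1) + C * x ^ j) (hf : ∃ᶠ x in atTop, 0 ≤ S x) :
    0 ≤ p := by
  by_contra hneg
  push Not at hneg
  obtain ⟨x, hx, hSx⟩ := (frequently_atTop.1 hf) (max x₁ (max 1 (|C| / (-p) + 1)))
  have h1 : x₁ ≤ x := (le_max_left _ _).trans hx
  have h2 : 1 ≤ x := ((le_max_left _ _).trans (le_max_right _ _)).trans hx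
  have h3 : |C| / (-p) + 1 ≤ x := ((le_max_right _ _).trans (le_max_right _ _)).trans hx
  have h4 := hS x h1
  have h5 : |C| < x * (-p) := by
    rw [← div_lt_iff₀ (by linarith)]
    linarith
  have h6 : p * x ^ (j + 1) + C * x ^ j = (p * x + C) * x ^ j := by ring
  have h7 : 0 < x ^ j := pow_pos (by linarith) j
  have h8 : (p * x + C) * x ^ j < 0 := by
    apply mul_neg_of_neg_of_pos _ h7
    have := le_abs_self C
    linarith
  linarith

/-- the part of the lower bound which depends on the signs, multiplicity one -/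
theorem low_T1 {g a b e : ℝ} (hg : 0 < g) (n : ℕ) : ∃ K X₀ : ℝ, ∀ x r : ℝ, 1 ≤ x → X₀ ≤ x →
    1 ≤ x * r → K ≤ x * r →
    0 ≤ g * (x ^ (n + 3) * r ^ 1) + a * x ^ (n + 2) + (b * (x * r) + e) * x ^ (n + 1) := by
  refine ⟨4 * |a| / g, max (4 * |b| / g) (4 * |e| / g), fun x r hx hX hu hK => ?_⟩
  have hX1 : 4 * |b| / g ≤ x := (le_max_left _ _).trans hX
  have hX2 : 4 * |e| / g ≤ x := (le_max_right _ _).trans hX
  rw [div_le_iff₀ hg] at hX1 hX2 hK
  have h1 : g * (x ^ (n + 3) * r ^ 1) + a * x ^ (n + 2) + (b * (x * r) + e) * x ^ (n + 1) =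
      (g * (x * (x * r)) + a * x + b * (x * r) + e) * x ^ (n + 1) := by ring
  rw [h1]
  apply mul_nonneg _ (pow_nonneg (by linarith) _)
  have hx0 : 0 < x := by linarith
  have hu0 : 0 < x * r := by linarith
  have e1 : -(|a| * x) ≤ a * x := by
    rw [← neg_mul]
    exact mul_le_mul_of_nonneg_right (neg_abs_le a) hx0.le
  have e2 : -(|b| * (x * r)) ≤ b * (x * r) := by
    rw [← neg_mul]
    exact mul_le_mul_of_nonneg_right (neg_abs_le b) hu0.le
  have e3 := neg_abs_le e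
  have f1 : 4 * |a| * x ≤ x * r * g * x := mul_le_mul_of_nonneg_right hK hx0.le
  have f2 : 4 * |b| * (x * r) ≤ x * g * (x * r) := mul_le_mul_of_nonneg_right hX1 hu0.le
  have f3 : 4 * |e| * 1 ≤ x * g * (x * r) :=
    mul_le_mul hX2 hu zero_le_one (mul_pos hx0 hg).le
  have f4 : 0 ≤ x * g * (x * r) := (mul_pos (mul_pos hx0 hg) hu0).le
  nlinarith [f1, f2, f3, f4, e1, e2, e3]

theorem low_T2 {g a b e : ℝ} (hg : 0 < g) (ha : 0 ≤ a) (n : ℕ) : ∃ K : ℝ, ∀ x r : ℝ, 1 ≤ x →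
    1 ≤ x * r → K ≤ x * r →
    0 ≤ g * (x ^ (n + 3) * r ^ 2) + a * x ^ (n + 2) + (b * (x * r) + e) * x ^ (n + 1) := by
  refine ⟨max (2 * |b| / g) (2 * |e| / g), fun x r hx hu hK => ?_⟩
  have hK1 : 2 * |b| / g ≤ x * r := (le_max_left _ _).trans hK
  have hK2 : 2 * |e| / g ≤ x * r := (le_max_right _ _).trans hK
  rw [div_le_iff₀ hg] at hK1 hK2
  have h1 : g * (x ^ (n + 3) * r ^ 2) + a * x ^ (n + 2) + (b * (x * r) + e) * x ^ (n + 1) =
      (g * ((x * r) * (x * r)) + a * x + b * (x * r) + e) * x ^ (n + 1) := by ring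
  rw [h1]
  apply mul_nonneg _ (pow_nonneg (by linarith) _)
  have hx0 : 0 < x := by linarith
  have hu0 : 0 < x * r := by linarith
  have e1 : 0 ≤ a * x := mul_nonneg ha hx0.le
  have e2 : -(|b| * (x * r)) ≤ b * (x * r) := by
    rw [← neg_mul]
    exact mul_le_mul_of_nonneg_right (neg_abs_le b) hu0.le
  have e3 := neg_abs_le e
  have f2 : 2 * |b| * (x * r) ≤ x * r * g * (x * r) := mul_le_mul_of_nonneg_right hK1 hu0.le
  have f3 : 2 * |e| * 1 ≤ x * r * g * (x * r) :=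
    mul_le_mul hK2 hu zero_le_one (mul_pos hu0 hg).le
  nlinarith [f2, f3, e1, e2, e3]

theorem low_T3 {g a b e : ℝ} (hg : 0 < g)
    (h : 0 < a ∨ (a = 0 ∧ 0 < b) ∨ (a = 0 ∧ b = 0 ∧ 0 ≤ e)) (n : ℕ) :
    ∃ K X₀ ε : ℝ, 0 < ε ∧ ∀ x r : ℝ, 1 ≤ x → X₀ ≤ x → 1 ≤ x * r → K ≤ x * r → 0 ≤ r → r ≤ ε →
    0 ≤ g * (x ^ (n + 3) * r ^ 3) + a * x ^ (n + 2) + (b * (x * r) + e) * x ^ (n + 1) := by
  have hred : ∀ x r : ℝ, 1 ≤ x → 1 ≤ x * r → 0 ≤ a * x + b * (x * r) + e →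
      0 ≤ g * (x ^ (n + 3) * r ^ 3) + a * x ^ (n + 2) + (b * (x * r) + e) * x ^ (n + 1) := by
    intro x r hx hu hT
    have h1 : g * (x ^ (n + 3) * r ^ 3) + a * x ^ (n + 2) + (b * (x * r) + e) * x ^ (n + 1) =
        g * (x ^ n * (x * r) ^ 3) + (a * x + b * (x * r) + e) * x ^ (n + 1) := by ring
    rw [h1]
    have hx0 : 0 ≤ x := by linarith
    have hu0 : 0 ≤ x * r := by linarith
    have h2 : 0 ≤ x ^ n * (x * r) ^ 3 := mul_nonneg (pow_nonneg hx0 _) (pow_nonneg hu0 _)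
    have h3 := mul_nonneg hg.le h2
    have h4 := mul_nonneg hT (pow_nonneg hx0 (n + 1))
    linarith
  rcases h with ha | ⟨ha, hb⟩ | ⟨ha, hb, he⟩
  · refine ⟨0, 2 * |e| / a, a / (2 * (|b| + 1)), by positivity, fun x r hx hX hu _ hr hrε => ?_⟩
    apply hred x r hx hu
    rw [div_le_iff₀ ha] at hX
    have hb1 : 0 < 2 * (|b| + 1) := by positivity
    rw [le_div_iff₀ hb1] at hrε
    have hx0 : 0 < x := by linarith
    have hu0 : 0 < x * r := by linarith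
    have e2 : -(|b| * (x * r)) ≤ b * (x * r) := by
      rw [← neg_mul]
      exact mul_le_mul_of_nonneg_right (neg_abs_le b) hu0.le
    have e3 := neg_abs_le e
    have e4 : x * (r * (2 * (|b| + 1))) ≤ x * a := mul_le_mul_of_nonneg_left hrε hx0.le
    nlinarith [e2, e3, e4, hX, hu0]
  · refine ⟨|e| / b, 0, 1, one_pos, fun x r hx _ hu hK _ _ => ?_⟩
    apply hred x r hx hu
    rw [div_le_iff₀ hb] at hK
    have e3 := neg_abs_le e
    rw [ha, zero_mul]
    linarith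
  · refine ⟨0, 0, 1, one_pos, fun x r hx _ hu _ _ _ => ?_⟩
    apply hred x r hx hu
    rw [ha, hb]
    linarith

/-- the lower bound near a rational zero of multiplicity at most 3 -/
theorem lower {n m : ℕ} (hm1 : 1 ≤ m) (hm3 : m ≤ 3) (hn : 3 ≤ n)
    (φ : ℕ → ℝ[X]) (h : ℝ[X]) (hφ : φ (n + 3) = X ^ m * h) (h0 : 0 < h.eval 0)
    (U : Set ℝ) (hU : ∀ M : ℝ, ∃ u ∈ U, M ≤ u)
    (hpos : ∀ u ∈ U, ∃ᶠ x : ℝ in atTop,
      0 ≤ ∑ k ∈ Finset.range (n + 4), x ^ k * (φ k).eval (u / x)) :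
    ∃ K X₀ ε c : ℝ, 0 < K ∧ 1 ≤ X₀ ∧ 0 < ε ∧ 0 < c ∧ ∀ x r : ℝ, X₀ ≤ x → K ≤ x * r → r ≤ ε →
      c * x ^ 3 ≤ ∑ k ∈ Finset.range (n + 4), x ^ k * (φ k).eval r := by
  set a : ℝ := (φ (n + 2)).coeff 0 with ha
  set b : ℝ := (φ (n + 2)).divX.coeff 0 with hb
  set e : ℝ := (φ (n + 1)).coeff 0 with he
  set ψ₁ : ℝ[X] := (φ (n + 2)).divX.divX with hψ₁
  set ψ₂ : ℝ[X] := (φ (n + 1)).divX with hψ₂
  have e1 : ∀ r : ℝ, (φ (n + 2)).eval r = a + b * r + r ^ 2 * ψ₁.eval r := by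
    intro r
    have h1 : (φ (n + 2)).divX.eval r = ψ₁.eval r * r + b := by
      have h2 := congrArg (fun p => p.eval r) (Polynomial.divX_mul_X_add (φ (n + 2)).divX)
      simp only [eval_add, eval_mul, eval_X, eval_C] at h2
      exact h2.symm
    have h3 := congrArg (fun p => p.eval r) (Polynomial.divX_mul_X_add (φ (n + 2)))
    simp only [eval_add, eval_mul, eval_X, eval_C] at h3
    rw [← h3, h1]
    ring
  have e2 : ∀ r : ℝ, (φ (n + 1)).eval r = e + r * ψ₂.eval r := by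
    intro r
    have h3 := congrArg (fun p => p.eval r) (Polynomial.divX_mul_X_add (φ (n + 1)))
    simp only [eval_add, eval_mul, eval_X, eval_C] at h3
    rw [← h3]
    ring
  have hS : ∀ x r : ℝ, ∑ k ∈ Finset.range (n + 4), x ^ k * (φ k).eval r =
      x ^ (n + 3) * r ^ m * h.eval r + x ^ (n + 2) * (a + b * r + r ^ 2 * ψ₁.eval r) +
        x ^ (n + 1) * (e + r * ψ₂.eval r) +
        ∑ k ∈ Finset.range (n + 1), x ^ k * (φ k).eval r := by
    intro x r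
    rw [Finset.sum_range_succ, Finset.sum_range_succ, Finset.sum_range_succ, hφ, e1, e2]
    simp only [eval_mul, eval_pow, eval_X]
    ring
  obtain ⟨B₀, hB₀, hR⟩ := low_rest φ n
  obtain ⟨B₁, hB₁, hψ₁b⟩ := poly_bound ψ₁
  obtain ⟨B₂, hB₂, hψ₂b⟩ := poly_bound ψ₂
  obtain ⟨H, hH, hHb⟩ := poly_bound h
  obtain ⟨ε₀, hε₀, hε₀1, hhε⟩ := poly_pos_near h h0
  -- upper bounds on rows
  have hrow : ∀ u : ℝ, 0 < u → ∀ x : ℝ, max 1 u ≤ x → 2 ≤ m →
      ∑ k ∈ Finset.range (n + 4), x ^ k * (φ k).eval (u / x) ≤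
        a * x ^ (n + 2) + (b * u + e) * x ^ (n + 1) + x ^ (n + 3) * (u / x) ^ m * H +
          (B₁ * u ^ 2 + B₂ * u + B₀) * x ^ n := by
    intro u hu x hx hm2
    have hx1 : 1 ≤ x := (le_max_left _ _).trans hx
    have hxu : u ≤ x := (le_max_right _ _).trans hx
    have hx0 : 0 < x := by linarith
    have hr0 : 0 ≤ u / x := by positivity
    have hr1 : u / x ≤ 1 := (div_le_one hx0).2 hxu
    rw [hS]
    have f1 : x ^ (n + 3) * (u / x) ^ m * h.eval (u / x) ≤ x ^ (n + 3) * (u / x) ^ m * H :=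
      mul_le_mul_of_nonneg_left ((le_abs_self _).trans (hHb _ hr0 hr1)) (by positivity)
    have f2 : x ^ (n + 2) * (a + b * (u / x) + (u / x) ^ 2 * ψ₁.eval (u / x)) =
        a * x ^ (n + 2) + b * u * x ^ (n + 1) + ψ₁.eval (u / x) * (u ^ 2 * x ^ n) := by
      field_simp
      ring
    have f3 : ψ₁.eval (u / x) * (u ^ 2 * x ^ n) ≤ B₁ * (u ^ 2 * x ^ n) :=
      mul_le_mul_of_nonneg_right ((le_abs_self _).trans (hψ₁b _ hr0 hr1)) (by positivity)
    have f4 : x ^ (n + 1) * (e + u / x * ψ₂.eval (u / x)) =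
        e * x ^ (n + 1) + ψ₂.eval (u / x) * (u * x ^ n) := by
      field_simp
      ring
    have f5 : ψ₂.eval (u / x) * (u * x ^ n) ≤ B₂ * (u * x ^ n) :=
      mul_le_mul_of_nonneg_right ((le_abs_self _).trans (hψ₂b _ hr0 hr1)) (by positivity)
    have f6 := (le_abs_self _).trans (hR x (u / x) hx1 hr0 hr1)
    rw [f2, f4]
    linarith
  -- the sign conditions
  have hT : ∃ K₁ X₁ ε₁ : ℝ, 0 < ε₁ ∧ ∀ x r : ℝ, 1 ≤ x → X₁ ≤ x → 1 ≤ x * r → K₁ ≤ x * r →
      0 ≤ r → r ≤ ε₁ → 0 ≤ h.eval 0 / 4 * (x ^ (n + 3) * r ^ m) + a * x ^ (n + 2) +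
        (b * (x * r) + e) * x ^ (n + 1) := by
    have hg : 0 < h.eval 0 / 4 := by linarith
    have hcase : m = 1 ∨ m = 2 ∨ m = 3 := by omega
    rcases hcase with rfl | rfl | rfl
    · obtain ⟨K, X₁, hKX⟩ := low_T1 (a := a) (b := b) (e := e) hg n
      exact ⟨K, X₁, 1, one_pos, fun x r h1 h2 h3 h4 _ _ => hKX x r h1 h2 h3 h4⟩
    · have ha0 : 0 ≤ a := by
        obtain ⟨u, huU, hu⟩ := hU 1
        have hu0 : 0 < u := by linarith
        refine low_coeff (p := a) (C := |b * u + e| + u ^ 2 * H + (B₁ * u ^ 2 + B₂ * u + B₀))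
          (j := n + 1) (x₁ := max 1 u) (fun x hx => ?_) (hpos u huU)
        have h1 := hrow u hu0 x hx le_rfl
        refine h1.trans ?_
        have hx1 : 1 ≤ x := (le_max_left _ _).trans hx
        have hx0 : 0 < x := by linarith
        have h2 : x ^ (n + 3) * (u / x) ^ 2 * H = u ^ 2 * H * x ^ (n + 1) := by
          field_simp <;> ring
        have h3 : (B₁ * u ^ 2 + B₂ * u + B₀) * x ^ n ≤ (B₁ * u ^ 2 + B₂ * u + B₀) * x ^ (n + 1) :=
          mul_le_mul_of_nonneg_left (pow_le_pow_right₀ hx1 (Nat.le_succ n)) (by positivity)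
        have h4 : (b * u + e) * x ^ (n + 1) ≤ |b * u + e| * x ^ (n + 1) :=
          mul_le_mul_of_nonneg_right (le_abs_self _) (by positivity)
        rw [h2]
        have h5 : (|b * u + e| + u ^ 2 * H + (B₁ * u ^ 2 + B₂ * u + B₀)) * x ^ (n + 1) =
            |b * u + e| * x ^ (n + 1) + u ^ 2 * H * x ^ (n + 1) +
              (B₁ * u ^ 2 + B₂ * u + B₀) * x ^ (n + 1) := by ring
        have h6 : a * x ^ (n + 1 + 1) = a * x ^ (n + 2) := rfl
        rw [h5, h6]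
        linarith
      obtain ⟨K, hK⟩ := low_T2 (a := a) (b := b) (e := e) hg ha0 n
      exact ⟨K, 1, 1, one_pos, fun x r h1 _ h3 h4 _ _ => hK x r h1 h3 h4⟩
    · have ha0 : 0 ≤ a := by
        obtain ⟨u, huU, hu⟩ := hU 1
        have hu0 : 0 < u := by linarith
        refine low_coeff (p := a) (C := |b * u + e| + u ^ 3 * H + (B₁ * u ^ 2 + B₂ * u + B₀))
          (j := n + 1) (x₁ := max 1 u) (fun x hx => ?_) (hpos u huU)
        have h1 := hrow u hu0 x hx (by norm_num)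
        refine h1.trans ?_
        have hx1 : 1 ≤ x := (le_max_left _ _).trans hx
        have hx0 : 0 < x := by linarith
        have h2 : x ^ (n + 3) * (u / x) ^ 3 * H = u ^ 3 * H * x ^ n := by
          field_simp <;> ring
        have h2' : u ^ 3 * H * x ^ n ≤ u ^ 3 * H * x ^ (n + 1) :=
          mul_le_mul_of_nonneg_left (pow_le_pow_right₀ hx1 (Nat.le_succ n)) (by positivity)
        have h3 : (B₁ * u ^ 2 + B₂ * u + B₀) * x ^ n ≤ (B₁ * u ^ 2 + B₂ * u + B₀) * x ^ (n + 1) :=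
          mul_le_mul_of_nonneg_left (pow_le_pow_right₀ hx1 (Nat.le_succ n)) (by positivity)
        have h4 : (b * u + e) * x ^ (n + 1) ≤ |b * u + e| * x ^ (n + 1) :=
          mul_le_mul_of_nonneg_right (le_abs_self _) (by positivity)
        rw [h2]
        have h5 : (|b * u + e| + u ^ 3 * H + (B₁ * u ^ 2 + B₂ * u + B₀)) * x ^ (n + 1) =
            |b * u + e| * x ^ (n + 1) + u ^ 3 * H * x ^ (n + 1) +
              (B₁ * u ^ 2 + B₂ * u + B₀) * x ^ (n + 1) := by ring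
        have h6 : a * x ^ (n + 1 + 1) = a * x ^ (n + 2) := rfl
        rw [h5, h6]
        linarith
      have hcond : 0 < a ∨ (a = 0 ∧ 0 < b) ∨ (a = 0 ∧ b = 0 ∧ 0 ≤ e) := by
        rcases ha0.lt_or_eq with ha1 | ha1
        · exact Or.inl ha1
        right
        have hbu : ∀ u ∈ U, 0 < u → 0 ≤ b * u + e := by
          intro u huU hu0
          refine low_coeff (p := b * u + e) (C := u ^ 3 * H + (B₁ * u ^ 2 + B₂ * u + B₀))
            (j := n) (x₁ := max 1 u) (fun x hx => ?_) (hpos u huU)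
          have h1 := hrow u hu0 x hx (by norm_num)
          refine h1.trans ?_
          have hx1 : 1 ≤ x := (le_max_left _ _).trans hx
          have hx0 : 0 < x := by linarith
          have h2 : x ^ (n + 3) * (u / x) ^ 3 * H = u ^ 3 * H * x ^ n := by
            field_simp <;> ring
          rw [h2, ← ha1]
          apply le_of_eq
          ring
        have hb0 : 0 ≤ b := by
          by_contra hneg
          push Not at hneg
          obtain ⟨u, huU, hu⟩ := hU (max 1 (|e| / (-b) + 1))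
          have hu1 : 1 ≤ u := (le_max_left _ _).trans hu
          have hu2 : |e| / (-b) + 1 ≤ u := (le_max_right _ _).trans hu
          have h1 := hbu u huU (by linarith)
          have h2 : |e| < u * (-b) := by
            rw [← div_lt_iff₀ (by linarith)]
            linarith
          have := le_abs_self e
          linarith
        rcases hb0.lt_or_eq with hb1 | hb1
        · exact Or.inl ⟨ha1.symm, hb1⟩
        · right
          obtain ⟨u, huU, hu⟩ := hU 1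
          have h1 := hbu u huU (by linarith)
          rw [← hb1, zero_mul, zero_add] at h1
          exact ⟨ha1.symm, hb1.symm, h1⟩
      exact low_T3 hg hcond n
  obtain ⟨K₁, X₁, ε₁, hε₁, hT⟩ := hT
  refine ⟨max (max 1 K₁) (24 * (B₀ + B₁ + B₂) / h.eval 0), max 1 X₁, min ε₀ ε₁, h.eval 0 / 8,
    lt_of_lt_of_le one_pos ((le_max_left _ _).trans (le_max_left _ _)), le_max_left _ _,
    lt_min hε₀ hε₁, by linarith, fun x r hx hK hrε => ?_⟩
  have hx1 : 1 ≤ x := (le_max_left _ _).trans hx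
  have hxX : X₁ ≤ x := (le_max_right _ _).trans hx
  have hu1 : 1 ≤ x * r := ((le_max_left _ _).trans (le_max_left _ _)).trans hK
  have huK : K₁ ≤ x * r := ((le_max_right _ _).trans (le_max_left _ _)).trans hK
  have huB : 24 * (B₀ + B₁ + B₂) / h.eval 0 ≤ x * r := (le_max_right _ _).trans hK
  have hx0 : 0 < x := by linarith
  have hr0 : 0 < r := by
    by_contra hcon
    push Not at hcon
    have := mul_nonpos_of_nonneg_of_nonpos hx0.le hcon
    linarith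
  have hrε₀ : r ≤ ε₀ := hrε.trans (min_le_left _ _)
  have hrε₁ : r ≤ ε₁ := hrε.trans (min_le_right _ _)
  have hr1 : r ≤ 1 := hrε₀.trans hε₀1
  have hTx := hT x r hx1 hxX hu1 huK hr0.le hrε₁
  rw [div_le_iff₀ h0] at huB
  rw [hS]
  have g1 : h.eval 0 / 2 * (x ^ (n + 3) * r ^ m) ≤ x ^ (n + 3) * r ^ m * h.eval r := by
    rw [mul_comm]
    exact mul_le_mul_of_nonneg_left (hhε r hr0.le hrε₀) (by positivity)
  have g2 : x ^ n * (x * r) ^ 3 ≤ x ^ (n + 3) * r ^ m := by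
    have : x ^ n * (x * r) ^ 3 = x ^ (n + 3) * r ^ 3 := by ring
    rw [this]
    exact mul_le_mul_of_nonneg_left (pow_le_pow_of_le_one hr0.le hr1 hm3) (by positivity)
  have g3 : x ^ (n + 2) * (a + b * r + r ^ 2 * ψ₁.eval r) =
      a * x ^ (n + 2) + b * (x * r) * x ^ (n + 1) + ψ₁.eval r * ((x * r) ^ 2 * x ^ n) := by ring
  have g4 : x ^ (n + 1) * (e + r * ψ₂.eval r) =
      e * x ^ (n + 1) + ψ₂.eval r * ((x * r) * x ^ n) := by ring
  have hxn : 0 < x ^ n := pow_pos hx0 n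
  have huu : 0 < x * r := by linarith
  have g5 : -(B₁ * ((x * r) ^ 2 * x ^ n)) ≤ ψ₁.eval r * ((x * r) ^ 2 * x ^ n) := by
    rw [← neg_mul]
    exact mul_le_mul_of_nonneg_right (abs_le.1 (hψ₁b r hr0.le hr1)).1 (by positivity)
  have g6 : -(B₂ * ((x * r) * x ^ n)) ≤ ψ₂.eval r * ((x * r) * x ^ n) := by
    rw [← neg_mul]
    exact mul_le_mul_of_nonneg_right (abs_le.1 (hψ₂b r hr0.le hr1)).1 (by positivity)
  have g7 := (abs_le.1 (hR x r hx1 hr0.le hr1)).1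
  have g8 : (x * r) * x ^ n ≤ (x * r) ^ 2 * x ^ n := by
    apply mul_le_mul_of_nonneg_right _ hxn.le
    nlinarith
  have g9 : x ^ n ≤ (x * r) ^ 2 * x ^ n := by
    have : 1 ≤ (x * r) ^ 2 := one_le_pow₀ hu1
    nlinarith
  have g10 : B₂ * ((x * r) * x ^ n) ≤ B₂ * ((x * r) ^ 2 * x ^ n) := mul_le_mul_of_nonneg_left g8 hB₂
  have g11 : B₀ * x ^ n ≤ B₀ * ((x * r) ^ 2 * x ^ n) := mul_le_mul_of_nonneg_left g9 hB₀
  have g12 : 24 * (B₀ + B₁ + B₂) * ((x * r) ^ 2 * x ^ n) ≤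
      x * r * h.eval 0 * ((x * r) ^ 2 * x ^ n) := mul_le_mul_of_nonneg_right huB (by positivity)
  have g13 : x ^ 3 ≤ x ^ n * (x * r) ^ 3 := by
    have h1 : x ^ 3 ≤ x ^ n := pow_le_pow_right₀ hx1 hn
    have h2 : 1 ≤ (x * r) ^ 3 := one_le_pow₀ hu1
    nlinarith
  have g14 : h.eval 0 / 8 * x ^ 3 ≤ h.eval 0 / 8 * (x ^ n * (x * r) ^ 3) :=
    mul_le_mul_of_nonneg_left g13 (by linarith)
  have g15 : h.eval 0 / 4 * (x ^ n * (x * r) ^ 3) ≤ h.eval 0 / 4 * (x ^ (n + 3) * r ^ m) :=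
    mul_le_mul_of_nonneg_left g2 (by linarith)
  have g16 : x * r * h.eval 0 * ((x * r) ^ 2 * x ^ n) = h.eval 0 * (x ^ n * (x * r) ^ 3) := by ring
  rw [g16] at g12
  rw [g3, g4]
  have g17 : (b * (x * r) + e) * x ^ (n + 1) = b * (x * r) * x ^ (n + 1) + e * x ^ (n + 1) := by ring
  rw [g17] at hTx
  have g18 : 24 * (B₀ + B₁ + B₂) * ((x * r) ^ 2 * x ^ n) =
      24 * (B₀ * ((x * r) ^ 2 * x ^ n)) + 24 * (B₁ * ((x * r) ^ 2 * x ^ n)) +
        24 * (B₂ * ((x * r) ^ 2 * x ^ n)) := by ring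
  rw [g18] at g12
  have g19 : 0 ≤ h.eval 0 * (x ^ n * (x * r) ^ 3) := by positivity
  linarith

end Pool.Agent.Lib.MP_ff4e96_coG
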