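import Mathlib

/-!
# MP_ff4e96_co: a polynomial in two variables as `∑ x^k f_k(y/x)`

`dh F k` is the dehomogenized homogeneous component of degree `k`, the polynomial `F_k(1, t)`.
-/

namespace Pool.Agent.Lib.MP_ff4e96_coG

open Polynomial

/-- the dehomogenized homogeneous component `F_k(1, t)` of degree `k` -/
noncomputable def dh (F : MvPolynomial (Fin 2) ℝ) (k : ℕ) : ℝ[X] :=
  MvPolynomial.aeval ![(1 : ℝ[X]), X] (MvPolynomial.homogeneousComponent k F)

theorem eval_aeval (P : MvPolynomial (Fin 2) ℝ) (g : Fin 2 → ℝ[X]) (t : ℝ) :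
    (MvPolynomial.aeval g P).eval t = MvPolynomial.eval (fun i => (g i).eval t) P := by
  have h : ((Polynomial.aeval t : ℝ[X] →ₐ[ℝ] ℝ).comp (MvPolynomial.aeval g)) =
      MvPolynomial.aeval (fun i => (g i).eval t) := by
    refine MvPolynomial.algHom_ext fun i => ?_
    simp
  have h2 := congrArg (fun φ : MvPolynomial (Fin 2) ℝ →ₐ[ℝ] ℝ => φ P) h
  simpa [MvPolynomial.coe_aeval_eq_eval] using h2

theorem eval_dh (F : MvPolynomial (Fin 2) ℝ) (k : ℕ) (t : ℝ) :
    (dh F k).eval t = MvPolynomial.eval ![1, t] (MvPolynomial.homogeneousComponent k F) := by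
  rw [dh, eval_aeval]
  congr 1
  congr 1
  funext i
  fin_cases i
  · simp
  · simp

theorem eval_scale {k : ℕ} {P : MvPolynomial (Fin 2) ℝ} (hP : P.IsHomogeneous k) {x : ℝ}
    (hx : x ≠ 0) (y : ℝ) :
    MvPolynomial.eval ![x, y] P = x ^ k * MvPolynomial.eval ![1, y / x] P := by
  rw [MvPolynomial.eval_eq', MvPolynomial.eval_eq', Finset.mul_sum]
  refine Finset.sum_congr rfl fun d hd => ?_
  have h1 : d 0 + d 1 = k := by
    have h2 := hP (MvPolynomial.mem_support_iff.1 hd)
    rw [Finsupp.weight_apply, Finsupp.sum_fintype _ _ (fun _ => by simp), Fin.sum_univ_two] at h2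
    simpa using h2
  rw [Fin.prod_univ_two, Fin.prod_univ_two]
  simp only [Matrix.cons_val_zero, Matrix.cons_val_one, one_pow, one_mul]
  rw [← h1, pow_add, div_pow]
  field_simp

theorem rep (F : MvPolynomial (Fin 2) ℝ) {x : ℝ} (hx : x ≠ 0) (y : ℝ) :
    MvPolynomial.eval ![x, y] F =
      ∑ k ∈ Finset.range (F.totalDegree + 1), x ^ k * (dh F k).eval (y / x) := by
  conv_lhs => rw [← MvPolynomial.sum_homogeneousComponent F]
  rw [map_sum]
  refine Finset.sum_congr rfl fun k _ => ?_
  rw [eval_dh, eval_scale (MvPolynomial.homogeneousComponent_isHomogeneous k F) hx]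

theorem dh_ne_zero (F : MvPolynomial (Fin 2) ℝ) (hF : F ≠ 0) : dh F F.totalDegree ≠ 0 := by
  intro h0
  have h1 : MvPolynomial.X 0 * MvPolynomial.homogeneousComponent F.totalDegree F = 0 := by
    apply MvPolynomial.funext
    intro v
    rw [map_mul, MvPolynomial.eval_X, map_zero]
    by_cases hv : v 0 = 0
    · rw [hv, zero_mul]
    · have h2 : v = ![v 0, v 1] := by
        funext i
        fin_cases i <;> rfl
      have h3 := eval_scale (MvPolynomial.homogeneousComponent_isHomogeneous F.totalDegree F) hv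
        (v 1)
      rw [← eval_dh, h0, eval_zero, mul_zero, ← h2] at h3
      rw [h3, mul_zero]
  rcases mul_eq_zero.1 h1 with h2 | h2
  · exact MvPolynomial.X_ne_zero 0 h2
  · obtain ⟨d, hd, hdeg⟩ : ∃ d ∈ F.support, F.totalDegree = d.sum fun _ e => e :=
      Finset.exists_mem_eq_sup _ (MvPolynomial.support_nonempty.2 hF) _
    have h3 := congrArg (MvPolynomial.coeff d) h2
    rw [MvPolynomial.coeff_homogeneousComponent, if_pos, MvPolynomial.coeff_zero] at h3
    · exact MvPolynomial.mem_support_iff.1 hd h3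
    · rw [hdeg]
      rfl

end Pool.Agent.Lib.MP_ff4e96_coG
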