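import Pool.Agent.Lib.MP_ff4e96_co.Count
import Pool.Agent.Lib.MP_ff4e96_coG.Low
import Pool.Agent.Lib.MP_ff4e96_coG.Rep

/-!
# MP_ff4e96_co: the leading form in the sector

`lead_nonneg`: the leading form is nonnegative on the sector. `rest_nullG`: the values outside neighbourhoods of its
zeros have density zero.
-/

namespace Pool.Agent.Lib.MP_ff4e96_coG

open Filter Topology Polynomial Pool.Agent.Lib.MP_ff4e96_co

/-- the values of `F` at lattice points -/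
noncomputable def FF (F : MvPolynomial (Fin 2) ℝ) (P : ℤ × ℤ) : ℝ :=
  MvPolynomial.eval ![(P.1 : ℝ), (P.2 : ℝ)] F

theorem poly_boundA (φ : ℝ[X]) (A : ℝ) :
    ∃ C : ℝ, 0 ≤ C ∧ ∀ r : ℝ, 0 ≤ r → r ≤ A → |φ.eval r| ≤ C := by
  obtain ⟨C, hC⟩ := (isCompact_Icc (a := (0 : ℝ)) (b := A)).exists_bound_of_continuousOn
    (f := fun r => φ.eval r) φ.continuous.continuousOn
  refine ⟨max C 0, le_max_right _ _, fun r h0 h1 => (hC r ⟨h0, h1⟩).trans (le_max_left _ _)⟩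

theorem lead_rest (φ : ℕ → ℝ[X]) (n : ℕ) (A : ℝ) : ∃ B : ℝ, 0 ≤ B ∧ ∀ x r : ℝ, 1 ≤ x → 0 ≤ r →
    r ≤ A → |∑ k ∈ Finset.range (n + 1), x ^ k * (φ k).eval r| ≤ B * x ^ n := by
  choose C hC0 hC using fun k => poly_boundA (φ k) A
  refine ⟨∑ k ∈ Finset.range (n + 1), C k, Finset.sum_nonneg fun k _ => hC0 k,
    fun x r hx h0 h1 => ?_⟩
  rw [Finset.sum_mul]
  refine (Finset.abs_sum_le_sum_abs _ _).trans (Finset.sum_le_sum fun k hk => ?_)
  have hk' : k ≤ n := by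
    have := Finset.mem_range.1 hk
    omega
  have hx0 : 0 ≤ x := by linarith
  rw [abs_mul, abs_of_nonneg (pow_nonneg hx0 k), mul_comm]
  exact mul_le_mul (hC k r h0 h1) (pow_le_pow_right₀ hx hk') (pow_nonneg hx0 k) (hC0 k)

theorem lead_nonneg_rat {F : MvPolynomial (Fin 2) ℝ} {α : ℚ} (hD : 1 ≤ F.totalDegree)
    (hpos : ∀ P ∈ Cone α, 0 ≤ FF F P) (q : ℚ) (hq0 : 0 ≤ q) (hqα : q ≤ α) :
    0 ≤ (dh F F.totalDegree).eval (q : ℝ) := by
  obtain ⟨n, hn⟩ : ∃ n, F.totalDegree = n + 1 := ⟨F.totalDegree - 1, by omega⟩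
  obtain ⟨B, hB, hR⟩ := lead_rest (dh F) n (max q 0 : ℝ)
  refine low_coeff (p := (dh F F.totalDegree).eval (q : ℝ)) (C := B) (j := n) (x₁ := 1)
    (S := fun x => ∑ k ∈ Finset.range (F.totalDegree + 1), x ^ k * (dh F k).eval (q : ℝ))
    (fun x hx => ?_) ?_
  · show ∑ k ∈ Finset.range (F.totalDegree + 1), x ^ k * (dh F k).eval (q : ℝ) ≤ _
    rw [Finset.sum_range_succ]
    have h1 := (le_abs_self _).trans (hR x (q : ℝ) hx (by exact_mod_cast hq0) (le_max_left _ _))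
    rw [hn] at *
    have h2 : x ^ (n + 1) * (dh F (n + 1)).eval (q : ℝ) =
      (dh F (n + 1)).eval (q : ℝ) * x ^ (n + 1) := mul_comm _ _
    rw [h2]
    linarith
  · rw [frequently_atTop]
    intro a
    obtain ⟨k, hk⟩ := exists_nat_gt (max a 1)
    have hka : a ≤ k := (le_max_left _ _).trans hk.le
    have hk1 : (1 : ℝ) ≤ k := (le_max_right _ _).trans hk.le
    have hden : (1 : ℝ) ≤ q.den := by exact_mod_cast q.den_pos
    have hkd : (k : ℝ) ≤ k * q.den := le_mul_of_one_le_right (by linarith) hden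
    refine ⟨k * q.den, hka.trans hkd, ?_⟩
    have hP : (((k : ℤ) * q.den, (k : ℤ) * q.num) : ℤ × ℤ) ∈ Cone α := by
      constructor
      · have : 0 ≤ q.num := Rat.num_nonneg.2 hq0
        positivity
      · push_cast
        have h2 : (q.num : ℚ) = q * q.den := (Rat.mul_den_eq_num q).symm
        rw [h2]
        have h3 : (k : ℚ) * (q * q.den) ≤ k * (α * q.den) :=
          mul_le_mul_of_nonneg_left (mul_le_mul_of_nonneg_right hqα (by positivity))
            (by positivity)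
        linarith
    have h4 := hpos _ hP
    rw [FF] at h4
    have hx0 : (0 : ℝ) < k * q.den := by linarith
    have hval : ((k : ℤ) * q.num : ℤ) = (k : ℝ) * q.den * q := by
      push_cast
      have h2 : (q.num : ℝ) = q * q.den := by exact_mod_cast (Rat.mul_den_eq_num q).symm
      rw [h2]
      ring
    have hval2 : (((k : ℤ) * q.den : ℤ) : ℝ) = (k : ℝ) * q.den := by push_cast; rfl
    simp only [hval, hval2] at h4
    rw [rep F hx0.ne', mul_div_cancel_left₀ _ hx0.ne'] at h4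
    exact h4

theorem lead_nonneg {F : MvPolynomial (Fin 2) ℝ} {α : ℚ} (hα : 0 < α) (hD : 1 ≤ F.totalDegree)
    (hNI : NI (FF F) (Cone α)) (t : ℝ) (ht0 : 0 ≤ t) (htα : t ≤ α) :
    0 ≤ (dh F F.totalDegree).eval t := by
  have hαr : (0 : ℝ) < α := by exact_mod_cast hα
  by_contra hneg
  push Not at hneg
  have hopen : IsOpen {s : ℝ | (dh F F.totalDegree).eval s < 0} :=
    isOpen_lt (dh F F.totalDegree).continuous continuous_const
  have hmem : t ∈ closure (Set.Ioo (0 : ℝ) α) := by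
    rw [closure_Ioo hαr.ne]
    exact ⟨ht0, htα⟩
  obtain ⟨s, hs1, hs2⟩ := mem_closure_iff.1 hmem _ hopen hneg
  have hopen2 : IsOpen ({s : ℝ | (dh F F.totalDegree).eval s < 0} ∩ Set.Ioo (0 : ℝ) α) :=
    hopen.inter isOpen_Ioo
  obtain ⟨q, hq⟩ := Rat.denseRange_cast.exists_mem_open hopen2 ⟨s, hs1, hs2⟩
  have hq1 : (dh F F.totalDegree).eval (q : ℝ) < 0 := hq.1
  have hq2 : (0 : ℝ) < q ∧ (q : ℝ) < α := hq.2
  have h1 := lead_nonneg_rat hD (fun P hP => hNI.nonneg hP) q (by exact_mod_cast hq2.1.le)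
    (by exact_mod_cast hq2.2.le)
  linarith

/-- the complement of the neighbourhoods of the zeros of the leading form -/
theorem rest_nullG {F : MvPolynomial (Fin 2) ℝ} {α : ℚ} (hα : 0 < α) (hd3 : 3 ≤ F.totalDegree)
    (hNI : NI (FF F) (Cone α)) (Z : Finset ℝ)
    (hZ : ∀ t : ℝ, 0 ≤ t → t ≤ α → (dh F F.totalDegree).eval t = 0 → t ∈ Z) (ε : ℝ → ℝ)
    (hε : ∀ t ∈ Z, 0 < ε t)
    (X : ℝ → ℤ) (S : Set (ℤ × ℤ)) (hS : ∀ t ∈ Z, Cone α ∩ Near t (ε t) (X t) ⊆ S) :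
    Null (vals (FF F) (Cone α \ S)) := by
  have hαr : (0 : ℝ) < α := by exact_mod_cast hα
  have hnonneg := lead_nonneg hα (by omega) hNI
  -- the compact set
  set K : Set ℝ := Set.Icc (0 : ℝ) α ∩ ⋂ z ∈ Z, {t : ℝ | ε z ≤ |t - z|} with hK
  have hKc : IsCompact K := by
    refine isCompact_Icc.inter_right (isClosed_biInter fun z _ => ?_)
    exact isClosed_le continuous_const ((continuous_id.sub continuous_const).abs)
  have hpos : ∀ t ∈ K, 0 < (dh F F.totalDegree).eval t := by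
    rintro t ⟨ht, hz⟩
    refine lt_of_le_of_ne (hnonneg t ht.1 ht.2) fun h0 => ?_
    have htZ := hZ t ht.1 ht.2 h0.symm
    have h1 : ε t ≤ |t - t| := by
      have h2 := Set.mem_iInter₂.1 hz t htZ
      exact h2
    rw [sub_self, abs_zero] at h1
    exact absurd (hε t htZ) (not_lt.2 h1)
  obtain ⟨c₀, hc₀, hmin⟩ := hKc.exists_forall_le'
    (dh F F.totalDegree).continuous.continuousOn hpos
  -- constants
  obtain ⟨n, hn⟩ : ∃ n, F.totalDegree = n + 1 := ⟨F.totalDegree - 1, by omega⟩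
  obtain ⟨C, hC0, hR⟩ := lead_rest (dh F) n (α : ℝ)
  obtain ⟨M, hM⟩ := (Z.image X).exists_le
  set X₀ : ℤ := max M (max 1 ⌈2 * C / c₀⌉) with hX₀
  have hX1 : 1 ≤ X₀ := (le_max_left _ _).trans (le_max_right _ _)
  have hXC : 2 * C / c₀ ≤ (X₀ : ℝ) := by
    have h1 : 2 * C / c₀ ≤ (⌈2 * C / c₀⌉ : ℝ) := Int.le_ceil _
    have h2 : ⌈2 * C / c₀⌉ ≤ X₀ := (le_max_right _ _).trans (le_max_right _ _)
    have h3 : (⌈2 * C / c₀⌉ : ℝ) ≤ X₀ := by exact_mod_cast h2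
    linarith
  have hXZ : ∀ z ∈ Z, X z ≤ X₀ := fun z hz =>
    (hM _ (Finset.mem_image_of_mem X hz)).trans (le_max_left _ _)
  -- splitting
  have hsplit : vals (FF F) (Cone α \ S) ⊆
      vals (FF F) {P | P ∈ Cone α \ S ∧ X₀ ≤ P.1} ∪ vals (FF F) {P | P ∈ Cone α ∧ P.1 < X₀} := by
    rw [← vals_union]
    refine vals_mono ?_
    rintro P hP
    rcases le_or_gt X₀ P.1 with h | h
    · exact Or.inl ⟨hP, h⟩
    · exact Or.inr ⟨hP.1, h⟩
  refine null_mono hsplit (null_union ?_ ?_)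
  · refine null_D (α : ℝ) (c := c₀ / 2) (by positivity) ?_
    rintro ⟨x, y⟩ ⟨⟨hPc, hPS⟩, hxX⟩
    simp only at hxX
    obtain ⟨hy0, hyx⟩ := hPc
    simp only at hy0 hyx
    have hx1 : 1 ≤ x := hX1.trans hxX
    have hx1r : (1 : ℝ) ≤ x := by exact_mod_cast hx1
    have hx0r : (0 : ℝ) < x := by linarith
    have hy0r : (0 : ℝ) ≤ y := by exact_mod_cast hy0
    have hyxr : (y : ℝ) ≤ α * x := by exact_mod_cast hyx
    refine ⟨hx1, hy0, hyxr, ?_⟩
    simp only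
    have htα : (y : ℝ) / x ≤ α := (div_le_iff₀ hx0r).2 hyxr
    have ht0 : 0 ≤ (y : ℝ) / x := by positivity
    have htK : (y : ℝ) / x ∈ K := by
      refine ⟨⟨ht0, htα⟩, Set.mem_iInter₂.2 fun z hz => ?_⟩
      by_contra hlt
      rw [Set.mem_ofPred_eq, not_le] at hlt
      apply hPS
      apply hS z hz
      refine ⟨⟨hy0, hyx⟩, (hXZ z hz).trans hxX, ?_⟩
      simp only
      have h1 : (y : ℝ) - z * x = (y / x - z) * x := by field_simp
      rw [h1, abs_mul, abs_of_pos hx0r]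
      exact mul_le_mul_of_nonneg_right hlt.le hx0r.le
    have h1 := hmin _ htK
    have h3 := (abs_le.1 (hR (x : ℝ) ((y : ℝ) / x) hx1r ht0 htα)).1
    have h4 : (x : ℝ) ^ (n + 1) = x ^ n * x := pow_succ _ _
    have hxp : (0 : ℝ) < (x : ℝ) ^ n := pow_pos hx0r _
    have h5 : c₀ * (x : ℝ) ^ (n + 1) ≤ x ^ (n + 1) * (dh F F.totalDegree).eval ((y : ℝ) / x) := by
      rw [mul_comm]
      exact mul_le_mul_of_nonneg_left h1 (pow_nonneg hx0r.le _)
    have h6 : C * (x : ℝ) ^ n ≤ c₀ / 2 * (x : ℝ) ^ (n + 1) := by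
      have h7 : 2 * C / c₀ ≤ (x : ℝ) := hXC.trans (by exact_mod_cast hxX)
      rw [div_le_iff₀ hc₀] at h7
      rw [h4]
      have h8 : c₀ / 2 * ((x : ℝ) ^ n * x) = (x * c₀ / 2) * x ^ n := by ring
      rw [h8]
      exact mul_le_mul_of_nonneg_right (by linarith) hxp.le
    have h9 : (x : ℝ) ^ 3 ≤ x ^ (n + 1) := pow_le_pow_right₀ hx1r (by omega)
    have h10 : c₀ / 2 * (x : ℝ) ^ 3 ≤ c₀ / 2 * x ^ (n + 1) :=
      mul_le_mul_of_nonneg_left h9 (by positivity)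
    show c₀ / 2 * (x : ℝ) ^ 3 ≤ MvPolynomial.eval ![(x : ℝ), (y : ℝ)] F
    rw [rep F hx0r.ne', Finset.sum_range_succ, hn]
    rw [hn] at h5
    linarith
  · apply null_finite
    have hfin : {P : ℤ × ℤ | P ∈ Cone α ∧ P.1 < X₀}.Finite := by
      refine ((Set.finite_Icc (0 : ℤ) X₀).prod (Set.finite_Icc (0 : ℤ) ⌈α * X₀⌉)).subset ?_
      rintro ⟨x, y⟩ ⟨⟨hy0, hyx⟩, hx⟩
      simp only at hy0 hyx hx
      have hxα : (0 : ℚ) ≤ α * x := by
        have : (0 : ℚ) ≤ y := by exact_mod_cast hy0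
        linarith
      have hx0 : (0 : ℚ) ≤ x := nonneg_of_mul_nonneg_right hxα hα
      have hx0' : 0 ≤ x := by exact_mod_cast hx0
      refine ⟨⟨hx0', hx.le⟩, hy0, ?_⟩
      have h1 : (y : ℚ) ≤ α * X₀ := by
        have h2 : (x : ℚ) ≤ X₀ := by exact_mod_cast hx.le
        have h3 : α * x ≤ α * X₀ := mul_le_mul_of_nonneg_left h2 hα.le
        linarith
      have h2 : (y : ℚ) ≤ (⌈α * X₀⌉ : ℤ) := h1.trans (Int.le_ceil _)
      exact_mod_cast h2
    have hval : vals (FF F) {P : ℤ × ℤ | P ∈ Cone α ∧ P.1 < X₀} =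
        (fun v : ℕ => (v : ℝ)) ⁻¹' (FF F '' {P : ℤ × ℤ | P ∈ Cone α ∧ P.1 < X₀}) := by
      ext v
      constructor
      · rintro ⟨P, hP, hv⟩
        exact ⟨P, hP, hv⟩
      · rintro ⟨P, hP, hv⟩
        exact ⟨P, hP, hv⟩
    rw [hval]
    exact (hfin.image _).preimage (Nat.cast_injective.injOn)

end Pool.Agent.Lib.MP_ff4e96_coG
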