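import Pool.Agent.Lib.MP_ff4e96_coG.Glob

/-!
# MP_ff4e96_co: the leading form of a packing polynomial, all degrees

`lead_zero`: a packing polynomial of degree at least 3 on a rational sector has a leading form with a zero `t` in the
closed sector which is irrational or has multiplicity at least 4.
-/

namespace Pool.Agent.Lib.MP_ff4e96_coG

open Filter Topology Pool.Agent.Lib.MP_ff4e96_co

theorem packing_NI {α : ℚ} (hα : 0 < α) {F : MvPolynomial (Fin 2) ℝ} (hF : IsPacking α F) :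
    (∀ m : ℕ, ∃ P ∈ Cone α, FF F P = m) ∧ NI (FF F) (Cone α) := by
  obtain ⟨hmaps, hinj, hsurj⟩ := hF
  have hval : ∀ P : ℕ × ℕ, FF F ((P.1 : ℤ), (P.2 : ℤ)) =
      MvPolynomial.eval ![(P.1 : ℝ), (P.2 : ℝ)] F := by
    intro P
    simp [FF]
  have hmem : ∀ P : ℕ × ℕ, (((P.1 : ℤ), (P.2 : ℤ)) : ℤ × ℤ) ∈ Cone α ↔ (P.2 : ℝ) ≤ (α : ℝ) * P.1 := by
    intro P
    constructor
    · rintro ⟨-, h⟩
      have h' : ((P.2 : ℚ)) ≤ α * (P.1 : ℚ) := by simpa using h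
      exact_mod_cast h'
    · intro h
      refine ⟨by simp, ?_⟩
      have h' : ((P.2 : ℚ)) ≤ α * (P.1 : ℚ) := by exact_mod_cast h
      simpa using h'
  have hlift : ∀ P ∈ Cone α, ∃ Q : ℕ × ℕ, P = ((Q.1 : ℤ), (Q.2 : ℤ)) := by
    rintro ⟨a, b⟩ ⟨h0, h1⟩
    simp only at h0 h1
    have ha : 0 ≤ a := by
      by_contra hneg
      push Not at hneg
      have h3 : (a : ℚ) < 0 := by exact_mod_cast hneg
      have h4 : α * (a : ℚ) < 0 := mul_neg_of_pos_of_neg hα h3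
      have h5 : (0 : ℚ) ≤ (b : ℚ) := by exact_mod_cast h0
      linarith
    refine ⟨(a.toNat, b.toNat), ?_⟩
    simp [Int.toNat_of_nonneg ha, Int.toNat_of_nonneg h0]
  refine ⟨?_, ?_, ?_⟩
  · intro m
    obtain ⟨P, hP, hPm⟩ := hsurj (Set.mem_range_self m)
    refine ⟨((P.1 : ℤ), (P.2 : ℤ)), (hmem P).2 hP, ?_⟩
    rw [hval]
    exact hPm
  · intro P hP
    obtain ⟨Q, rfl⟩ := hlift P hP
    obtain ⟨v, hv⟩ := hmaps (show Q ∈ {P : ℕ × ℕ | (P.2 : ℝ) ≤ (α : ℝ) * P.1} from (hmem Q).1 hP)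
    exact ⟨v, by rw [hval]; exact hv.symm⟩
  · intro P hP P' hP' hPP
    obtain ⟨Q, rfl⟩ := hlift P hP
    obtain ⟨Q', rfl⟩ := hlift P' hP'
    rw [hval, hval] at hPP
    have := hinj (show Q ∈ {P : ℕ × ℕ | (P.2 : ℝ) ≤ (α : ℝ) * P.1} from (hmem Q).1 hP)
      (show Q' ∈ {P : ℕ × ℕ | (P.2 : ℝ) ≤ (α : ℝ) * P.1} from (hmem Q').1 hP') hPP
    rw [this]

theorem lead_zero {α : ℚ} (hα : 0 < α) {F : MvPolynomial (Fin 2) ℝ} (hF : IsPacking α F)
    (h3 : 3 ≤ F.totalDegree) : ∃ t : ℝ, 0 ≤ t ∧ t ≤ α ∧ (dh F F.totalDegree).IsRoot t ∧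
      (Irrational t ∨ 4 ≤ (dh F F.totalDegree).rootMultiplicity t) := by
  by_contra hcon
  push Not at hcon
  have h6 : 6 ≤ F.totalDegree := by
    rcases no_packing hα F hF with h | h
    · omega
    · exact h
  obtain ⟨hsur, hNI⟩ := packing_NI hα hF
  have hF0 : F ≠ 0 := by
    rintro rfl
    simp at h6
  have hdh0 := dh_ne_zero F hF0
  refine main_of_loc hα h3 hsur hNI fun t h0 h1 ht η hη => ?_
  obtain ⟨hirr, hm⟩ := hcon t h0 h1 ht
  rw [Irrational, not_not] at hirr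
  obtain ⟨q, hq⟩ := hirr
  subst hq
  refine loc_ratG hα h6 hNI (by exact_mod_cast h0) (by exact_mod_cast h1) ?_ (by omega) hη
  exact (Polynomial.rootMultiplicity_pos hdh0).2 ht

end Pool.Agent.Lib.MP_ff4e96_coG
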