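import Pool.Agent.Lib.MP_ff4e96_coG.LeadZero
import Pool.Agent.Lib.MP_ff4e96_coG.Irr5

/-!
# MP_ff4e96_co: the leading form of a packing polynomial, all degrees

`lead_zero2`: a packing polynomial of degree at least 3 on a rational sector has a leading form with a zero `t` in the
closed sector which has multiplicity at least 4 or which is irrational and not a root of a quadratic polynomial with
rational coefficients.
-/

namespace Pool.Agent.Lib.MP_ff4e96_coG

open Filter Topology Pool.Agent.Lib.MP_ff4e96_co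

theorem lead_zero2 {α : ℚ} (hα : 0 < α) {F : MvPolynomial (Fin 2) ℝ} (hF : IsPacking α F)
    (h3 : 3 ≤ F.totalDegree) : ∃ t : ℝ, 0 ≤ t ∧ t ≤ α ∧ (dh F F.totalDegree).IsRoot t ∧
      (4 ≤ (dh F F.totalDegree).rootMultiplicity t ∨
        (Irrational t ∧ ∀ a b : ℚ, t ^ 2 + b * t + a ≠ 0)) := by
  by_contra hcon
  push Not at hcon
  have h6 : 6 ≤ F.totalDegree := by
    rcases no_packing hα F hF with h | h
    · omega
    · exact h
  obtain ⟨hsur, hNI⟩ := packing_NI hα hF
  have hF0 : F ≠ 0 := by
    rintro rfl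
    simp at h6
  have hdh0 := dh_ne_zero F hF0
  refine main_of_loc hα h3 hsur hNI fun t h0 h1 ht η hη => ?_
  obtain ⟨hm, hirr⟩ := hcon t h0 h1 ht
  by_cases hi : Irrational t
  · obtain ⟨a, b, hg⟩ := hirr hi
    exact loc_irrG hα h6 hNI h0 h1 hi hg ht (by omega) hη
  · rw [Irrational, not_not] at hi
    obtain ⟨q, hq⟩ := hi
    subst hq
    refine loc_ratG hα h6 hNI (by exact_mod_cast h0) (by exact_mod_cast h1) ?_ (by omega) hη
    exact (Polynomial.rootMultiplicity_pos hdh0).2 ht

end Pool.Agent.Lib.MP_ff4e96_coG
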