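import Pool.Agent.Lib.MP_ff4e96_coG.Row

/-!
# MP_ff4e96_co: neighbourhood of a rational zero of multiplicity at most 3

`loc_ratG`: the set of values near a rational zero direction of multiplicity at most 3 of the leading form is tame
(all degrees at least 6).
-/

namespace Pool.Agent.Lib.MP_ff4e96_coG

open Filter Topology Polynomial Pool.Agent.Lib.MP_ff4e96_co

theorem loc_ratG {F : MvPolynomial (Fin 2) ℝ} {α : ℚ} (hα : 0 < α) (hD : 6 ≤ F.totalDegree)
    (hNI : NI (FF F) (Cone α)) {t : ℚ} (h0 : 0 ≤ t) (h1 : t ≤ α)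
    (hm1 : 1 ≤ (dh F F.totalDegree).rootMultiplicity (t : ℝ))
    (hm3 : (dh F F.totalDegree).rootMultiplicity (t : ℝ) ≤ 3) {η : ℝ} (hη : 0 < η) :
    ∃ S : Set (ℤ × ℤ), S ⊆ Cone α ∧ S ⊆ Near t η 1 ∧ Tame (vals (FF F) S) ∧
      ∃ ε : ℝ, 0 < ε ∧ ∃ X₀ : ℤ, Cone α ∩ Near t ε X₀ ⊆ S := by
  classical
  have hF0 : F ≠ 0 := by
    rintro rfl
    simp at hD
  have hdh0 := dh_ne_zero F hF0
  obtain ⟨g, hg, hgd⟩ := Polynomial.exists_eq_pow_rootMultiplicity_mul_and_not_dvd
    (dh F F.totalDegree) hdh0 (t : ℝ)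
  have hg0 : g.eval (t : ℝ) ≠ 0 := fun h => hgd (dvd_iff_isRoot.2 h)
  set p : ℤ := t.num with hp
  set q : ℤ := (t.den : ℤ) with hq
  have hq0 : 0 < q := by
    rw [hq]
    exact_mod_cast t.den_pos
  have hpq : IsCoprime p q := by
    rw [hp, hq, Int.isCoprime_iff_nat_coprime, Int.natAbs_natCast]
    exact t.reduced
  have hp0 : 0 ≤ p := Rat.num_nonneg.2 h0
  have htq : t * (q : ℚ) = p := by
    rw [hq, hp]
    exact_mod_cast Rat.mul_den_eq_num t
  have hqQ : (0 : ℚ) < q := by exact_mod_cast hq0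
  have hqR : (0 : ℝ) < q := by exact_mod_cast hq0
  have hpα : (p : ℚ) ≤ α * q := by
    rw [← htq]
    exact mul_le_mul_of_nonneg_right h1 hqQ.le
  have ht : ((p : ℝ) / q) = (t : ℝ) := by
    rw [div_eq_iff hqR.ne']
    exact_mod_cast htq.symm
  -- the lower bounds on both sides
  have hside : ∀ σ : ℤ, (σ = 1 ∨ σ = -1) → ∃ K X₀ ε c : ℝ, 0 < K ∧ 1 ≤ X₀ ∧ 0 < ε ∧ 0 < c ∧
      ∀ x y : ℤ, (x, y) ∈ Cone α → X₀ ≤ x → K ≤ σ * ((y : ℝ) - t * x) →
        σ * ((y : ℝ) - t * x) ≤ ε * x → c * (x : ℝ) ^ 3 ≤ FF F (x, y) := by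
    intro σ hσ
    by_cases hc : (σ = 1 → (p : ℚ) < α * q) ∧ (σ = -1 → 0 < p)
    · obtain ⟨K, X₀, ε, c, hK, hX₀, hε, hc', hl⟩ := side_low hα hD hNI hq0 hpq hp0 hpα hm1 hm3
        (by rw [ht]; exact hg) (by rw [ht]; exact hg0) σ hσ hc.1 hc.2
      rw [ht] at hl
      exact ⟨K, X₀, ε, c, hK, hX₀, hε, hc', fun x y _ h2 h3 h4 => hl x y h2 h3 h4⟩
    · refine ⟨1, 1, 1, 1, one_pos, le_rfl, one_pos, one_pos, fun x y hxy hx hK _ => ?_⟩
      exfalso
      apply hc
      obtain ⟨hy0, hyα⟩ := hxy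
      simp only at hy0 hyα
      have hx0 : (0 : ℚ) < x := by
        have : (0 : ℝ) < x := by linarith
        exact_mod_cast this
      constructor
      · intro h2
        refine lt_of_le_of_ne hpα fun h3 => ?_
        have h4 : t = α := by
          have h5 : t * (q : ℚ) = α * q := by rw [htq, h3]
          exact mul_right_cancel₀ hqQ.ne' h5
        rw [h2] at hK
        push_cast at hK
        have h5 : (y : ℝ) ≤ α * x := by exact_mod_cast hyα
        rw [h4] at hK
        linarith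
      · intro h2
        refine lt_of_le_of_ne hp0 fun h3 => ?_
        have h4 : t = 0 := by
          rw [← h3] at htq
          push_cast at htq
          rcases mul_eq_zero.1 htq with h5 | h5
          · exact h5
          · exact absurd h5 hqQ.ne'
        rw [h2, h4] at hK
        push_cast at hK
        have h5 : (0 : ℝ) ≤ y := by exact_mod_cast hy0
        linarith
  obtain ⟨K₁, X₁, ε₁, c₁, hK₁, hX₁, hε₁, hc₁, hl₁⟩ := hside 1 (Or.inl rfl)
  obtain ⟨K₂, X₂, ε₂, c₂, hK₂, hX₂, hε₂, hc₂, hl₂⟩ := hside (-1) (Or.inr rfl)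
  -- the rows
  obtain ⟨M, hM⟩ : ∃ M : ℤ, (q : ℝ) * max K₁ K₂ ≤ M := ⟨⌈(q : ℝ) * max K₁ K₂⌉, Int.le_ceil _⟩
  have hcone : ∀ w : ℤ, ∃ X₀ : ℤ, ((0 ≤ w ∨ 0 < p) → (w ≤ 0 ∨ (p : ℚ) < α * q) →
      ∀ x y : ℤ, X₀ ≤ x → q * y - p * x = w → (x, y) ∈ Cone α) := by
    intro w
    by_cases hc : (0 ≤ w ∨ 0 < p) ∧ (w ≤ 0 ∨ (p : ℚ) < α * q)
    · obtain ⟨X₀, -, h2⟩ := row_cone hq0 hp0 hpα w hc.1 hc.2
      exact ⟨X₀, fun _ _ => h2⟩
    · exact ⟨0, fun h2 h3 => absurd ⟨h2, h3⟩ hc⟩
  choose XX hXX using hcone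
  obtain ⟨N, hN⟩ := ((Finset.Icc (-M) M).image XX).exists_le
  set ε : ℝ := min η (min ε₁ ε₂) with hε
  have hε0 : 0 < ε := lt_min hη (lt_min hε₁ hε₂)
  obtain ⟨X₀, hX₀⟩ : ∃ X₀ : ℤ, max (max N 1) (max ⌈max X₁ X₂⌉ ⌈(M : ℝ) / q / ε⌉) ≤ X₀ := ⟨_, le_rfl⟩
  have hX₀N : N ≤ X₀ := ((le_max_left _ _).trans (le_max_left _ _)).trans hX₀
  have hX₀1 : 1 ≤ X₀ := ((le_max_right _ _).trans (le_max_left _ _)).trans hX₀
  have hX₀2 : ⌈max X₁ X₂⌉ ≤ X₀ := ((le_max_left _ _).trans (le_max_right _ _)).trans hX₀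
  have hX₀3 : ⌈(M : ℝ) / q / ε⌉ ≤ X₀ := ((le_max_right _ _).trans (le_max_right _ _)).trans hX₀
  have hX₀2' : max X₁ X₂ ≤ (X₀ : ℝ) := (Int.le_ceil _).trans (by exact_mod_cast hX₀2)
  have hX₀3' : (M : ℝ) / q / ε ≤ (X₀ : ℝ) := (Int.le_ceil _).trans (by exact_mod_cast hX₀3)
  set S : Set (ℤ × ℤ) := Cone α ∩ Near t ε X₀ with hS
  refine ⟨S, Set.inter_subset_left, ?_, ?_, ε, hε0, X₀, le_rfl⟩
  · rintro ⟨x, y⟩ ⟨-, hx, hy⟩
    simp only at hx hy
    have hx0 : (0 : ℝ) ≤ x := by
      have : (1 : ℝ) ≤ x := by exact_mod_cast hX₀1.trans hx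
      linarith
    exact ⟨hX₀1.trans hx, hy.trans (mul_le_mul_of_nonneg_right (min_le_left _ _) hx0)⟩
  · have hdec : vals (FF F) S ⊆ vals (FF F) {P | P ∈ S ∧ M < |q * P.2 - p * P.1|} ∪
        ⋃ w ∈ Finset.Icc (-M) M, vals (FF F) {P | P ∈ S ∧ q * P.2 - p * P.1 = w} := by
      rintro v ⟨P, hP, hv⟩
      by_cases hc : M < |q * P.2 - p * P.1|
      · exact Or.inl ⟨P, ⟨hP, hc⟩, hv⟩
      · right
        simp only [Set.mem_iUnion]
        refine ⟨q * P.2 - p * P.1, ?_, P, ⟨hP, rfl⟩, hv⟩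
        rw [Finset.mem_Icc]
        exact abs_le.1 (not_lt.1 hc)
    have hdec' : vals (FF F) S = vals (FF F) {P | P ∈ S ∧ M < |q * P.2 - p * P.1|} ∪
        ⋃ w ∈ Finset.Icc (-M) M, vals (FF F) {P | P ∈ S ∧ q * P.2 - p * P.1 = w} := by
      refine Set.Subset.antisymm hdec ?_
      rintro v (⟨P, hP, hv⟩ | hv)
      · exact ⟨P, hP.1, hv⟩
      · simp only [Set.mem_iUnion] at hv
        obtain ⟨w, _, P, hP, hv⟩ := hv
        exact ⟨P, hP.1, hv⟩
    rw [hdec']
    refine tame_union (tame_of_null ?_) (tame_iUnion _ _ fun w hw => ?_)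
    · refine null_D (α : ℝ) (c := min c₁ c₂) (lt_min hc₁ hc₂) ?_
      rintro ⟨x, y⟩ ⟨⟨hPc, hx, hy⟩, hMw⟩
      simp only at hx hy hMw
      have hx1 : 1 ≤ x := hX₀1.trans hx
      have hx1r : (1 : ℝ) ≤ x := by exact_mod_cast hx1
      have hxX : (X₀ : ℝ) ≤ x := by exact_mod_cast hx
      refine ⟨hx1, hPc.1, by exact_mod_cast hPc.2, ?_⟩
      simp only
      have hx3 : (0 : ℝ) ≤ (x : ℝ) ^ 3 := by positivity
      have hval : ((q * y - p * x : ℤ) : ℝ) = q * ((y : ℝ) - t * x) := by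
        push_cast
        have h5 : (p : ℝ) = t * q := by exact_mod_cast htq.symm
        rw [h5]
        ring
      have hMR : (M : ℝ) < |(q : ℝ) * ((y : ℝ) - t * x)| := by
        rw [← hval]
        exact_mod_cast hMw
      rw [abs_mul, abs_of_pos hqR] at hMR
      have hK : max K₁ K₂ ≤ |(y : ℝ) - t * x| := by
        have h5 : (q : ℝ) * max K₁ K₂ < q * |(y : ℝ) - t * x| := hM.trans_lt hMR
        exact (lt_of_mul_lt_mul_left h5 hqR.le).le
      rcases le_or_gt 0 ((y : ℝ) - t * x) with h5 | h5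
      · rw [abs_of_nonneg h5] at hK hy
        have h6 := hl₁ x y hPc (((le_max_left _ _).trans hX₀2').trans hxX)
          (by push_cast; linarith [le_max_left K₁ K₂]) (by
            push_cast
            have h7 : ε ≤ ε₁ := (min_le_right _ _).trans (min_le_left _ _)
            have h8 : ε * x ≤ ε₁ * x := mul_le_mul_of_nonneg_right h7 (by linarith)
            linarith)
        exact (mul_le_mul_of_nonneg_right (min_le_left _ _) hx3).trans h6
      · rw [abs_of_neg h5] at hK hy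
        have h6 := hl₂ x y hPc (((le_max_right _ _).trans hX₀2').trans hxX)
          (by push_cast; linarith [le_max_right K₁ K₂]) (by
            push_cast
            have h7 : ε ≤ ε₂ := (min_le_right _ _).trans (min_le_right _ _)
            have h8 : ε * x ≤ ε₂ * x := mul_le_mul_of_nonneg_right h7 (by linarith)
            linarith)
        exact (mul_le_mul_of_nonneg_right (min_le_right _ _) hx3).trans h6
    · by_cases hc : (0 ≤ w ∨ 0 < p) ∧ (w ≤ 0 ∨ (p : ℚ) < α * q)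
      · have hrow : ∀ x y : ℤ, X₀ ≤ x → q * y - p * x = w → (x, y) ∈ Cone α := by
          intro x y hx hxy
          refine hXX w hc.1 hc.2 x y (((hN _ (Finset.mem_image_of_mem XX hw)).trans hX₀N).trans hx) hxy
        have hset : {P : ℤ × ℤ | P ∈ S ∧ q * P.2 - p * P.1 = w} =
            {P | X₀ ≤ P.1 ∧ q * P.2 - p * P.1 = w} := by
          ext ⟨x, y⟩
          constructor
          · rintro ⟨⟨-, hx, -⟩, hxy⟩
            exact ⟨hx, hxy⟩
          · rintro ⟨hx, hxy⟩
            simp only at hx hxy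
            refine ⟨⟨hrow x y hx hxy, hx, ?_⟩, hxy⟩
            simp only
            have hxX : (X₀ : ℝ) ≤ x := by exact_mod_cast hx
            have hval : (q : ℝ) * ((y : ℝ) - t * x) = w := by
              have h5 : (p : ℝ) = t * q := by exact_mod_cast htq.symm
              have h6 : (q : ℝ) * y - p * x = w := by exact_mod_cast hxy
              rw [← h6, h5]
              ring
            have hwM : |(w : ℝ)| ≤ M := by
              have h5 : |w| ≤ M := abs_le.2 (Finset.mem_Icc.1 hw)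
              exact_mod_cast h5
            have h5 : (q : ℝ) * |(y : ℝ) - t * x| ≤ M := by
              have h6 : |(q : ℝ) * ((y : ℝ) - t * x)| ≤ M := by
                rw [hval]
                exact hwM
              rwa [abs_mul, abs_of_pos hqR] at h6
            have h6 : (M : ℝ) / q / ε ≤ x := hX₀3'.trans hxX
            rw [div_le_iff₀ hε0, div_le_iff₀ hqR] at h6
            have h7 : (q : ℝ) * |(y : ℝ) - t * x| ≤ q * (ε * x) := by
              calc (q : ℝ) * |(y : ℝ) - t * x| ≤ M := h5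
                _ ≤ x * ε * q := h6
                _ = q * (ε * x) := by ring
            exact le_of_mul_le_mul_left h7 hqR
        rw [hset]
        exact row_tame hNI hq0 hpq w X₀ hrow
      · have hset : {P : ℤ × ℤ | P ∈ S ∧ q * P.2 - p * P.1 = w} = ∅ := by
          rw [Set.eq_empty_iff_forall_notMem]
          rintro ⟨x, y⟩ ⟨⟨⟨hy0, hyα⟩, hx, -⟩, hxy⟩
          simp only at hy0 hyα hx hxy
          apply hc
          have hx1 : 1 ≤ x := hX₀1.trans hx
          have hxQ : (0 : ℚ) < x := by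
            have : (0 : ℤ) < x := by omega
            exact_mod_cast this
          constructor
          · by_contra hcon
            push Not at hcon
            have hp1 : p = 0 := le_antisymm hcon.2 hp0
            rw [hp1] at hxy
            have h5 := mul_nonneg hq0.le hy0
            linarith [hcon.1]
          · by_contra hcon
            push Not at hcon
            have hp1 : (p : ℚ) = α * q := le_antisymm hpα hcon.2
            have h5 : (q : ℚ) * y - p * x = w := by exact_mod_cast hxy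
            have h6 : (0 : ℚ) < w := by exact_mod_cast hcon.1
            have h7 : (q : ℚ) * y ≤ q * (α * x) := mul_le_mul_of_nonneg_left hyα hqQ.le
            rw [hp1] at h5
            linarith
        rw [hset]
        have h5 : vals (FF F) ∅ = ∅ := by
          rw [Set.eq_empty_iff_forall_notMem]
          rintro v ⟨P, hP, -⟩
          exact hP
        rw [h5]
        exact tame_of_evPer evPer_empty

end Pool.Agent.Lib.MP_ff4e96_coG
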