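import Pool.Agent.Lib.MP_ff4e96_coG.TLine
import Pool.Agent.Lib.MP_ff4e96_coG.Lead

/-!
# MP_ff4e96_co: lattice points on the lines `q y - p x = w`

`row_tame`: the values on such a ray (in the sector) are an arithmetic progression or have density zero.
`side_low`: `F ≥ c x³` on one side of a rational zero direction `p / q` of multiplicity at most 3, at distance at least
`K`.
-/

namespace Pool.Agent.Lib.MP_ff4e96_coG

open Filter Topology Polynomial Pool.Agent.Lib.MP_ff4e96_co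

theorem row_points {p q : ℤ} (hq : 0 < q) (hpq : IsCoprime p q) (w : ℤ) :
    ∃ x₁ y₁ : ℤ, q * y₁ - p * x₁ = w ∧
      ∀ x y : ℤ, q * y - p * x = w → ∃ n : ℤ, x = x₁ + n * q ∧ y = y₁ + n * p := by
  obtain ⟨a, b, hab⟩ := hpq
  refine ⟨-(a * w), b * w, by linear_combination w * hab, fun x y hxy => ?_⟩
  have h1 : q ∣ p * (x - -(a * w)) := by
    refine ⟨y - b * w, ?_⟩
    linear_combination -hxy + w * hab
  have h2 : IsCoprime q p := ⟨b, a, by linear_combination hab⟩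
  obtain ⟨n, hn⟩ := h2.dvd_of_dvd_mul_left h1
  refine ⟨n, by linear_combination hn, ?_⟩
  have h3 : q * y = q * (b * w + n * p) := by
    linear_combination hxy - w * hab + p * hn
  exact mul_left_cancel₀ hq.ne' h3

theorem row_tame {F : MvPolynomial (Fin 2) ℝ} {α : ℚ} (hNI : NI (FF F) (Cone α)) {p q : ℤ}
    (hq : 0 < q) (hpq : IsCoprime p q) (w X₀ : ℤ)
    (hX : ∀ x y : ℤ, X₀ ≤ x → q * y - p * x = w → (x, y) ∈ Cone α) :
    Tame (vals (FF F) {P | X₀ ≤ P.1 ∧ q * P.2 - p * P.1 = w}) := by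
  obtain ⟨x₁, y₁, h1, hall⟩ := row_points hq hpq w
  set g : ℝ[X] := MvPolynomial.aeval ![C (x₁ : ℝ) + C (q : ℝ) * X, C (y₁ : ℝ) + C (p : ℝ) * X] F
    with hg
  have hev : ∀ n : ℤ, g.eval (n : ℝ) = FF F (x₁ + n * q, y₁ + n * p) := by
    intro n
    rw [hg, eval_aeval, FF]
    congr 1
    congr 1
    funext i
    fin_cases i
    · simp
      ring
    · simp
      ring
  have hrow : ∀ n : ℤ, q * (y₁ + n * p) - p * (x₁ + n * q) = w := by
    intro n
    linear_combination h1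
  have hiff : ∀ n : ℤ, X₀ ≤ x₁ + n * q ↔ -((x₁ - X₀) / q) ≤ n := by
    intro n
    have h2 : -n ≤ (x₁ - X₀) / q ↔ -n * q ≤ x₁ - X₀ := Int.le_ediv_iff_mul_le hq
    have h3 : -((x₁ - X₀) / q) ≤ n ↔ -n ≤ (x₁ - X₀) / q := by
      constructor <;> intro h <;> linarith
    rw [h3, h2]
    constructor <;> intro h <;> linarith
  have hset : vals (FF F) {P | X₀ ≤ P.1 ∧ q * P.2 - p * P.1 = w} =
      {v : ℕ | ∃ t : ℤ, -((x₁ - X₀) / q) ≤ t ∧ g.eval (t : ℝ) = v} := by
    ext v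
    constructor
    · rintro ⟨⟨x, y⟩, ⟨hx, hxy⟩, hv⟩
      simp only at hx hxy
      obtain ⟨n, rfl, rfl⟩ := hall x y hxy
      exact ⟨n, (hiff n).1 hx, by rw [hev]; exact hv⟩
    · rintro ⟨n, hn, hv⟩
      exact ⟨(x₁ + n * q, y₁ + n * p), ⟨(hiff n).2 hn, hrow n⟩, by rw [← hev]; exact hv⟩
  rw [hset]
  refine tline g _ (fun n hn => ?_) (fun n n' hn hn' h => ?_)
  · obtain ⟨v, hv⟩ := hNI.1 _ (hX _ _ ((hiff n).2 hn) (hrow n))
    exact ⟨v, by rw [hev]; exact hv⟩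
  · rw [hev, hev] at h
    have h2 := hNI.2 (hX _ _ ((hiff n).2 hn) (hrow n)) (hX _ _ ((hiff n').2 hn') (hrow n')) h
    have h3 : x₁ + n * q = x₁ + n' * q := congrArg Prod.fst h2
    have h4 : n * q = n' * q := by linarith
    exact mul_right_cancel₀ hq.ne' h4

theorem row_cone {α : ℚ} {p q : ℤ} (hq : 0 < q) (hp : 0 ≤ p) (hpα : (p : ℚ) ≤ α * q) (w : ℤ)
    (hw1 : 0 ≤ w ∨ 0 < p) (hw2 : w ≤ 0 ∨ (p : ℚ) < α * q) :
    ∃ X₀ : ℤ, 1 ≤ X₀ ∧ ∀ x y : ℤ, X₀ ≤ x → q * y - p * x = w → (x, y) ∈ Cone α := by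
  refine ⟨max 1 (max |w| ⌈(|w| : ℚ) / (α * q - p)⌉), le_max_left _ _, fun x y hx hxy => ?_⟩
  have hx1 : 1 ≤ x := (le_max_left _ _).trans hx
  have hx2 : |w| ≤ x := ((le_max_left _ _).trans (le_max_right _ _)).trans hx
  have hx3 : ⌈(|w| : ℚ) / (α * q - p)⌉ ≤ x := ((le_max_right _ _).trans (le_max_right _ _)).trans hx
  have hqQ : (0 : ℚ) < q := by exact_mod_cast hq
  have hxQ : (0 : ℚ) < x := by
    have : (0 : ℤ) < x := by omega
    exact_mod_cast this
  have hxyQ : (q : ℚ) * y = p * x + w := by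
    have h : q * y = p * x + w := by linarith
    exact_mod_cast h
  constructor
  · show 0 ≤ y
    have h1 : 0 ≤ q * y := by
      have h2 : q * y = p * x + w := by linarith
      rw [h2]
      rcases hw1 with h | h
      · have := mul_nonneg hp (by omega : 0 ≤ x)
        linarith
      · have h3 : x ≤ p * x := le_mul_of_one_le_left (by omega) h
        have h4 := neg_abs_le w
        linarith
    exact nonneg_of_mul_nonneg_right h1 hq
  · show (y : ℚ) ≤ α * x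
    have h1 : (q : ℚ) * y ≤ q * (α * x) := by
      rw [hxyQ]
      rcases hw2 with h | h
      · have h2 : (w : ℚ) ≤ 0 := by exact_mod_cast h
        have h3 : (p : ℚ) * x ≤ α * q * x := mul_le_mul_of_nonneg_right hpα hxQ.le
        linarith
      · have h2 : (0 : ℚ) < α * q - p := by linarith
        have h3 : (|w| : ℚ) / (α * q - p) ≤ x := by
          refine (Int.le_ceil _).trans ?_
          exact_mod_cast hx3
        rw [div_le_iff₀ h2] at h3
        have h4 : (w : ℚ) ≤ |(w : ℚ)| := le_abs_self _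
        have h5 : ((|w| : ℤ) : ℚ) = |(w : ℚ)| := by push_cast; rfl
        linarith
    exact le_of_mul_le_mul_left h1 hqQ

/-- the lower bound on one side of a rational zero of multiplicity at most 3 -/
theorem side_low {F : MvPolynomial (Fin 2) ℝ} {α : ℚ} (hα : 0 < α) (hD : 6 ≤ F.totalDegree)
    (hNI : NI (FF F) (Cone α)) {p q : ℤ} (hq : 0 < q) (hpq : IsCoprime p q) (hp : 0 ≤ p)
    (hpα : (p : ℚ) ≤ α * q) {m : ℕ} (hm1 : 1 ≤ m) (hm3 : m ≤ 3) {g : ℝ[X]}
    (hg : dh F F.totalDegree = (X - C ((p : ℝ) / q)) ^ m * g) (hg0 : g.eval ((p : ℝ) / q) ≠ 0)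
    (σ : ℤ) (hσ : σ = 1 ∨ σ = -1) (hs1 : σ = 1 → (p : ℚ) < α * q) (hs2 : σ = -1 → 0 < p) :
    ∃ K X₀ ε c : ℝ, 0 < K ∧ 1 ≤ X₀ ∧ 0 < ε ∧ 0 < c ∧ ∀ x y : ℤ, X₀ ≤ x →
      K ≤ σ * ((y : ℝ) - p / q * x) → σ * ((y : ℝ) - p / q * x) ≤ ε * x →
        c * (x : ℝ) ^ 3 ≤ FF F (x, y) := by
  obtain ⟨n, hn⟩ : ∃ n, F.totalDegree = n + 3 := ⟨F.totalDegree - 3, by omega⟩
  have hqR : (0 : ℝ) < q := by exact_mod_cast hq
  have hσσ : (σ : ℝ) * σ = 1 := by
    rcases hσ with rfl | rfl <;> norm_num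
  set t₀ : ℝ := (p : ℝ) / q with ht₀
  have ht₀0 : 0 ≤ t₀ := by
    have : (0 : ℝ) ≤ p := by exact_mod_cast hp
    positivity
  have ht₀α : t₀ ≤ α := by
    rw [ht₀, div_le_iff₀ hqR]
    exact_mod_cast hpα
  set φ : ℕ → ℝ[X] := fun k => (dh F k).comp (C t₀ + C (σ : ℝ) * X) with hφ
  have hφev : ∀ (k : ℕ) (r : ℝ), (φ k).eval r = (dh F k).eval (t₀ + σ * r) := by
    intro k r
    rw [hφ]
    simp [eval_comp]
  set h : ℝ[X] := C ((σ : ℝ) ^ m) * g.comp (C t₀ + C (σ : ℝ) * X) with hh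
  have hφD : φ (n + 3) = X ^ m * h := by
    rw [hφ, hh, ← hn]
    show (dh F F.totalDegree).comp (C t₀ + C (σ : ℝ) * X) = _
    rw [hg, mul_comp, pow_comp, sub_comp, X_comp, C_comp, C_pow]
    ring
  have hh0 : h.eval 0 = (σ : ℝ) ^ m * g.eval t₀ := by
    rw [hh]
    simp [eval_comp]
  have hne : h.eval 0 ≠ 0 := by
    rw [hh0]
    refine mul_ne_zero (pow_ne_zero _ ?_) hg0
    rcases hσ with rfl | rfl <;> norm_num
  -- a small interval on this side
  obtain ⟨δ, hδ, hδc⟩ : ∃ δ : ℝ, 0 < δ ∧ ∀ r : ℝ, 0 ≤ r → r ≤ δ →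
      0 ≤ t₀ + σ * r ∧ t₀ + σ * r ≤ α := by
    rcases hσ with h1 | h1
    · have h2 : t₀ < α := by
        rw [ht₀, div_lt_iff₀ hqR]
        exact_mod_cast hs1 h1
      refine ⟨α - t₀, sub_pos.2 h2, fun r hr hrδ => ?_⟩
      rw [h1]
      push_cast
      constructor <;> linarith
    · have h2 : 0 < t₀ := by
        have h3 : (0 : ℝ) < p := by exact_mod_cast hs2 h1
        positivity
      refine ⟨t₀, h2, fun r hr hrδ => ?_⟩
      rw [h1]
      push_cast
      constructor <;> linarith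
  have hnn := lead_nonneg hα (by omega) hNI
  have h0 : 0 < h.eval 0 := by
    refine lt_of_le_of_ne ?_ hne.symm
    by_contra hneg
    push Not at hneg
    have hc : ContinuousAt (fun r => h.eval r) 0 := h.continuous.continuousAt
    have h1 : ∀ᶠ r in 𝓝 (0 : ℝ), h.eval r < 0 := hc.eventually (gt_mem_nhds hneg)
    obtain ⟨δ', hδ', hb⟩ := Metric.eventually_nhds_iff.1 h1
    set r : ℝ := min δ (δ' / 2) with hr
    have hr0 : 0 < r := lt_min hδ (by linarith)
    have hr1 : r ≤ δ := min_le_left _ _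
    have hr2 : r ≤ δ' / 2 := min_le_right _ _
    have h2 : h.eval r < 0 := hb (by
      rw [Real.dist_eq, sub_zero, abs_of_pos hr0]
      linarith)
    have h3 := hnn _ (hδc r hr0.le hr1).1 (hδc r hr0.le hr1).2
    rw [← hφev, hn, hφD, eval_mul, eval_pow, eval_X] at h3
    have h4 : r ^ m * h.eval r < 0 := mul_neg_of_pos_of_neg (pow_pos hr0 m) h2
    linarith
  have hrep : ∀ x y : ℤ, (0 : ℝ) < x → ∀ r : ℝ, (y : ℝ) / x = t₀ + σ * r →
      FF F (x, y) = ∑ k ∈ Finset.range (n + 4), (x : ℝ) ^ k * (φ k).eval r := by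
    intro x y hx r hr
    show MvPolynomial.eval ![(x : ℝ), (y : ℝ)] F = _
    rw [rep F hx.ne', hn]
    refine Finset.sum_congr rfl fun k _ => ?_
    rw [hφev, hr]
  obtain ⟨K, X₀, ε, c, hK, hX₀, hε, hc, hlow⟩ := lower (n := n) hm1 hm3 (by omega) φ h hφD h0
    {u : ℝ | ∃ z : ℕ, 1 ≤ z ∧ u = z / q} (fun M => by
      obtain ⟨z, hz⟩ := exists_nat_gt (max (M * q) 1)
      have hz1 : (1 : ℝ) < z := (le_max_right _ _).trans_lt hz
      have hz2 : M * q < z := (le_max_left _ _).trans_lt hz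
      refine ⟨z / q, ⟨z, by exact_mod_cast hz1.le, rfl⟩, ?_⟩
      rw [le_div_iff₀ hqR]
      exact hz2.le) (by
      rintro u ⟨z, hz1, rfl⟩
      rw [frequently_atTop]
      intro a
      obtain ⟨X₁, hX₁, hcone⟩ := row_cone hq hp hpα (σ * z) (by
        rcases hσ with h1 | h1
        · left
          rw [h1]
          positivity
        · exact Or.inr (hs2 h1)) (by
        rcases hσ with h1 | h1
        · exact Or.inr (hs1 h1)
        · left
          rw [h1]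
          have : (0 : ℤ) ≤ z := by positivity
          linarith)
      obtain ⟨x₁, y₁, h1, -⟩ := row_points hq hpq (σ * z)
      obtain ⟨N, hN⟩ : ∃ N : ℤ, max X₁ (max ⌈a⌉ 1) ≤ N := ⟨_, le_rfl⟩
      have hN1 : X₁ ≤ N := (le_max_left _ _).trans hN
      have hN2 : ⌈a⌉ ≤ N := ((le_max_left _ _).trans (le_max_right _ _)).trans hN
      have hN3 : 1 ≤ N := ((le_max_right _ _).trans (le_max_right _ _)).trans hN
      set k : ℤ := |x₁| + N with hk
      have hk0 : 0 ≤ k := by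
        have := abs_nonneg x₁
        omega
      have hxN : N ≤ x₁ + k * q := by
        have h2 : k ≤ k * q := le_mul_of_one_le_right hk0 hq
        have h3 := neg_abs_le x₁
        omega
      have hrow : q * (y₁ + k * p) - p * (x₁ + k * q) = σ * z := by linear_combination h1
      have hP := hcone _ _ (hN1.trans hxN) hrow
      have hxR : (N : ℝ) ≤ ((x₁ + k * q : ℤ) : ℝ) := by exact_mod_cast hxN
      have hNR : (1 : ℝ) ≤ N := by exact_mod_cast hN3
      have hx0 : (0 : ℝ) < ((x₁ + k * q : ℤ) : ℝ) := by linarith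
      refine ⟨((x₁ + k * q : ℤ) : ℝ), ?_, ?_⟩
      · have h2 : a ≤ (⌈a⌉ : ℝ) := Int.le_ceil a
        have h3 : (⌈a⌉ : ℝ) ≤ N := by exact_mod_cast hN2
        show a ≤ _
        linarith
      · rw [← hrep (x₁ + k * q) (y₁ + k * p) hx0 ((z : ℝ) / q / ((x₁ + k * q : ℤ) : ℝ)) ?_]
        · exact hNI.nonneg hP
        · have h2 : (q : ℝ) * ((y₁ + k * p : ℤ) : ℝ) - p * ((x₁ + k * q : ℤ) : ℝ) = σ * z := by
            exact_mod_cast hrow
          rw [ht₀]
          field_simp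
          linear_combination h2)
  refine ⟨K, X₀, ε, c, hK, hX₀, hε, hc, fun x y hx hKr hrε => ?_⟩
  have hx0 : (0 : ℝ) < x := by linarith
  have h1 := hlow (x : ℝ) (σ * ((y : ℝ) - t₀ * x) / x) hx (by
    rw [mul_div_cancel₀ _ hx0.ne']
    exact hKr) (by
    rw [div_le_iff₀ hx0]
    exact hrε)
  rw [hrep x y hx0 (σ * ((y : ℝ) - t₀ * x) / x) ?_]
  · exact h1
  · have h2 : (σ : ℝ) * (σ * ((y : ℝ) - t₀ * x) / x) = (σ * σ) * ((y : ℝ) - t₀ * x) / x := by ring
    rw [h2, hσσ]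
    field_simp
    ring

end Pool.Agent.Lib.MP_ff4e96_coG
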