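import Pool.Agent.Lib.MP_ff4e96_co.NFdef

/-!
# MP_ff4e96_co: values of a real polynomial in one variable

`tline`: the version of `tame_line` for polynomials with real coefficients. `f` takes natural values at the
integers `t ≥ t₀` and is injective there; its set of values is an arithmetic progression (degree one) or
has density zero (degree at least two).
-/

namespace Pool.Agent.Lib.MP_ff4e96_coG

open Filter Topology Pool.Agent.Lib.MP_ff4e96_co

private theorem tline_one (f : Polynomial ℝ) (t₀ : ℤ)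
    (hN : ∀ t : ℤ, t₀ ≤ t → ∃ v : ℕ, f.eval (t : ℝ) = v)
    (hinj : ∀ t t' : ℤ, t₀ ≤ t → t₀ ≤ t' → f.eval (t : ℝ) = f.eval (t' : ℝ) → t = t')
    (h1 : f.natDegree ≤ 1) :
    Tame {v : ℕ | ∃ t : ℤ, t₀ ≤ t ∧ f.eval (t : ℝ) = v} := by
  obtain ⟨a, b, hf⟩ := Polynomial.exists_eq_X_add_C_of_natDegree_le_one h1
  have hev : ∀ t : ℝ, f.eval t = a * t + b := by
    intro t
    rw [hf]
    simp
  obtain ⟨v0, hv0⟩ := hN t₀ le_rfl
  obtain ⟨v1, hv1⟩ := hN (t₀ + 1) (by omega)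
  obtain ⟨m, hm⟩ : ∃ m : ℤ, m = (v1 : ℤ) - v0 := ⟨_, rfl⟩
  have ham : a = (m : ℝ) := by
    rw [hm]
    push_cast
    rw [← hv1, ← hv0, hev, hev]
    push_cast
    ring
  have hk : ∀ k : ℕ, f.eval ((t₀ + k : ℤ) : ℝ) = ((v0 + k * m : ℤ) : ℝ) := by
    intro k
    have h := hv0
    rw [hev] at h ⊢
    push_cast
    rw [← h, ham]
    ring
  have hm0 : 0 ≤ m := by
    by_contra hneg
    obtain ⟨w, hw⟩ := hN (t₀ + ((v0 + 1 : ℕ) : ℤ)) (by omega)
    rw [hk] at hw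
    have hw' : ((v0 : ℤ) + ((v0 + 1 : ℕ) : ℤ) * m) = (w : ℤ) := by exact_mod_cast hw
    push_cast at hw'
    have h1 : m ≤ -1 := by omega
    nlinarith
  have hmne : m ≠ 0 := by
    intro h0
    have h := hinj t₀ (t₀ + 1) le_rfl (by omega) (by
      rw [hev, hev, ham, h0]
      simp)
    omega
  obtain ⟨mn, hmn⟩ := Int.eq_ofNat_of_zero_le hm0
  refine tame_of_evPer ?_
  have hset : {v : ℕ | ∃ t : ℤ, t₀ ≤ t ∧ f.eval (t : ℝ) = v} = {v | ∃ t : ℕ, v = mn * t + v0} := by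
    ext v
    constructor
    · rintro ⟨t, ht, hv⟩
      obtain ⟨k, rfl⟩ : ∃ k : ℕ, t = t₀ + k := ⟨(t - t₀).toNat, by omega⟩
      refine ⟨k, ?_⟩
      rw [hk] at hv
      have hv' : ((v0 : ℤ) + (k : ℤ) * m) = (v : ℤ) := by exact_mod_cast hv
      rw [hmn] at hv'
      have h2 : v0 + k * mn = v := by exact_mod_cast hv'
      rw [← h2]
      ring
    · rintro ⟨k, rfl⟩
      refine ⟨t₀ + k, by omega, ?_⟩
      rw [hk, hmn]
      push_cast
      ring
  rw [hset]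
  exact evPer_ap mn v0 (by omega)

theorem tline (f : Polynomial ℝ) (t₀ : ℤ)
    (hN : ∀ t : ℤ, t₀ ≤ t → ∃ v : ℕ, f.eval (t : ℝ) = v)
    (hinj : ∀ t t' : ℤ, t₀ ≤ t → t₀ ≤ t' → f.eval (t : ℝ) = f.eval (t' : ℝ) → t = t') :
    Tame {v : ℕ | ∃ t : ℤ, t₀ ≤ t ∧ f.eval (t : ℝ) = v} := by
  rcases le_or_gt f.natDegree 1 with h1 | h2
  · exact tline_one f t₀ hN hinj h1
  have hf0 : f ≠ 0 := by
    rintro rfl
    simp at h2
  have hdeg : (Polynomial.X : Polynomial ℝ).degree < f.degree := by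
    rw [Polynomial.degree_X, Polynomial.degree_eq_natDegree hf0]
    exact_mod_cast h2
  have hdeg0 : 0 < f.degree := by
    rw [Polynomial.degree_eq_natDegree hf0]
    have : 0 < f.natDegree := by omega
    exact_mod_cast this
  have hlc : 0 < f.leadingCoeff := by
    by_contra hneg
    have hneg' : f.leadingCoeff ≤ 0 := not_lt.1 hneg
    have htb := Polynomial.tendsto_atBot_of_leadingCoeff_nonpos f hdeg0 hneg'
    obtain ⟨a, ha⟩ := eventually_atTop.1 (htb.eventually (eventually_lt_atBot 0))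
    have h := ha ((max t₀ ⌈a⌉ : ℤ) : ℝ) (by
      have h1 : (⌈a⌉ : ℝ) ≤ ((max t₀ ⌈a⌉ : ℤ) : ℝ) := by exact_mod_cast le_max_right _ _
      exact (Int.le_ceil a).trans h1)
    obtain ⟨v, hv⟩ := hN (max t₀ ⌈a⌉) (le_max_left _ _)
    rw [hv] at h
    exact absurd (Nat.cast_nonneg v) (not_le.2 h)
  refine tame_of_null ?_
  intro ε hε
  obtain ⟨A, hA⟩ := exists_nat_gt (2 / ε)
  have hA0 : (0 : ℝ) < A := lt_trans (by positivity) hA
  have hA0' : 0 < A := by exact_mod_cast hA0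
  have htt := Polynomial.div_tendsto_atTop_of_degree_gt f Polynomial.X hdeg Polynomial.X_ne_zero
    (by simpa using hlc.le)
  obtain ⟨a, ha⟩ := eventually_atTop.1 (htt.eventually (eventually_ge_atTop (A : ℝ)))
  obtain ⟨T, hT⟩ : ∃ T : ℤ, T = max (max t₀ 1) ⌈a⌉ := ⟨_, rfl⟩
  have hT0 : t₀ ≤ T := by rw [hT]; exact (le_max_left _ _).trans (le_max_left _ _)
  have hT1 : 1 ≤ T := by rw [hT]; exact (le_max_right _ _).trans (le_max_left _ _)
  have hTa : a ≤ (T : ℝ) := by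
    refine (Int.le_ceil a).trans ?_
    rw [hT]
    exact_mod_cast le_max_right _ _
  have hgrow : ∀ t : ℤ, T ≤ t → (A : ℝ) * t ≤ f.eval (t : ℝ) := by
    intro t ht
    have h1 : (T : ℝ) ≤ t := by exact_mod_cast ht
    have h2 := ha (t : ℝ) (hTa.trans h1)
    have h3 : (0 : ℝ) < t := by
      have : (1 : ℤ) ≤ t := hT1.trans ht
      exact_mod_cast lt_of_lt_of_le one_pos this
    simp only [Polynomial.eval_X] at h2
    rwa [le_div_iff₀ h3] at h2
  have hcount : ∀ n : ℕ, (({v : ℕ | ∃ t : ℤ, t₀ ≤ t ∧ f.eval (t : ℝ) = v} ∩ Set.Iic n).ncard : ℝ)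
      ≤ (T - t₀ + 1 : ℤ) + (n : ℝ) / A := by
    intro n
    obtain ⟨q, hq⟩ : ∃ q : ℕ, q = n / A := ⟨_, rfl⟩
    have hsub : ({v : ℕ | ∃ t : ℤ, t₀ ≤ t ∧ f.eval (t : ℝ) = v} ∩ Set.Iic n) ⊆
        (((Finset.Icc t₀ (T + (q : ℤ))).image
          (fun t : ℤ => ⌊f.eval (t : ℝ)⌋₊) : Finset ℕ) : Set ℕ) := by
      rintro v ⟨⟨t, ht, hv⟩, hvn⟩
      have hvn' : v ≤ n := hvn
      rw [Finset.coe_image]
      refine ⟨t, ?_, ?_⟩
      · rw [Finset.mem_coe, Finset.mem_Icc]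
        refine ⟨ht, ?_⟩
        rcases le_or_gt T t with hTt | hTt
        · have h1 := hgrow t hTt
          rw [hv] at h1
          have h2 : (A : ℤ) * t ≤ v := by exact_mod_cast h1
          have h3 : t ≤ (q : ℤ) := by
            rw [hq]
            push_cast
            rw [Int.le_ediv_iff_mul_le (by exact_mod_cast hA0')]
            have : (v : ℤ) ≤ n := by exact_mod_cast hvn'
            linarith [mul_comm (A : ℤ) t]
          omega
        · omega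
      · simp only [hv]
        simp
    have h1 := Set.ncard_le_ncard hsub (Finset.finite_toSet _)
    rw [Set.ncard_coe_finset] at h1
    have h2 := h1.trans (Finset.card_image_le)
    rw [Int.card_Icc] at h2
    have h3 : ((T + (q : ℤ) + 1 - t₀).toNat : ℤ) = T + (q : ℤ) + 1 - t₀ :=
      Int.toNat_of_nonneg (by omega)
    have h4 : (({v : ℕ | ∃ t : ℤ, t₀ ≤ t ∧ f.eval (t : ℝ) = v} ∩ Set.Iic n).ncard : ℤ) ≤
        T + (q : ℤ) + 1 - t₀ := by
      rw [← h3]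
      exact_mod_cast h2
    have h5 : (({v : ℕ | ∃ t : ℤ, t₀ ≤ t ∧ f.eval (t : ℝ) = v} ∩ Set.Iic n).ncard : ℝ) ≤
        ((T + (q : ℤ) + 1 - t₀ : ℤ) : ℝ) := by
      exact_mod_cast h4
    refine h5.trans ?_
    have h6 : (q : ℝ) ≤ (n : ℝ) / A := by
      rw [hq]
      exact Nat.cast_div_le
    push_cast
    linarith
  obtain ⟨N0, hN0⟩ := exists_nat_gt (((T - t₀ + 1 : ℤ) : ℝ) * 2 / ε)
  filter_upwards [eventually_ge_atTop N0] with n hn
  refine (hcount n).trans ?_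
  have hn' : ((T - t₀ + 1 : ℤ) : ℝ) * 2 / ε ≤ n := hN0.le.trans (by exact_mod_cast hn)
  rw [div_le_iff₀ hε] at hn'
  have h7 : (n : ℝ) / A ≤ n * (ε / 2) := by
    rw [div_eq_mul_inv]
    refine mul_le_mul_of_nonneg_left ?_ (Nat.cast_nonneg n)
    rw [inv_le_comm₀ hA0 (by positivity)]
    rw [inv_div]
    exact hA.le
  linarith

end Pool.Agent.Lib.MP_ff4e96_coG
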